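import Pool.Graph.R_seed8.R121.Fish.Tree

set_option autoImplicit false

/-! Generating trees of Fishburn permutations: marks on the enumerated sites. -/

namespace Pool.Agent.H25.Fish

open Finset Pool.Agent.R121 Pool.Agent.R121.Fish

attribute [local instance 10] Classical.propDecidable

/-- a mark strictly between `i` and `j` -/
def Bt (M : List ℕ) (i j : ℕ) : Prop := ∃ q ∈ M, i < q ∧ q < j

/-- a mark `q` with `i < q ≤ j` -/
def Bl (M : List ℕ) (i j : ℕ) : Prop := ∃ q ∈ M, i < q ∧ q ≤ j

/-- the first mark above `i` in a decreasing list -/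
def nx : ℕ → List ℕ → ℕ → ℕ
  | p, [], _ => p
  | p, q :: l, i => if i < q then nx q l i else p

lemma nx_spec (l : List ℕ) : ∀ p i : ℕ, (p :: l).Pairwise (· ≥ ·) → i < p →
    i < nx p l i ∧ nx p l i ≤ p ∧ nx p l i ∈ p :: l ∧ ∀ q ∈ p :: l, i < q → nx p l i ≤ q := by
  induction l with
  | nil =>
    intro p i _ h
    simp only [nx]
    refine ⟨h, le_rfl, by simp, ?_⟩
    intro q hq _
    simp only [List.mem_singleton] at hq
    omega
  | cons q l ih =>
    intro p i hp h
    have hp1 := List.pairwise_cons.1 hp
    by_cases hi : i < q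
    · simp only [nx, if_pos hi]
      obtain ⟨h1, h2, h3, h4⟩ := ih q i hp1.2 hi
      have h5 := hp1.1 q (by simp)
      refine ⟨h1, by omega, List.mem_cons_of_mem _ h3, ?_⟩
      intro r hr hir
      rcases List.mem_cons.1 hr with rfl | hr
      · omega
      · exact h4 r hr hir
    · simp only [nx, if_neg hi]
      refine ⟨h, le_rfl, by simp, ?_⟩
      intro r hr hir
      rcases List.mem_cons.1 hr with rfl | hr
      · exact le_rfl
      · exfalso
        have h6 : r ≤ q := by
          rcases List.mem_cons.1 hr with rfl | hr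
          · exact le_rfl
          · exact (List.pairwise_cons.1 hp1.2).1 r hr
        omega

/-- a sum over an enumerated set -/
lemma sum_enum (s : ℕ → ℕ) (hs : StrictMono s) (A : Finset ℕ) (N : ℕ)
    (hA : ∀ w, w ∈ A ↔ ∃ i, i < N ∧ s i = w) (g : ℕ → ℤ) :
    ∑ u ∈ A, g (Function.invFun s u) = ∑ z ∈ range N, g z := by
  have h : A = (range N).image s := by
    ext w
    rw [hA, mem_image]
    simp only [mem_range]
  rw [h, sum_image (fun a _ b _ hab => hs.injective hab)]
  apply sum_congr rfl
  intro z _
  rw [Function.leftInverse_invFun hs.injective z]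

lemma fin1_lt (i j : Fin 1) : ¬ i < j := by
  rw [Fin.lt_def]
  omega

end Pool.Agent.H25.Fish
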