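import Pool.Agent.H25.Fish.CountB

set_option autoImplicit false

/-! The common power series of the three generating trees. -/

namespace Pool.Agent.H25.Fish

open Finset PowerSeries

/-- exchange of the two variables -/
noncomputable def sw : (ℤ⟦X⟧)⟦X⟧ →+* (ℤ⟦X⟧)⟦X⟧ where
  toFun f := PowerSeries.mk fun k => PowerSeries.mk fun n => coeff k (coeff n f)
  map_one' := by
    ext k n
    simp only [coeff_mk, coeff_one]
    by_cases hn : n = 0 <;> by_cases hk : k = 0 <;> simp [hn, hk, coeff_one]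
  map_zero' := by
    ext k n
    simp
  map_add' f g := by
    ext k n
    simp
  map_mul' f g := by
    ext k n
    simp only [coeff_mk, coeff_mul, map_sum]
    rw [sum_comm]

lemma coeff_sw (f : (ℤ⟦X⟧)⟦X⟧) (k n : ℕ) : coeff n (coeff k (sw f)) = coeff k (coeff n f) := by
  simp [sw]

lemma sw_X : sw X = C X := by
  ext k n
  rw [coeff_sw, coeff_X, coeff_C]
  by_cases hn : n = 1 <;> by_cases hk : k = 0 <;> simp [hn, hk, coeff_X, coeff_one]

lemma sw_CX : sw (C X) = X := by
  ext k n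
  rw [coeff_sw, coeff_X, coeff_C]
  by_cases hn : n = 0 <;> by_cases hk : k = 1 <;> simp [hn, hk, coeff_X, coeff_one]

lemma Pn_map {B B' : Type*} [CommRing B] [CommRing B'] (φ : B →+* B') (n : ℕ) (v : B) :
    φ (Pn n v) = Pn n (φ v) := by
  unfold Pn
  rw [E_map]
  apply E_congr
  intro s
  unfold z0
  split_ifs <;> simp

lemma sw_Ps_one : sw (Ps 1) = C (Ps 1) := by
  ext k n
  rw [coeff_sw, coeff_C]
  simp only [Ps, coeff_mk]
  have h := Pn_map (C (R := ℤ)) n 1
  rw [map_one] at h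
  rw [← h, coeff_C]
  by_cases hk : k = 0 <;> simp [hk]

lemma coeff_sw_Ps : coeff 0 (sw (Ps (1 + X))) = Ps 1 := by
  ext n
  rw [coeff_sw]
  simp only [Ps, coeff_mk, coeff_zero_eq_constantCoeff]
  rw [Pn_map]
  simp

lemma Q_fun : X * ((1 - C X * (1 + X)) * sw (Ps (1 + X)) - 1) * (1 - C X * sw (Ps (1 + X))) =
    C X * (1 + X) * (sw (Ps (1 + X)) - C (Ps (1 : ℤ))) * (1 - C X) := by
  have h := congrArg sw (Ps_fun (1 + X : ℤ⟦X⟧))
  simp only [map_mul, map_sub, map_add, map_one, sw_X, sw_CX, sw_Ps_one] at h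
  linear_combination h

/-- the inverse of `1 + T` -/
lemma exists_inv (R : Type*) [CommRing R] : ∃ U : R⟦X⟧, (1 + X) * U = 1 := by
  refine ⟨PowerSeries.mk fun k => (-1) ^ k, ?_⟩
  ext k
  cases k with
  | zero => simp
  | succ k =>
    rw [add_mul, one_mul, map_add, coeff_succ_X_mul, coeff_mk, coeff_mk, coeff_one,
      if_neg (by omega), pow_succ]
    ring

/-- the inverse of `1 - x` -/
lemma exists_inv' : ∃ W : ℤ⟦X⟧, (1 - X) * W = 1 := by
  refine ⟨PowerSeries.mk fun _ => 1, ?_⟩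
  ext k
  cases k with
  | zero => simp
  | succ k =>
    rw [sub_mul, one_mul, map_sub, coeff_succ_X_mul, coeff_mk, coeff_mk, coeff_one,
      if_neg (by omega)]
    ring

lemma exists_kernel (W : ℤ⟦X⟧) (hW : (1 - X) * W = 1) :
    (1 - C X * (1 + X)) * (PowerSeries.mk fun k => W * (X * W) ^ k : (ℤ⟦X⟧)⟦X⟧) = 1 := by
  have h : (1 - C X * (1 + X) : (ℤ⟦X⟧)⟦X⟧) = C (1 - X) - X * C X := by
    rw [map_sub, map_one]
    ring
  rw [h]
  ext1 k
  cases k with
  | zero =>
    rw [sub_mul, map_sub, coeff_C_mul, mul_assoc, coeff_mk, coeff_one, if_pos rfl, pow_zero,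
      mul_one, hW]
    simp
  | succ k =>
    rw [sub_mul, map_sub, coeff_C_mul, mul_assoc, coeff_succ_X_mul, coeff_C_mul, coeff_mk,
      coeff_mk, coeff_one, if_neg (by omega)]
    linear_combination (X * W) ^ k * X * W * hW

/-- the power series behind the three generating trees -/
theorem exists_series : ∃ (F : ℤ⟦X⟧) (Φ S : ℕ → ℤ⟦X⟧), F = 1 + X * Zs 1 ∧ Φ 0 = 1 ∧ S 0 = 0 ∧
    (∀ b, (1 - X) * S b = F * ∑ i ∈ range b, Φ i * Φ (b - i)) ∧
    ∀ a, (1 - X) * F * Φ a = 1 + X * (1 - X) * S a + X ^ 2 * S (a + 1) := by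
  obtain ⟨U, hU⟩ := exists_inv (ℤ⟦X⟧)
  obtain ⟨W, hW⟩ := exists_inv'
  have hK := exists_kernel W hW
  set K : (ℤ⟦X⟧)⟦X⟧ := PowerSeries.mk fun k => W * (X * W) ^ k with hKdef
  have hQ := Q_fun
  have hQ0 := coeff_sw_Ps
  set Q := sw (Ps (1 + X)) with hQdef
  set Q0 : ℤ⟦X⟧ := Ps 1 with hQ0def
  set F : ℤ⟦X⟧ := 1 + X * Zs 1 with hF
  have hFG : F * (1 - X * Q0) = 1 := by
    have h := Zs_one (B := ℤ)
    linear_combination W * h + (1 - F * (1 - X * Q0)) * hW
  clear_value F
  -- the series `Ψ`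
  set P : (ℤ⟦X⟧)⟦X⟧ := (1 + X * Q) * U with hP
  have hP1 : (1 + X) * P = 1 + X * Q := by
    rw [hP]
    linear_combination (1 + X * Q) * hU
  have hG : (C (1 - X * Q0) : (ℤ⟦X⟧)⟦X⟧) = 1 - C X * C Q0 := by
    rw [map_sub, map_one, map_mul]
  -- the quadratic equation
  have h1 : (1 - C X) * X * C (1 - X * Q0) =
      (1 - C X * (1 + X)) * P * ((X + C X) - C X * (1 + X) * P) := by
    have h2 : (1 + X) * ((1 - C X) * X * C (1 - X * Q0) -
      (1 - C X * (1 + X)) * P * ((X + C X) - C X * (1 + X) * P)) = 0 := by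
      rw [hG]
      have h3 : X * Q = (1 + X) * P - 1 := by linear_combination -hP1
      have h4 : X * (X * ((1 - C X * (1 + X)) * Q - 1) * (1 - C X * Q)) =
        X * (C X * (1 + X) * (Q - C Q0) * (1 - C X)) := by rw [hQ]
      have h5 : X * (X * ((1 - C X * (1 + X)) * Q - 1) * (1 - C X * Q)) =
        ((1 - C X * (1 + X)) * (X * Q) - X) * (X - C X * (X * Q)) := by ring
      have h6 : X * (C X * (1 + X) * (Q - C Q0) * (1 - C X)) =
        C X * (1 + X) * (X * Q - X * C Q0) * (1 - C X) := by ring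
      rw [h5, h6, h3] at h4
      linear_combination -h4
    have h7 : (1 - C X) * X * C (1 - X * Q0) -
      (1 - C X * (1 + X)) * P * ((X + C X) - C X * (1 + X) * P) = 0 := by
      linear_combination U * h2 + (-((1 - C X) * X * C (1 - X * Q0) -
        (1 - C X * (1 + X)) * P * ((X + C X) - C X * (1 + X) * P))) * hU
    linear_combination h7
  -- the series `S`
  set S : (ℤ⟦X⟧)⟦X⟧ := C (W * F) * (P * (P - 1)) with hS
  have hCF : (C F : (ℤ⟦X⟧)⟦X⟧) * C (1 - X * Q0) = 1 := by
    rw [← map_mul, hFG, map_one]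
  have hCW : (1 - C X : (ℤ⟦X⟧)⟦X⟧) * C W = 1 := by
    have : (1 - C X : (ℤ⟦X⟧)⟦X⟧) = C (1 - X) := by rw [map_sub, map_one]
    rw [this, ← map_mul, hW, map_one]
  have h8 : X * C F * P = X * K + C X * (1 + X) * S := by
    have h9 : X * C F * (1 - C X * (1 + X)) * P =
        X + C X * (1 + X) * (1 - C X * (1 + X)) * S := by
      rw [hS, map_mul]
      linear_combination (-C W * C F) * h1 + (C W * (1 - C X) * X) * hCF +
        (X - X * C F * (1 - C X * (1 + X)) * P) * hCW
    linear_combination K * h9 + (-X * C F * P + C X * (1 + X) * S) * hK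
  have hP0 : coeff 0 P = 1 := by
    have := congrArg (coeff (R := ℤ⟦X⟧) 0) hP1
    simpa using this
  -- coefficients
  have hSc : ∀ b, coeff b S = W * F * ∑ i ∈ range b, coeff i P * coeff (b - i) P := by
    intro b
    rw [hS, coeff_C_mul, coeff_mul,
      Finset.Nat.sum_antidiagonal_eq_sum_range_succ (fun i j => coeff i P * coeff j (P - 1)) b,
      sum_range_succ, Nat.sub_self, map_sub, hP0, coeff_one, if_pos rfl, sub_self, mul_zero,
      add_zero]
    congr 1
    apply sum_congr rfl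
    intro i hi
    rw [mem_range] at hi
    rw [map_sub, coeff_one, if_neg (by omega), sub_zero]
  have hc : ∀ a, F * coeff a P = W * (X * W) ^ a + X * (coeff (a + 1) S + coeff a S) := by
    intro a
    have h9 := congrArg (coeff (R := ℤ⟦X⟧) (a + 1)) h8
    rw [map_add, mul_assoc X, coeff_succ_X_mul, coeff_C_mul, coeff_succ_X_mul, mul_assoc (C X),
      coeff_C_mul, add_mul, one_mul, map_add, coeff_succ_X_mul, hKdef, coeff_mk] at h9
    exact h9
  -- divisibility
  have hdiv : ∀ n a, (X : ℤ⟦X⟧) ^ (min n a) ∣ coeff a P := by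
    intro n
    induction n with
    | zero => simp
    | succ n ih =>
      intro a
      have hSd : ∀ b, (X : ℤ⟦X⟧) ^ (min n b) ∣ coeff b S := by
        intro b
        rw [hSc]
        apply Dvd.dvd.mul_left
        apply dvd_sum
        intro i hi
        rw [mem_range] at hi
        refine dvd_trans (pow_dvd_pow _ (show min n b ≤ min n i + min n (b - i) by omega)) ?_
        rw [pow_add]
        exact mul_dvd_mul (ih i) (ih (b - i))
      have h9 : (X : ℤ⟦X⟧) ^ (min (n + 1) a) ∣ F * coeff a P := by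
        rw [hc]
        apply dvd_add
        · apply Dvd.dvd.mul_left
          rw [mul_pow]
          apply Dvd.dvd.mul_right
          exact pow_dvd_pow _ (by omega)
        · refine dvd_trans (pow_dvd_pow _ (show min (n + 1) a ≤ 1 + min n a by omega)) ?_
          rw [pow_add, pow_one]
          apply mul_dvd_mul_left
          apply dvd_add
          · exact dvd_trans (pow_dvd_pow _ (by omega)) (hSd (a + 1))
          · exact hSd a
      have h10 : coeff a P = (1 - X * Q0) * (F * coeff a P) := by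
        linear_combination (-coeff a P) * hFG
      rw [h10]
      exact Dvd.dvd.mul_left h9 _
  have hdiv2 : ∀ a, ∃ ψ : ℤ⟦X⟧, coeff a P = X ^ a * ψ := by
    intro a
    have := hdiv a a
    rw [min_self] at this
    exact this
  choose ψ hψ using hdiv2
  have hWX : ∀ a : ℕ, (X * W) ^ a * ((1 - X) ^ a * ψ a) = coeff a P := by
    intro a
    rw [hψ, ← mul_assoc, mul_pow, mul_assoc (X ^ a), ← mul_pow, mul_comm W, hW, one_pow, mul_one]
  have hS2 : ∀ b, coeff b S = (X * W) ^ b *
      (W * F * ∑ i ∈ range b, ((1 - X) ^ i * ψ i) * ((1 - X) ^ (b - i) * ψ (b - i))) := by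
    intro b
    rw [hSc, mul_left_comm]
    congr 1
    rw [mul_sum]
    apply sum_congr rfl
    intro i hi
    rw [mem_range] at hi
    rw [← hWX i, ← hWX (b - i)]
    have : (X * W) ^ b = (X * W) ^ i * (X * W) ^ (b - i) := by
      rw [← pow_add]
      congr 1
      omega
    rw [this]
    ring
  have hXW : (X * W : ℤ⟦X⟧) ≠ 0 := by
    intro h
    rcases mul_eq_zero.1 h with h | h
    · exact X_ne_zero h
    · rw [h, mul_zero] at hW
      exact zero_ne_one hW
  refine ⟨F, fun a => (1 - X) ^ a * ψ a, fun b => W * F * ∑ i ∈ range b,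
    ((1 - X) ^ i * ψ i) * ((1 - X) ^ (b - i) * ψ (b - i)), rfl, ?_, ?_, ?_, ?_⟩
  · have := hWX 0
    rw [hP0, pow_zero, one_mul] at this
    exact this
  · simp
  · intro b
    simp only
    linear_combination (F * ∑ i ∈ range b, ((1 - X) ^ i * ψ i) *
      ((1 - X) ^ (b - i) * ψ (b - i))) * hW
  · intro a
    simp only
    have h9 := hc a
    rw [hS2, hS2, ← hWX a] at h9
    set Sa := W * F * ∑ i ∈ range a, ((1 - X) ^ i * ψ i) * ((1 - X) ^ (a - i) * ψ (a - i))
    set Sb := W * F * ∑ i ∈ range (a + 1),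
      ((1 - X) ^ i * ψ i) * ((1 - X) ^ (a + 1 - i) * ψ (a + 1 - i))
    have h10 : (X * W) ^ a * ((1 - X) * F * ((1 - X) ^ a * ψ a)) =
        (X * W) ^ a * (1 + X * (1 - X) * Sa + X ^ 2 * Sb) := by
      rw [pow_succ] at h9
      linear_combination (1 - X) * h9 + (X * W) ^ a * (1 + X ^ 2 * Sb) * hW
    exact mul_left_cancel₀ (pow_ne_zero a hXW) h10

end Pool.Agent.H25.Fish
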