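import Pool.Agent.H25.Fish.TC
import Pool.Agent.H25.Fish.Series
import Pool.Graph.R_seed8.R121.Fish.Tree

set_option autoImplicit false

/-! The descendant series of the generating trees of `3214` and `4213`. -/

namespace Pool.Agent.H25.Fish

open Finset PowerSeries Pool.Agent.R121.Fish

section AC

variable (F : ℤ⟦X⟧) (Φ S : ℕ → ℤ⟦X⟧)

/-- product over the blocks -/
noncomputable def Wt : List ℕ → ℤ⟦X⟧
  | [] => 1
  | p :: l => Φ (p - l.headD 0) * Wt l

/-- weighted sum over the blocks -/
noncomputable def BS (T : ℕ → ℤ⟦X⟧) : List ℕ → ℤ⟦X⟧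
  | [] => 0
  | p :: l => Wt Φ l * T (p - l.headD 0) + BS T l

/-- descendant series for `3214` -/
noncomputable def HA (s : ℕ × List ℕ × ℕ) : ℤ⟦X⟧ :=
  Wt Φ s.2.1 * (F * Φ (s.1 - s.2.1.headD 0 - 1) * Φ (s.2.2 - 1) +
    X * (S (s.1 - s.2.1.headD 0) - S (s.1 - s.2.1.headD 0 - 1)))

variable (h0 : Φ 0 = 1) (hS0 : S 0 = 0)
  (h1 : ∀ b, (1 - X) * S b = F * ∑ i ∈ range b, Φ i * Φ (b - i))
  (h2 : ∀ a, (1 - X) * F * Φ a = 1 + X * (1 - X) * S a + X ^ 2 * S (a + 1))

lemma headD_le (p : ℕ) (l : List ℕ) (h : (p :: l).Pairwise (· ≥ ·)) : l.headD 0 ≤ p := by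
  cases l with
  | nil => simp
  | cons q l =>
    simp only [List.headD_cons]
    exact (List.pairwise_cons.1 h).1 q (by simp)

include h0 h1 in
lemma sum_block (b : ℕ) (hb : 1 ≤ b) :
    ∑ k ∈ range (b - 1), (F * Φ (k + 1) * Φ (b - (k + 1)) + X * (S (k + 2) - S (k + 1))) =
      (1 - X) * S b - F * Φ b + X * (S b - S 1) := by
  obtain ⟨c, rfl⟩ : ∃ c, b = c + 1 := ⟨b - 1, by omega⟩
  rw [Nat.add_sub_cancel, sum_add_distrib, ← mul_sum, sum_range_sub (fun k => S (k + 1)), h1,
    sum_range_succ', h0, Nat.sub_zero, mul_add, mul_sum, one_mul]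
  congr 1
  rw [add_sub_cancel_right]
  apply sum_congr rfl
  intro k _
  ring

include h0 hS0 h1 h2 in
lemma popsA (l : List ℕ) : ∀ p, (p :: l).Pairwise (· > ·) → 1 ≤ p →
    X * ∑ z ∈ range p, HA F Φ S (z + 1, l.filter (fun y => y < z), nx p l z - z + 1) =
      Wt Φ l * (1 + X * S (p - l.headD 0)) - 1 := by
  induction l with
  | nil =>
    intro p _ hp1
    have h3 : ∀ z ∈ range p, HA F Φ S (z + 1, ([] : List ℕ).filter (fun y => y < z),
        nx p [] z - z + 1) = F * (Φ z * Φ (p - z)) + X * (S (z + 1) - S z) := by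
      intro z _
      simp only [HA, Wt, nx, List.filter_nil, List.headD_nil, Nat.sub_zero, Nat.add_sub_cancel]
      ring
    rw [sum_congr rfl h3, sum_add_distrib, ← mul_sum, ← mul_sum, sum_range_sub S, hS0, ← h1]
    simp only [Wt, List.headD_nil, Nat.sub_zero]
    ring
  | cons q l ih =>
    intro p hp _
    obtain ⟨hp1, hp2⟩ := List.pairwise_cons.1 hp
    have hqp : q < p := hp1 q (by simp)
    obtain ⟨hq1, hq2⟩ := List.pairwise_cons.1 hp2
    obtain ⟨b, rfl⟩ : ∃ b, p = q + (b + 1) := ⟨p - q - 1, by omega⟩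
    rw [sum_range_add, sum_range_succ', mul_add, mul_add]
    simp only [List.headD_cons]
    have hb : q + (b + 1) - q = b + 1 := by omega
    rw [hb]
    -- the sites below `q`
    have e1 : ∀ z ∈ range q, HA F Φ S (z + 1, (q :: l).filter (fun y => y < z),
        nx (q + (b + 1)) (q :: l) z - z + 1) =
        HA F Φ S (z + 1, l.filter (fun y => y < z), nx q l z - z + 1) := by
      intro z hz
      rw [mem_range] at hz
      rw [List.filter_cons_of_neg (by simp only [decide_eq_true_eq]; omega), nx, if_pos hz]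
    -- the site `q`
    have e2 : (q :: l).filter (fun y => y < q + 0) = l := by
      rw [List.filter_cons_of_neg (by simp), List.filter_eq_self]
      intro y hy
      have := hq1 y hy
      simp only [decide_eq_true_eq]
      omega
    have e3 : nx (q + (b + 1)) (q :: l) (q + 0) = q + (b + 1) := by
      rw [nx, if_neg (by omega)]
    -- the sites above `q`
    have e4 : ∀ k ∈ range b, HA F Φ S (q + (k + 1) + 1, (q :: l).filter
        (fun y => y < q + (k + 1)), nx (q + (b + 1)) (q :: l) (q + (k + 1)) - (q + (k + 1)) + 1) =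
        Wt Φ (q :: l) * (F * Φ (k + 1) * Φ (b + 1 - (k + 1)) + X * (S (k + 2) - S (k + 1))) := by
      intro k hk
      rw [mem_range] at hk
      have e5 : (q :: l).filter (fun y => y < q + (k + 1)) = q :: l := by
        rw [List.filter_eq_self]
        intro y hy
        simp only [decide_eq_true_eq]
        rcases List.mem_cons.1 hy with h | h
        · omega
        · have := hq1 y h
          omega
      rw [e5, nx, if_neg (by omega)]
      simp only [HA, List.headD_cons]
      rw [show q + (k + 1) + 1 - q - 1 = k + 1 by omega,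
        show q + (b + 1) - (q + (k + 1)) + 1 - 1 = b + 1 - (k + 1) by omega,
        show q + (k + 1) + 1 - q = k + 2 by omega]
    rw [sum_congr rfl e1, e2, e3, sum_congr rfl e4, ← mul_sum]
    have h3 := sum_block F Φ S h0 h1 (b + 1) (by omega)
    rw [Nat.add_sub_cancel] at h3
    rw [h3]
    by_cases hq0 : q = 0
    · -- the mark `0`
      subst hq0
      have hl : l = [] := by
        cases l with
        | nil => rfl
        | cons c l =>
          have := hq1 c (by simp)
          omega
      subst hl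
      simp only [HA, Wt, List.headD_nil, List.headD_cons, range_zero, sum_empty]
      have h5 := h2 0
      have e8 : (0 : ℕ) + 0 + 1 - 0 - 1 = 0 := rfl
      have e9 : (0 : ℕ) + (b + 1) - (0 + 0) + 1 - 1 = b + 1 := by omega
      have e10 : (0 : ℕ) + 0 + 1 - 0 = 1 := rfl
      rw [e8, e9, e10, hS0, h0]
      ring
    · have h4 := ih q hp2 (by omega)
      rw [h4]
      have hql : l.headD 0 ≤ q := headD_le q l (hp2.imp fun h => le_of_lt h)
      simp only [HA, Wt]
      rw [show q + 0 + 1 - l.headD 0 - 1 = q - l.headD 0 by omega,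
        show q + (b + 1) - (q + 0) + 1 - 1 = b + 1 by omega,
        show q + 0 + 1 - l.headD 0 = q - l.headD 0 + 1 by omega]
      have h5 := h2 (q - l.headD 0)
      have h6 := h2 0
      rw [h0, hS0] at h6
      linear_combination (-Wt Φ l) * h5 + (Wt Φ l * Φ (q - l.headD 0)) * h6

include h0 hS0 h1 h2 in
/-- the recursion of the descendant series of `3214` -/
lemma HA_rec (s : ℕ × List ℕ × ℕ) (hs : GoodA s) :
    HA F Φ S s = 1 + X * ∑ z ∈ range (s.1 + s.2.2), HA F Φ S (chA s z) := by
  obtain ⟨p, l, e⟩ := s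
  obtain ⟨g1, g2, g3, g4⟩ := hs
  simp only at g1 g2 g3 g4
  obtain ⟨e, rfl⟩ : ∃ c, e = c + 1 := ⟨e - 1, by omega⟩
  simp only
  have hpl : (p :: l).Pairwise (· > ·) := by
    rw [List.pairwise_cons]
    exact ⟨fun q hq => by have := g3 q hq; omega, g2⟩
  rw [sum_range_add, sum_range_succ', mul_add, mul_add]
  have e1 : ∀ z ∈ range p, HA F Φ S (chA (p, l, e + 1) z) =
      HA F Φ S (z + 1, l.filter (fun y => y < z), nx p l z - z + 1) := by
    intro z hz
    rw [mem_range] at hz
    unfold chA
    rw [if_pos hz]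
  have e2 : chA (p, l, e + 1) (p + 0) = (p, l, e + 1) := by
    unfold chA
    simp only
    rw [if_neg (by omega), List.filter_cons_of_neg (by simp only [decide_eq_true_eq]; omega)]
    have : l.filter (fun y => y + 1 < p + 0) = l := by
      rw [List.filter_eq_self]
      intro y hy
      have := g3 y hy
      simp only [decide_eq_true_eq]
      omega
    rw [this]
    congr 2
    omega
  have e3 : ∀ k ∈ range e, HA F Φ S (chA (p, l, e + 1) (p + (k + 1))) =
      Wt Φ ((p - 1) :: l) * (F * (Φ (k + 1) * Φ (e - (k + 1))) + X * (S (k + 2) - S (k + 1))) := by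
    intro k hk
    rw [mem_range] at hk
    have : chA (p, l, e + 1) (p + (k + 1)) = (p + (k + 1), (p - 1) :: l, e - k) := by
      unfold chA
      simp only
      rw [if_neg (by omega)]
      have : ((p - 1) :: l).filter (fun y => y + 1 < p + (k + 1)) = (p - 1) :: l := by
        rw [List.filter_eq_self]
        intro y hy
        simp only [decide_eq_true_eq]
        rcases List.mem_cons.1 hy with h | h
        · omega
        · have := g3 y h
          omega
      rw [this]
      congr 2
      omega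
    rw [this]
    simp only [HA, List.headD_cons]
    rw [show p + (k + 1) - (p - 1) - 1 = k + 1 by omega,
      show e - k - 1 = e - (k + 1) by omega, show p + (k + 1) - (p - 1) = k + 2 by omega]
    ring
  have e4 : ∑ k ∈ range e, (F * (Φ (k + 1) * Φ (e - (k + 1))) + X * (S (k + 2) - S (k + 1))) =
      (1 - X) * S e + X * (S (e + 1) - S 1) := by
    rw [sum_add_distrib, ← mul_sum, ← mul_sum, sum_range_sub (fun k => S (k + 1)), h1]
    congr 2
    rw [← sum_range_reflect]
    apply sum_congr rfl
    intro k hk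
    rw [mem_range] at hk
    rw [show e - 1 - k + 1 = e - k by omega, show e - (e - k) = k by omega, mul_comm]
  have hpops := popsA F Φ S h0 hS0 h1 h2 l p hpl g1
  have hq : l.headD 0 + 1 ≤ p := by
    cases l with
    | nil => simpa using g1
    | cons q l =>
      have := g3 q (by simp)
      simp only [List.headD_cons]
      omega
  rw [sum_congr rfl e1, hpops, e2, sum_congr rfl e3, ← mul_sum, e4]
  simp only [HA, Wt, Nat.add_sub_cancel]
  rw [show p - 1 - l.headD 0 = p - l.headD 0 - 1 by omega]
  have h5 := h2 (p - l.headD 0 - 1)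
  rw [show p - l.headD 0 - 1 + 1 = p - l.headD 0 by omega] at h5
  have h6 := h2 e
  have h7 := h2 0
  rw [h0, hS0] at h7
  linear_combination (Wt Φ l) * h5 + (Wt Φ l * Φ (p - l.headD 0 - 1)) * h6 -
    (Wt Φ l * Φ (p - l.headD 0 - 1)) * h7

include h0 hS0 h1 h2 in
lemma TA_iter (n : ℕ) : ∀ s, GoodA s → (TA^[n] fun _ => 1) s = coeff n (HA F Φ S s) := by
  induction n with
  | zero =>
    intro s hs
    rw [HA_rec F Φ S h0 hS0 h1 h2 s hs]
    simp
  | succ n ih =>
    intro s hs
    rw [Function.iterate_succ_apply', HA_rec F Φ S h0 hS0 h1 h2 s hs, map_add, coeff_one,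
      if_neg (by omega), zero_add, coeff_succ_X_mul, map_sum]
    unfold TA
    apply sum_congr rfl
    intro z hz
    rw [mem_range] at hz
    exact ih _ (chA_good s hs z hz)

/-- descendant series for `4213` -/
noncomputable def HC (X0 : ℤ⟦X⟧) (s : Bool × ℕ × List ℕ × ℕ) : ℤ⟦X⟧ :=
  if s.1 = true then (if s.2.2.2 = 0 then X0 else S 1) * Wt Φ ((s.2.1 - 1) :: s.2.2.1) +
    X * BS Φ (fun a => S (a + 1) - S a - Φ a * S 1) ((s.2.1 - 1) :: s.2.2.1)
  else Wt Φ s.2.2.1 * (F * Φ (s.2.1 - s.2.2.1.headD 0 - 1) * Φ s.2.2.2 +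
    X * (S (s.2.1 - s.2.2.1.headD 0) - S (s.2.1 - s.2.2.1.headD 0 - 1)))

lemma BS_congr {T T' : ℕ → ℤ⟦X⟧} (h : ∀ b, T b = T' b) (P : List ℕ) : BS Φ T P = BS Φ T' P := by
  have : T = T' := funext h
  rw [this]

lemma BS_lin (c : ℤ⟦X⟧) (T T' : ℕ → ℤ⟦X⟧) (P : List ℕ) :
    BS Φ (fun b => c * T b + T' b) P = c * BS Φ T P + BS Φ T' P := by
  induction P with
  | nil => simp [BS]
  | cons p l ih =>
    simp only [BS]
    rw [ih]
    ring

include h0 hS0 h1 h2 in
/-- the key identity -/
lemma BS_star (P : List ℕ) : 1 + X * BS Φ S P +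
    X ^ 2 * BS Φ (fun a => S (a + 1) - S a - Φ a * S 1) P = Wt Φ P := by
  induction P with
  | nil => simp [BS, Wt]
  | cons p l ih =>
    simp only [BS, Wt]
    have h3 := h2 (p - l.headD 0)
    have h4 := h2 0
    rw [h0, hS0] at h4
    linear_combination ih - Wt Φ l * h3 + (Wt Φ l * Φ (p - l.headD 0)) * h4

lemma popsC (X0 : ℤ⟦X⟧) (c : ℕ) (l : List ℕ) : ∀ p, (p :: l).Pairwise (· ≥ ·) →
    ∑ z ∈ range p, HC F Φ S X0 (false, z + 1, l.filter (fun y => y ≤ z), nx p l z - z + c) =
      BS Φ (fun b => ∑ k ∈ range b, (F * (Φ k * Φ (b - k + c)) + X * (S (k + 1) - S k)))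
        (p :: l) := by
  induction l with
  | nil =>
    intro p _
    simp only [BS, Wt, List.headD_nil, Nat.sub_zero, one_mul, add_zero]
    apply sum_congr rfl
    intro z _
    simp only [HC, Wt, nx, List.filter_nil, List.headD_nil, Nat.sub_zero, Nat.add_sub_cancel]
    rw [if_neg (by simp)]
    ring
  | cons q l ih =>
    intro p hp
    obtain ⟨hp1, hp2⟩ := List.pairwise_cons.1 hp
    have hqp : q ≤ p := hp1 q (by simp)
    obtain ⟨hq1, hq2⟩ := List.pairwise_cons.1 hp2
    obtain ⟨b, rfl⟩ : ∃ b, p = q + b := ⟨p - q, by omega⟩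
    have h4 := ih q hp2
    rw [sum_range_add, BS, ← h4, add_comm]
    simp only [List.headD_cons]
    rw [Nat.add_sub_cancel_left, mul_sum]
    congr 1
    · apply sum_congr rfl
      intro k hk
      rw [mem_range] at hk
      have e5 : (q :: l).filter (fun y => y ≤ q + k) = q :: l := by
        rw [List.filter_eq_self]
        intro y hy
        simp only [decide_eq_true_eq]
        rcases List.mem_cons.1 hy with h | h
        · omega
        · have := hq1 y h
          omega
      rw [e5, nx, if_neg (by omega)]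
      simp only [HC, List.headD_cons]
      rw [if_neg (by simp), show q + k + 1 - q - 1 = k by omega,
        show q + b - (q + k) + c = b - k + c by omega,
        show q + k + 1 - q = k + 1 by omega]
      ring
    · apply sum_congr rfl
      intro z hz
      rw [mem_range] at hz
      rw [List.filter_cons_of_neg (by simp only [decide_eq_true_eq]; omega), nx, if_pos hz]

include h0 hS0 h1 in
lemma popT0 (b : ℕ) : ∑ k ∈ range b, (F * (Φ k * Φ (b - k)) + X * (S (k + 1) - S k)) = S b := by
  rw [sum_add_distrib, ← mul_sum, ← mul_sum, sum_range_sub S, hS0, ← h1]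
  ring

include h0 hS0 h1 in
lemma popT1 (b : ℕ) : ∑ k ∈ range b, (F * (Φ k * Φ (b - k + 1)) + X * (S (k + 1) - S k)) =
    (1 - X) * (S (b + 1) - S b - Φ b * S 1) + S b := by
  have h3 := h1 (b + 1)
  rw [sum_range_succ, Nat.add_sub_cancel_left] at h3
  have h4 := h1 1
  rw [sum_range_one, h0, Nat.sub_zero, one_mul] at h4
  rw [sum_add_distrib, ← mul_sum, ← mul_sum, sum_range_sub S, hS0]
  have h5 : ∑ k ∈ range b, Φ k * Φ (b - k + 1) = ∑ k ∈ range b, Φ k * Φ (b + 1 - k) := by
    apply sum_congr rfl
    intro k hk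
    rw [mem_range] at hk
    rw [show b - k + 1 = b + 1 - k by omega]
  rw [h5]
  linear_combination -h3 + Φ b * h4

include h0 hS0 h1 h2 in
/-- the recursion of the descendant series of `4213` -/
lemma HC_rec (X0 : ℤ⟦X⟧) (hX0 : F = 1 + X * X0) (s : Bool × ℕ × List ℕ × ℕ) (hs : GoodC s) :
    HC F Φ S X0 s = 1 + X * ∑ z ∈ range (s.2.1 + s.2.2.2 + 1), HC F Φ S X0 (chC s z) := by
  obtain ⟨a, p, l, e⟩ := s
  obtain ⟨g1, g2, g3, g4, g5⟩ := hs
  simp only at g1 g2 g3 g4 g5
  simp only
  set M : ℕ → ℤ⟦X⟧ := fun a => S (a + 1) - S a - Φ a * S 1 with hM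
  have hpl : (p :: l).Pairwise (· ≥ ·) := by
    rw [List.pairwise_cons]
    exact ⟨fun q hq => by have := g3 q hq; omega, g2⟩
  have hpl' : ((p - 1) :: l).Pairwise (· ≥ ·) := by
    rw [List.pairwise_cons]
    exact ⟨fun q hq => by have := g3 q hq; omega, g2⟩
  have hq : l.headD 0 + 1 ≤ p := by
    cases l with
    | nil => simpa using g1
    | cons q l =>
      have := g3 q (by simp)
      simp only [List.headD_cons]
      omega
  have hst := BS_star F Φ S h0 hS0 h1 h2
  have h3 : (1 - X) * F = 1 + X ^ 2 * S 1 := by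
    have := h2 0
    rw [h0, hS0] at this
    linear_combination this
  have hX1 : (1 - X) * X0 = 1 + X * S 1 := by
    have : X * ((1 - X) * X0) = X * (1 + X * S 1) := by
      rw [hX0] at h3
      linear_combination h3
    exact mul_left_cancel₀ X_ne_zero this
  cases a with
  | false =>
    have e1 : ∀ z ∈ range p, HC F Φ S X0 (chC (false, p, l, e) z) =
        HC F Φ S X0 (false, z + 1, l.filter (fun y => y ≤ z), nx p l z - z + 0) := by
      intro z hz
      rw [mem_range] at hz
      unfold chC
      rw [if_pos hz, if_neg (by simp), add_zero]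
    have e3 : ∀ k ∈ range e, HC F Φ S X0 (chC (false, p, l, e) (p + k)) =
        Wt Φ ((p - 1) :: l) * (F * (Φ k * Φ (e - k)) + X * (S (k + 1) - S k)) := by
      intro k hk
      rw [mem_range] at hk
      have : chC (false, p, l, e) (p + k) = (false, p + k, (p - 1) :: l, e - k) := by
        unfold chC
        simp only
        rw [if_neg (by omega)]
        have : decide (p + k = p + e) = false := by
          rw [decide_eq_false_iff_not]
          omega
        rw [this]
        congr 3
        omega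
      rw [this]
      simp only [HC, List.headD_cons]
      rw [if_neg (by simp), show p + k - (p - 1) - 1 = k by omega,
        show p + k - (p - 1) = k + 1 by omega]
      ring
    have e4 : chC (false, p, l, e) (p + e) = (true, p + e, (p - 1) :: l, 0) := by
      unfold chC
      simp only
      rw [if_neg (by omega)]
      simp
    rw [sum_range_succ, sum_range_add, sum_congr rfl e1, popsC F Φ S X0 0 l p hpl,
      sum_congr rfl e3, ← mul_sum, popT0 F Φ S h0 hS0 h1, e4]
    have e5 : BS Φ (fun b => ∑ k ∈ range b, (F * (Φ k * Φ (b - k + 0)) +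
        X * (S (k + 1) - S k))) (p :: l) = BS Φ S (p :: l) := by
      apply BS_congr
      intro b
      exact popT0 F Φ S h0 hS0 h1 b
    rw [e5]
    have e6 : HC F Φ S X0 (true, p + e, (p - 1) :: l, 0) =
        X0 * Wt Φ ((p + e - 1) :: (p - 1) :: l) + X * BS Φ M ((p + e - 1) :: (p - 1) :: l) := by
      simp [HC, hM]
    have e7 : HC F Φ S X0 (false, p, l, e) = Wt Φ l * (F * Φ (p - l.headD 0 - 1) * Φ e +
        X * (S (p - l.headD 0) - S (p - l.headD 0 - 1))) := by
      simp [HC]
    rw [e6, e7]
    have h5 := hst ((p + e - 1) :: (p - 1) :: l)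
    have h6 : Wt Φ ((p + e - 1) :: (p - 1) :: l) = Φ e * Wt Φ ((p - 1) :: l) := by
      rw [Wt, List.headD_cons, show p + e - 1 - (p - 1) = e by omega]
    have h7 : BS Φ S ((p + e - 1) :: (p - 1) :: l) =
        Wt Φ ((p - 1) :: l) * S e + BS Φ S ((p - 1) :: l) := by
      rw [BS, List.headD_cons, show p + e - 1 - (p - 1) = e by omega]
    have h8 : BS Φ S (p :: l) = Wt Φ l * S (p - l.headD 0) + BS Φ S l := rfl
    have h9 : BS Φ S ((p - 1) :: l) = Wt Φ l * S (p - l.headD 0 - 1) + BS Φ S l := by
      rw [BS, show p - 1 - l.headD 0 = p - l.headD 0 - 1 by omega]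
    have h10 : Wt Φ ((p - 1) :: l) = Φ (p - l.headD 0 - 1) * Wt Φ l := by
      rw [Wt, show p - 1 - l.headD 0 = p - l.headD 0 - 1 by omega]
    rw [h7, h6] at h5
    rw [h6, h8]
    rw [h9] at h5
    rw [h10] at h5 ⊢
    linear_combination -h5 + (Φ e * Φ (p - l.headD 0 - 1) * Wt Φ l) * hX0
  | true =>
    have g6 := g4 rfl
    have e1 : ∀ z ∈ range (p - 1), HC F Φ S X0 (chC (true, p, l, e) z) =
        HC F Φ S X0 (false, z + 1, l.filter (fun y => y ≤ z), nx (p - 1) l z - z + 1) := by
      intro z hz
      rw [mem_range] at hz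
      unfold chC
      simp only
      rw [if_pos (by omega), if_pos ⟨trivial, by omega⟩]
    have e2 : chC (true, p, l, e) (p - 1) = (true, p, l, 1) := by
      unfold chC
      simp only
      rw [if_pos (by omega), if_neg (by omega)]
      have e3 : l.filter (fun y => y ≤ p - 1) = l := by
        rw [List.filter_eq_self]
        intro y hy
        have := g3 y hy
        simp only [decide_eq_true_eq]
        omega
      obtain ⟨hk1, hk2, hk3, hk4⟩ := nx_spec l p (p - 1) hpl (by omega)
      rw [e3, show p - 1 + 1 = p by omega]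
      congr 3
      omega
    have e5 : BS Φ (fun b => ∑ k ∈ range b, (F * (Φ k * Φ (b - k + 1)) +
        X * (S (k + 1) - S k))) ((p - 1) :: l) =
        (1 - X) * BS Φ M ((p - 1) :: l) + BS Φ S ((p - 1) :: l) := by
      rw [← BS_lin]
      apply BS_congr
      intro b
      exact popT1 F Φ S h0 hS0 h1 b
    have e6 : HC F Φ S X0 (true, p, l, 1) =
        S 1 * Wt Φ ((p - 1) :: l) + X * BS Φ M ((p - 1) :: l) := by
      simp [HC, hM]
    have h5 := hst ((p - 1) :: l)
    set W := Wt Φ ((p - 1) :: l) with hW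
    set Mm := BS Φ M ((p - 1) :: l) with hMm
    set Ss := BS Φ S ((p - 1) :: l) with hSs
    have h11 : (1 - X) * S 1 = F * Φ 1 := by
      have := h1 1
      rw [sum_range_one, h0, Nat.sub_zero, one_mul] at this
      exact this
    rcases Nat.le_one_iff_eq_zero_or_eq_one.1 g6 with he | he
    · -- `e = 0`
      subst he
      have e7 : HC F Φ S X0 (true, p, l, 0) = X0 * W + X * Mm := by
        simp [HC, hM, hW, hMm]
      have e8 : chC (true, p, l, 0) p = (true, p, (p - 1) :: l, 0) := by
        unfold chC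
        simp
      have e9 : HC F Φ S X0 (true, p, (p - 1) :: l, 0) = X0 * W + X * Mm := by
        have h12 : Wt Φ ((p - 1) :: (p - 1) :: l) = W := by
          rw [Wt, List.headD_cons, Nat.sub_self, h0, one_mul]
        have h13 : BS Φ M ((p - 1) :: (p - 1) :: l) = Mm := by
          rw [BS, List.headD_cons, Nat.sub_self, hM]
          simp only [zero_add]
          rw [hS0, h0]
          ring
        have : HC F Φ S X0 (true, p, (p - 1) :: l, 0) =
          X0 * Wt Φ ((p - 1) :: (p - 1) :: l) + X * BS Φ M ((p - 1) :: (p - 1) :: l) := by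
          simp [HC, hM]
        rw [this, h12, h13]
      have hr : p + 0 + 1 = (p - 1) + 1 + 1 := by omega
      rw [hr, sum_range_succ, sum_range_succ, sum_congr rfl e1,
        popsC F Φ S X0 1 l (p - 1) hpl', e5, e2, e6, show p - 1 + 1 = p by omega, e8, e9, e7]
      linear_combination -h5 + W * hX1
    · -- `e = 1`
      subst he
      have e7 : HC F Φ S X0 (true, p, l, 1) = S 1 * W + X * Mm := e6
      have e8 : chC (true, p, l, 1) p = (false, p, (p - 1) :: l, 1) := by
        unfold chC
        simp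
      have e9 : HC F Φ S X0 (false, p, (p - 1) :: l, 1) = W * S 1 := by
        have : HC F Φ S X0 (false, p, (p - 1) :: l, 1) = W * (F * Φ (p - (p - 1) - 1) * Φ 1 +
            X * (S (p - (p - 1)) - S (p - (p - 1) - 1))) := by
          simp [HC, hW]
        rw [this, show p - (p - 1) - 1 = 0 by omega, show p - (p - 1) = 1 by omega, h0, hS0]
        linear_combination -W * h11
      have e10 : chC (true, p, l, 1) (p + 1) = (true, p + 1, (p - 1) :: l, 0) := by
        unfold chC
        simp
      have e11 : HC F Φ S X0 (true, p + 1, (p - 1) :: l, 0) =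
          X0 * (Φ 1 * W) + X * (W * M 1 + Mm) := by
        have h12 : Wt Φ (p :: (p - 1) :: l) = Φ 1 * W := by
          rw [Wt, List.headD_cons, show p - (p - 1) = 1 by omega]
        have h13 : BS Φ M (p :: (p - 1) :: l) = W * M 1 + Mm := by
          rw [BS, List.headD_cons, show p - (p - 1) = 1 by omega]
        have : HC F Φ S X0 (true, p + 1, (p - 1) :: l, 0) =
          X0 * Wt Φ (p :: (p - 1) :: l) + X * BS Φ M (p :: (p - 1) :: l) := by
          simp [HC, hM]
        rw [this, h12, h13]
      have hr : p + 1 + 1 = (p - 1) + 1 + 1 + 1 := by omega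
      rw [hr, sum_range_succ, sum_range_succ, sum_range_succ, sum_congr rfl e1,
        popsC F Φ S X0 1 l (p - 1) hpl', e5, e2, e6, show p - 1 + 1 = p by omega,
        show p - 1 + 2 = p + 1 by omega, e8, e9, e10, e11]
      have h14 := h2 1
      have h15 : M 1 = S 2 - S 1 - Φ 1 * S 1 := rfl
      rw [h15]
      linear_combination -h5 + W * h14 - W * Φ 1 * h3 + W * h11 + (W * Φ 1) * hX0

include h0 hS0 h1 h2 in
lemma TC_iter (X0 : ℤ⟦X⟧) (hX0 : F = 1 + X * X0) (n : ℕ) :
    ∀ s, GoodC s → (TC^[n] fun _ => 1) s = coeff n (HC F Φ S X0 s) := by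
  induction n with
  | zero =>
    intro s hs
    rw [HC_rec F Φ S h0 hS0 h1 h2 X0 hX0 s hs]
    simp
  | succ n ih =>
    intro s hs
    rw [Function.iterate_succ_apply', HC_rec F Φ S h0 hS0 h1 h2 X0 hX0 s hs, map_add, coeff_one,
      if_neg (by omega), zero_add, coeff_succ_X_mul, map_sum]
    unfold TC
    apply sum_congr rfl
    intro z hz
    rw [mem_range] at hz
    exact ih _ (chC_good s hs z (by omega))

end AC

theorem count_all (n : ℕ) : cardV V3214 n = cardV V4132 n ∧ cardV V4213 n = cardV V4132 n := by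
  obtain ⟨F, Φ, S, hF, h0, hS0, h1, h2⟩ := exists_series
  have hB : cardV V4132 n = coeff n (Zs (1 : ℤ)) := by
    rw [card4132, TB_iter, Zs, coeff_mk]
  have h3 : (1 - X) * F = 1 + X ^ 2 * S 1 := by
    have := h2 0
    rw [h0, hS0] at this
    linear_combination this
  constructor
  · rw [card3214, TA_iter F Φ S h0 hS0 h1 h2 n _ ⟨by simp, by simp, by simp, by simp⟩, hB]
    congr 1
    have h4 : HA F Φ S (1, [], 1) = F + X * S 1 := by
      simp [HA, Wt, h0, hS0]
    rw [h4]
    have : X * (F + X * S 1) = X * Zs (1 : ℤ) := by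
      linear_combination -h3 + hF
    exact mul_left_cancel₀ X_ne_zero this
  · rw [card4213, TC_iter F Φ S h0 hS0 h1 h2 (Zs 1) hF n _
      ⟨by simp, by simp, by simp, by simp, by simp⟩, hB]
    congr 1
    simp [HC, Wt, BS, h0, hS0]

end Pool.Agent.H25.Fish
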