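import Pool.Agent.H25.Fish.TB

set_option autoImplicit false

/-! Functional equations of the generating tree of `4132`. -/

namespace Pool.Agent.H25.Fish

open Finset

section CB

/-- the states -/
abbrev StB := Bool × List ℕ × ℕ

/-- transfer operator -/
def TG {B : Type*} [AddCommMonoid B] (f : StB → B) (s : StB) : B :=
  ∑ z ∈ range (szB s + 1), f (chB s z)

/-- sum over the paths of length `n` from the root -/
def E {B : Type*} [AddCommMonoid B] (n : ℕ) (f : StB → B) : B := (TG^[n] f) (true, [], 0)

variable {B : Type*} [CommRing B]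

lemma E_zero (f : StB → B) : E 0 f = f (true, [], 0) := rfl

lemma E_succ (n : ℕ) (f : StB → B) : E (n + 1) f = E n (TG f) := by
  unfold E
  rw [Function.iterate_succ_apply]

lemma TG_add (f g : StB → B) : TG (fun s => f s + g s) = fun s => TG f s + TG g s := by
  funext s
  simp only [TG, sum_add_distrib]

lemma TG_mul (c : B) (f : StB → B) : TG (fun s => c * f s) = fun s => c * TG f s := by
  funext s
  simp only [TG, mul_sum]

lemma E_add (n : ℕ) (f g : StB → B) : E n (fun s => f s + g s) = E n f + E n g := by
  induction n generalizing f g with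
  | zero => rfl
  | succ n ih => rw [E_succ, E_succ, E_succ, TG_add, ih]

lemma E_mul_left (n : ℕ) (c : B) (f : StB → B) : E n (fun s => c * f s) = c * E n f := by
  induction n generalizing f with
  | zero => rfl
  | succ n ih => rw [E_succ, E_succ, TG_mul, ih]

lemma E_mul_right (n : ℕ) (c : B) (f : StB → B) : E n (fun s => f s * c) = E n f * c := by
  rw [mul_comm, ← E_mul_left]
  congr 1
  funext s
  ring

lemma E_sub (n : ℕ) (f g : StB → B) : E n (fun s => f s - g s) = E n f - E n g := by
  have h1 : (fun s => f s - g s) = fun s => f s + (-1 : B) * g s := by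
    funext s
    ring
  rw [h1, E_add, E_mul_left]
  ring

lemma E_congr (n : ℕ) {f g : StB → B} (H : ∀ s, f s = g s) : E n f = E n g := by
  have : f = g := funext H
  rw [this]

/-- a ring hom commutes with everything -/
lemma E_map {B' : Type*} [CommRing B'] (φ : B →+* B') (n : ℕ) (f : StB → B) :
    φ (E n f) = E n (fun s => φ (f s)) := by
  induction n generalizing f with
  | zero => rfl
  | succ n ih =>
    rw [E_succ, E_succ, ih]
    apply E_congr
    intro s
    simp only [TG, map_sum]

/-- restriction to the empty stack -/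
def z0 (f : StB → B) (s : StB) : B := if s.2.1 = [] then f s else 0

lemma z0_pos (f : StB → B) {s : StB} (h : s.2.1 = []) : z0 f s = f s := if_pos h

lemma z0_neg (f : StB → B) {s : StB} (h : s.2.1 ≠ []) : z0 f s = 0 := if_neg h

/-- put a block below everything -/
def sh (b : ℕ) (f : StB → B) (s : StB) : B := f (s.1, s.2.1 ++ [b], s.2.2)

/-- the pops into the lowest block -/
def popf (b : ℕ) (f : StB → B) (s : StB) : B := ∑ t ∈ range b, f (false, [], szB s + b - t)

lemma szB_app (a : Bool) (L : List ℕ) (e b : ℕ) : szB (a, L ++ [b], e) = szB (a, L, e) + b := by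
  simp only [szB, List.sum_append, List.sum_cons, List.sum_nil]
  omega

lemma popL_app_lt (L : List ℕ) (b z : ℕ) (h : z < b) : popL (L ++ [b]) z = [] := by
  induction L with
  | nil =>
    rw [List.nil_append, popL, if_neg (by simp only [List.sum_nil]; omega), popL]
  | cons c L ih =>
    rw [List.cons_append, popL, if_neg, ih]
    simp only [List.sum_append, List.sum_cons, List.sum_nil]
    omega

lemma popL_app_ge (L : List ℕ) (b z : ℕ) : popL (L ++ [b]) (b + z) = popL L z ++ [b] := by
  induction L with
  | nil =>
    have h1 : popL [b] (b + z) = [b] := by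
      rw [popL, if_pos]
      simp only [List.sum_nil]
      omega
    rw [List.nil_append, h1]
    rfl
  | cons c L ih =>
    rw [List.cons_append, popL, popL, ih]
    have : c + (L ++ [b]).sum ≤ b + z ↔ c + L.sum ≤ z := by
      simp only [List.sum_append, List.sum_cons, List.sum_nil]
      omega
    by_cases h : c + L.sum ≤ z
    · rw [if_pos h, if_pos (this.2 h), List.cons_append]
    · rw [if_neg h, if_neg (fun h2 => h (this.1 h2))]

lemma chB_app_lt (a : Bool) (L : List ℕ) (e b z : ℕ) (h : z < b) :
    chB (a, L ++ [b], e) z = (false, [], szB (a, L, e) + b - z) := by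
  unfold chB
  rw [szB_app, if_neg (by omega), if_neg]
  · simp only
    rw [popL_app_lt L b z h]
  · simp only [List.sum_append, List.sum_cons, List.sum_nil]
    rintro ⟨_, h2⟩
    omega

lemma chB_app_ge (a : Bool) (L : List ℕ) (e b z : ℕ) :
    chB (a, L ++ [b], e) (b + z) =
      ((chB (a, L, e) z).1, (chB (a, L, e) z).2.1 ++ [b], (chB (a, L, e) z).2.2) := by
  unfold chB
  rw [szB_app]
  by_cases h1 : z = szB (a, L, e)
  · rw [if_pos (by omega), if_pos h1]
    rfl
  · rw [if_neg (by omega), if_neg h1]
    by_cases h2 : a = true ∧ z = L.sum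
    · rw [if_pos, if_pos h2]
      refine ⟨h2.1, ?_⟩
      simp only [List.sum_append, List.sum_cons, List.sum_nil]
      omega
    · rw [if_neg, if_neg h2]
      · simp only
        rw [popL_app_ge]
        congr 2
        omega
      · simp only [List.sum_append, List.sum_cons, List.sum_nil]
        rintro ⟨h3, h4⟩
        exact h2 ⟨h3, by omega⟩

lemma TG_sh (f : StB → B) (b : ℕ) (s : StB) :
    sh b (TG f) s = TG (sh b f) s + popf b f s := by
  obtain ⟨a, L, e⟩ := s
  unfold sh TG popf
  simp only
  rw [szB_app, show szB (a, L, e) + b + 1 = b + (szB (a, L, e) + 1) by omega, sum_range_add,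
    add_comm]
  congr 1
  · apply sum_congr rfl
    intro z _
    rw [chB_app_ge]
  · apply sum_congr rfl
    intro z hz
    rw [chB_app_lt _ _ _ _ _ (mem_range.1 hz)]

/-- the children at the empty stack -/
lemma TG_nil (f : StB → B) (a : Bool) (e : ℕ) : TG f (a, [], e) =
    f (true, [e], 0) + (if a = true then f (true, [], e + 1) else 0) +
      ∑ i ∈ range e, f (false, [], i + 1) := by
  unfold TG
  have hp : ∀ z, popL [] z = [] := fun z => rfl
  cases a with
  | false =>
    have hN : szB (false, [], e) = e := by simp [szB]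
    rw [hN, sum_range_succ, add_comm]
    have h1 : chB (false, [], e) e = (true, [e], 0) := by
      unfold chB
      rw [if_pos hN.symm]
    rw [h1, if_neg (by simp), add_zero]
    congr 1
    rw [← sum_range_reflect]
    apply sum_congr rfl
    intro z hz
    rw [mem_range] at hz
    unfold chB
    rw [hN, if_neg (by omega), if_neg (by simp), hp]
    congr 3
    omega
  | true =>
    have hN : szB (true, [], e) = e + 1 := by simp [szB]
    rw [hN, sum_range_succ, sum_range_succ']
    have h1 : chB (true, [], e) (e + 1) = (true, [e], 0) := by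
      unfold chB
      rw [if_pos hN.symm]
    have h2 : chB (true, [], e) 0 = (true, [], e + 1) := by
      unfold chB
      rw [hN, if_neg (by omega), if_pos ⟨rfl, rfl⟩]
    rw [h1, h2, if_pos rfl]
    have h3 : ∑ k ∈ range e, f (chB (true, [], e) (k + 1)) =
        ∑ i ∈ range e, f (false, [], i + 1) := by
      rw [← sum_range_reflect]
      apply sum_congr rfl
      intro z hz
      rw [mem_range] at hz
      unfold chB
      rw [hN, if_neg (by omega), if_neg (by simp), hp]
      congr 3
      omega
    rw [h3]
    ring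

/-- the first decomposition of paths -/
lemma E_decomp (n : ℕ) : ∀ f : StB → B, E (n + 1) f = E (n + 1) (z0 f) +
    ∑ p ∈ antidiagonal n, E p.1 (z0 fun s => E p.2 (sh s.2.2 f)) := by
  have e0 : ∀ f : StB → B, z0 (TG f) = fun s => z0 (TG (z0 f)) s +
      z0 (fun s => E 0 (sh s.2.2 f)) s := by
    intro f
    funext s
    obtain ⟨a, L, e⟩ := s
    unfold z0
    simp only
    by_cases h : L = []
    · subst h
      rw [if_pos rfl, if_pos rfl, if_pos rfl, TG_nil, TG_nil, E_zero, sh]
      simp
      ring
    · rw [if_neg h, if_neg h, if_neg h, add_zero]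
  have e00 : ∀ (b : ℕ) (f : StB → B), sh b (z0 f) = fun _ => 0 := by
    intro b f
    funext s
    unfold sh z0
    simp
  have eT0 : TG (fun _ => (0 : B)) = fun _ => 0 := by
    funext s
    simp [TG]
  have ep : ∀ (b : ℕ) (f : StB → B), popf b (z0 f) = popf b f := by
    intro b f
    funext s
    unfold popf z0
    simp
  have e1 : ∀ (b : ℕ) (f : StB → B), sh b (TG f) = fun s => TG (sh b f) s + popf b f s := by
    intro b f
    funext s
    exact TG_sh f b s
  have e2 : ∀ (b : ℕ) (f : StB → B), sh b (TG (z0 f)) = popf b f := by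
    intro b f
    rw [e1, ep, e00, eT0]
    funext s
    simp
  induction n with
  | zero =>
    intro f
    rw [E_succ, E_succ, E_zero, E_zero]
    have h1 : antidiagonal 0 = {((0 : ℕ), (0 : ℕ))} := rfl
    rw [h1, sum_singleton, E_zero]
    have := congrFun (e0 f) (true, [], 0)
    rw [z0_pos _ rfl, z0_pos _ rfl] at this
    exact this
  | succ n ih =>
    intro f
    rw [E_succ, ih (TG f), E_succ (n + 1) (z0 f), ih (TG (z0 f)), e0 f,
      E_add (n + 1), Finset.Nat.sum_antidiagonal_succ']
    have e3 : ∀ p ∈ antidiagonal n, E p.1 (z0 fun s => E p.2 (sh s.2.2 (TG f))) =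
        E p.1 (z0 fun s => E (p.2 + 1) (sh s.2.2 f)) +
        E p.1 (z0 fun s => E p.2 (sh s.2.2 (TG (z0 f)))) := by
      intro p _
      rw [← E_add]
      apply E_congr
      intro s
      by_cases h : s.2.1 = []
      · rw [z0_pos _ h, z0_pos _ h, z0_pos _ h]
        change E p.2 (sh s.2.2 (TG f)) = E (p.2 + 1) (sh s.2.2 f) + E p.2 (sh s.2.2 (TG (z0 f)))
        rw [e1, E_add, e2, E_succ]
      · rw [z0_neg _ h, z0_neg _ h, z0_neg _ h, add_zero]
    rw [sum_congr rfl e3, sum_add_distrib]
    simp only
    ring

/-- weight of the paths staying at the base level -/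
def Pn (n : ℕ) (v : B) : B := E n (z0 fun s => v ^ s.2.2)

/-- the part of the first kind -/
def PIn (n : ℕ) (v : B) : B := E n (z0 fun s => if s.1 = true then v ^ s.2.2 else 0)

/-- the part of the second kind -/
def PJn (n : ℕ) (v : B) : B := E n (z0 fun s => if s.1 = true then 0 else v ^ s.2.2)

/-- weight of all the paths -/
def Zn (n : ℕ) (v : B) : B := E n (fun s => v ^ szB s)

lemma Pn_eq (n : ℕ) (v : B) : Pn n v = PIn n v + PJn n v := by
  unfold Pn PIn PJn
  rw [← E_add]
  apply E_congr
  intro s
  obtain ⟨a, L, e⟩ := s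
  unfold z0
  cases a <;> by_cases h : L = [] <;> simp [h]

lemma PIn_zero (v : B) : PIn 0 v = 1 := by
  simp [PIn, E_zero, z0]

lemma PJn_zero (v : B) : PJn 0 v = 0 := by
  simp [PJn, E_zero, z0]

lemma Zn_zero (v : B) : Zn 0 v = v := by
  simp [Zn, E_zero, szB]

lemma Zn_succ (n : ℕ) (v : B) : Zn (n + 1) v = v * PIn (n + 1) v + PJn (n + 1) v +
    ∑ p ∈ antidiagonal n, Pn p.1 v * Zn p.2 v := by
  have h1 : Zn (n + 1) v = E (n + 1) (fun s => v ^ szB s) := rfl
  rw [h1, E_decomp]
  congr 1
  · unfold PIn PJn
    rw [← E_mul_left, ← E_add]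
    apply E_congr
    rintro ⟨a, L, e⟩
    unfold z0
    simp only
    by_cases h : L = []
    · subst h
      cases a with
      | false => simp [szB]
      | true => simp [szB, pow_succ']
    · simp [h]
  · apply sum_congr rfl
    intro p _
    unfold Pn
    rw [← E_mul_right]
    apply E_congr
    intro s
    unfold z0
    by_cases h : s.2.1 = []
    · rw [if_pos h, if_pos h]
      unfold Zn
      rw [← E_mul_left]
      apply E_congr
      rintro ⟨a, L, e⟩
      simp only [sh]
      rw [szB_app, pow_add]
      ring
    · rw [if_neg h, if_neg h, zero_mul]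

/-- the general step for functions living on the empty stack -/
lemma E_base (n : ℕ) (f : StB → B) (hf : ∀ s : StB, s.2.1 ≠ [] → f s = 0) :
    E (n + 2) f = E (n + 1) (z0 (TG f)) +
      ∑ p ∈ antidiagonal n, E p.1 (z0 fun s => E p.2 (popf s.2.2 f)) := by
  rw [E_succ, E_decomp]
  congr 1
  apply sum_congr rfl
  intro p _
  apply E_congr
  intro s
  unfold z0
  by_cases h : s.2.1 = []
  · rw [if_pos h, if_pos h]
    apply E_congr
    intro t
    rw [TG_sh]
    have h1 : sh s.2.2 f = fun _ => 0 := by
      funext t
      apply hf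
      simp
    rw [h1]
    simp [TG]
  · rw [if_neg h, if_neg h]

lemma PIn_succ (n : ℕ) (v : B) : PIn (n + 1) v = v * PIn n v := by
  cases n with
  | zero =>
    rw [PIn_zero]
    unfold PIn
    rw [E_succ, E_zero, TG_nil]
    simp [z0]
  | succ n =>
    have h1 : PIn (n + 1 + 1) v =
      E (n + 2) (z0 fun s : StB => if s.1 = true then v ^ s.2.2 else 0) := rfl
    rw [h1, E_base]
    · unfold PIn
      rw [← E_mul_left]
      have h2 : ∀ p ∈ antidiagonal n, E p.1 (z0 fun s => E p.2 (popf s.2.2
          (z0 fun s : StB => if s.1 = true then v ^ s.2.2 else (0 : B)))) = 0 := by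
        intro p _
        have h3 : (z0 fun s => E p.2 (popf s.2.2
          (z0 fun s : StB => if s.1 = true then v ^ s.2.2 else (0 : B)))) = fun _ => 0 * 0 := by
          funext s
          by_cases h : s.2.1 = []
          · have h4 : popf s.2.2 (z0 fun s : StB => if s.1 = true then v ^ s.2.2 else (0 : B)) =
                fun _ => 0 * 0 := by
              funext t
              simp [popf, z0]
            rw [z0_pos _ h, h4, E_mul_left, zero_mul, zero_mul]
          · rw [z0_neg _ h, zero_mul]
        rw [h3, E_mul_left, zero_mul]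
      rw [sum_eq_zero h2, add_zero]
      apply E_congr
      rintro ⟨a, L, e⟩
      unfold z0
      simp only
      by_cases h : L = []
      · subst h
        rw [if_pos rfl, if_pos rfl, TG_nil]
        cases a with
        | false => simp
        | true => simp [pow_succ']
      · simp [h]
    · intro s hs
      unfold z0
      rw [if_neg hs]

lemma PIn_val (n : ℕ) (v : B) : PIn n v = v ^ n := by
  induction n with
  | zero => rw [PIn_zero, pow_zero]
  | succ n ih => rw [PIn_succ, ih, pow_succ']

lemma geom_r (v : B) (h : ℕ) : (v - 1) * ∑ y ∈ range h, v ^ (y + 1) = v * (v ^ h - 1) := by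
  induction h with
  | zero => simp
  | succ h ih =>
    rw [sum_range_succ, mul_add, ih]
    ring

lemma PJn_one (v : B) : PJn 1 v = 0 := by
  unfold PJn
  rw [E_succ, E_zero, TG_nil]
  simp [z0]

lemma PJn_succ (n : ℕ) (v : B) : (v - 1) * PJn (n + 2) v = v * (Pn (n + 1) v - Pn (n + 1) 1) +
    ∑ p ∈ antidiagonal n, v * (Pn p.1 v - Pn p.1 1) * Zn p.2 v := by
  have h1 : PJn (n + 2) v =
    E (n + 2) (z0 fun s : StB => if s.1 = true then 0 else v ^ s.2.2) := rfl
  rw [h1, E_base]
  · rw [mul_add, mul_sum]
    congr 1
    · unfold Pn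
      rw [← E_mul_left, ← E_sub, ← E_mul_left]
      apply E_congr
      rintro ⟨a, L, e⟩
      unfold z0
      simp only
      by_cases h : L = []
      · subst h
        rw [if_pos rfl, if_pos rfl, if_pos rfl, TG_nil, one_pow, ← geom_r]
        simp
      · simp [h]
    · apply sum_congr rfl
      intro p _
      unfold Pn
      rw [← E_sub, ← E_mul_left, ← E_mul_left, ← E_mul_right]
      apply E_congr
      intro s
      by_cases h : s.2.1 = []
      · rw [z0_pos _ h, z0_pos _ h, z0_pos _ h, one_pow, ← geom_r, mul_assoc]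
        congr 1
        unfold Zn
        rw [← E_mul_left]
        apply E_congr
        intro t
        unfold popf
        rw [sum_mul, ← sum_range_reflect]
        apply sum_congr rfl
        intro z hz
        rw [mem_range] at hz
        rw [z0_pos _ rfl]
        simp only [Bool.false_eq_true, if_false]
        rw [← pow_add]
        congr 1
        omega
      · rw [z0_neg _ h, z0_neg _ h, z0_neg _ h]
        ring
  · intro s hs
    unfold z0
    rw [if_neg hs]

open PowerSeries

/-- generating series of the base level -/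
noncomputable def Ps (v : B) : B⟦X⟧ := PowerSeries.mk fun n => Pn n v

/-- generating series of all paths -/
noncomputable def Zs (v : B) : B⟦X⟧ := PowerSeries.mk fun n => Zn n v

/-- generating series of the paths of the first kind -/
noncomputable def PIs (v : B) : B⟦X⟧ := PowerSeries.mk fun n => PIn n v

/-- generating series of the paths of the second kind -/
noncomputable def PJs (v : B) : B⟦X⟧ := PowerSeries.mk fun n => PJn n v

lemma Ps_eq (v : B) : Ps v = PIs v + PJs v := by
  ext n
  simp only [Ps, PIs, PJs, map_add, coeff_mk]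
  exact Pn_eq n v

lemma PIs_eq (v : B) : (1 - X * C v) * PIs v = 1 := by
  ext n
  cases n with
  | zero => simp [PIs, PIn_zero]
  | succ n =>
    rw [sub_mul, one_mul, mul_assoc, map_sub, coeff_succ_X_mul, coeff_C_mul, coeff_one,
      if_neg (by omega)]
    simp only [PIs, coeff_mk]
    rw [PIn_succ]
    ring

lemma Zs_eq (v : B) : Zs v = C v * PIs v + PJs v + X * (Ps v * Zs v) := by
  ext n
  cases n with
  | zero =>
    simp [Zs, PIs, PJs, Zn_zero, PIn_zero, PJn_zero]
  | succ n =>
    rw [map_add, map_add, coeff_succ_X_mul, coeff_C_mul, coeff_mul]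
    simp only [Zs, PIs, PJs, Ps, coeff_mk]
    rw [Zn_succ]

lemma PJs_eq (v : B) : (C v - 1) * PJs v = X * (C v * (Ps v - Ps 1) * (1 + X * Zs v)) := by
  ext n
  have h0 : (C v - 1 : B⟦X⟧) = C (v - 1) := by rw [map_sub, map_one]
  rw [h0, coeff_C_mul]
  cases n with
  | zero => simp [PJs, PJn_zero]
  | succ n =>
    rw [coeff_succ_X_mul, mul_assoc, coeff_C_mul, mul_add, mul_one, map_add]
    cases n with
    | zero =>
      simp [PJs, PJn_one, Ps, Pn_eq, PIn_zero, PJn_zero]
    | succ n =>
      rw [mul_left_comm, coeff_succ_X_mul, coeff_mul]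
      simp only [PJs, coeff_mk]
      rw [PJn_succ, mul_add, mul_sum]
      simp only [Ps, Zs, map_sub, coeff_mk]
      congr 1
      apply sum_congr rfl
      intro p _
      ring

lemma Zs_mul (v : B) : (1 - X * C v) * (1 + X * Zs v) * (1 - X * Ps v) = 1 - X := by
  have h1 := Zs_eq v
  have h2 := Ps_eq v
  have h3 := PIs_eq v
  have h4 : (1 + X * Zs v) * (1 - X * Ps v) = 1 - X * (1 - C v) * PIs v := by
    have : Zs v - X * (Ps v * Zs v) = C v * PIs v + PJs v := by
      linear_combination h1
    linear_combination X * this - X * h2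
  rw [mul_assoc, h4]
  linear_combination (-X * (1 - C v)) * h3

/-- the functional equation -/
lemma Ps_fun (v : B) : (C v - 1) * ((1 - X * C v) * Ps v - 1) * (1 - X * Ps v) =
    X * C v * (Ps v - Ps 1) * (1 - X) := by
  have h1 := Zs_mul v
  have h2 := Ps_eq v
  have h3 := PIs_eq v
  have h4 := PJs_eq v
  have h5 : (1 - X * C v) * Ps v - 1 = (1 - X * C v) * PJs v := by
    linear_combination (1 - X * C v) * h2 + h3
  rw [h5, ← h1]
  linear_combination (1 - X * C v) * (1 - X * Ps v) * h4

lemma Zs_one : (1 + X * Zs (1 : B)) * (1 - X * Ps 1) * (1 - X) = 1 - X := by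
  have h1 := Zs_mul (1 : B)
  rw [map_one, mul_one] at h1
  linear_combination h1

end CB

/-- the numbers of the tree of `4132` -/
lemma TB_iter (n : ℕ) : (TB^[n] fun _ => 1) (true, [], 0) = Zn n (1 : ℤ) := by
  unfold Zn E
  have h : (fun s : StB => (1 : ℤ) ^ szB s) = fun _ => 1 := by
    funext s
    rw [one_pow]
  rw [h]
  rfl

end Pool.Agent.H25.Fish
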