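import Pool.Agent.H25.Fish.Base

set_option autoImplicit false

/-! The generating tree of the Fishburn permutations avoiding `3214`. -/

namespace Pool.Agent.H25.Fish

open Finset Pool.Agent.R121 Pool.Agent.R121.Fish

attribute [local instance 10] Classical.propDecidable

/-- occurrence of `321` all of whose letters are below `u` -/
def P3214 {n : ℕ} (τ : Equiv.Perm (Fin n)) (u : ℕ) : Prop :=
  ∃ i j k : Fin n, i < j ∧ j < k ∧ (τ k : ℕ) < τ j ∧ (τ j : ℕ) < τ i ∧ (τ i : ℕ) < u

/-- avoidance of `3214` -/
def Av3214 {n : ℕ} (τ : Equiv.Perm (Fin n)) : Prop :=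
  ∀ i j k l : Fin n, i < j → j < k → k < l →
    ¬ ((τ k : ℕ) < τ j ∧ (τ j : ℕ) < τ i ∧ (τ i : ℕ) < τ l)

/-- valid permutations -/
def V3214 (n : ℕ) (τ : Equiv.Perm (Fin n)) : Prop := Fsh τ ∧ Av3214 τ

/-- forbidden sites -/
def B3214 (n : ℕ) (τ : Equiv.Perm (Fin n)) (u : ℕ) : Prop := FB τ u ∨ P3214 τ u

/-- a new value at the site `y` makes the site `u` forbidden -/
def DA {n : ℕ} (τ : Equiv.Perm (Fin n)) (y u : ℕ) : Prop :=
  ∃ i j : Fin n, i < j ∧ (τ j : ℕ) < τ i ∧ y ≤ τ j ∧ (τ i : ℕ) < u

lemma DA_self {n : ℕ} (τ : Equiv.Perm (Fin n)) {y u : ℕ} (h : u ≤ y) : ¬ DA τ y u := by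
  rintro ⟨i, j, h1, h2, h3, h4⟩
  omega

lemma av3214_snocP {n : ℕ} (v : Fin (n + 1)) (τ : Equiv.Perm (Fin n)) :
    Av3214 (snocP v τ) ↔ Av3214 τ ∧ ¬ P3214 τ v := by
  constructor
  · intro H
    constructor
    · intro i j k l h1 h2 h3 ⟨h4, h5, h6⟩
      apply H i.castSucc j.castSucc k.castSucc l.castSucc (by simpa using h1) (by simpa using h2)
        (by simpa using h3)
      rw [sv_cast, sv_cast, sv_cast, sv_cast]
      split_ifs <;> omega
    · rintro ⟨i, j, k, h1, h2, h3, h4, h5⟩
      apply H i.castSucc j.castSucc k.castSucc (Fin.last n) (by simpa using h1) (by simpa using h2)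
        (Fin.castSucc_lt_last k)
      rw [sv_cast, sv_cast, sv_cast, sv_last]
      split_ifs <;> omega
  · rintro ⟨H, hb⟩ i j k l h1 h2 h3 ⟨h4, h5, h6⟩
    induction k using Fin.lastCases with
    | last => exact absurd (lt_of_lt_of_le h3 (Fin.le_last _)) (lt_irrefl _)
    | cast k =>
      induction j using Fin.lastCases with
      | last => exact absurd (lt_of_lt_of_le h2 (Fin.le_last _)) (lt_irrefl _)
      | cast j =>
        induction i using Fin.lastCases with
        | last => exact absurd (lt_of_lt_of_le h1 (Fin.le_last _)) (lt_irrefl _)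
        | cast i =>
          simp only [Fin.castSucc_lt_castSucc_iff] at h1 h2
          induction l using Fin.lastCases with
          | last =>
            rw [sv_cast, sv_last] at h6
            rw [sv_cast, sv_cast] at h4 h5
            exact hb ⟨i, j, k, h1, h2, by split_ifs at h4 <;> omega, by split_ifs at h5 <;> omega,
              by split_ifs at h6 <;> omega⟩
          | cast l =>
            simp only [Fin.castSucc_lt_castSucc_iff] at h3
            rw [sv_cast, sv_cast] at h4 h5 h6
            exact H i j k l h1 h2 h3 ⟨by split_ifs at h4 <;> omega, by split_ifs at h5 <;> omega,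
              by split_ifs at h6 <;> omega⟩

lemma v3214_snocP (n : ℕ) (v : Fin (n + 1)) (τ : Equiv.Perm (Fin n)) :
    V3214 (n + 1) (snocP v τ) ↔ V3214 n τ ∧ ¬ B3214 n τ v := by
  unfold V3214 B3214
  rw [fsh_snocP, av3214_snocP]
  tauto

lemma p3214_snocP {n : ℕ} (v : Fin (n + 1)) (τ : Equiv.Perm (Fin n)) (u : ℕ) :
    P3214 (snocP v τ) u ↔
      (u ≤ v ∧ P3214 τ u) ∨ (v < u ∧ (P3214 τ (u - 1) ∨ DA τ v (u - 1))) := by
  constructor
  · rintro ⟨i, j, k, h1, h2, h3, h4, h5⟩
    induction j using Fin.lastCases with
    | last => exact absurd (lt_of_lt_of_le h2 (Fin.le_last _)) (lt_irrefl _)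
    | cast j =>
      induction i using Fin.lastCases with
      | last => exact absurd (lt_of_lt_of_le h1 (Fin.le_last _)) (lt_irrefl _)
      | cast i =>
        simp only [Fin.castSucc_lt_castSucc_iff] at h1
        induction k using Fin.lastCases with
        | last =>
          rw [sv_cast, sv_last] at h3
          rw [sv_cast, sv_cast] at h4
          rw [sv_cast] at h5
          right
          refine ⟨by split_ifs at h3 <;> split_ifs at h4 <;> split_ifs at h5 <;> omega,
            Or.inr ⟨i, j, h1, ?_, ?_, ?_⟩⟩
          · split_ifs at h4 <;> omega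
          · split_ifs at h3 <;> omega
          · split_ifs at h3 <;> split_ifs at h4 <;> split_ifs at h5 <;> omega
        | cast k =>
          simp only [Fin.castSucc_lt_castSucc_iff] at h2
          rw [sv_cast, sv_cast] at h3 h4
          rw [sv_cast] at h5
          by_cases h6 : u ≤ v
          · exact Or.inl ⟨h6, ⟨i, j, k, h1, h2, by split_ifs at h3 <;> omega,
              by split_ifs at h4 <;> omega, by split_ifs at h5 <;> omega⟩⟩
          · exact Or.inr ⟨by omega, Or.inl ⟨i, j, k, h1, h2, by split_ifs at h3 <;> omega,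
              by split_ifs at h4 <;> omega, by split_ifs at h5 <;> omega⟩⟩
  · rintro (⟨h0, ⟨i, j, k, h1, h2, h3, h4, h5⟩⟩ | ⟨h0, ⟨i, j, k, h1, h2, h3, h4, h5⟩ |
      ⟨i, j, h1, h2, h3, h4⟩⟩)
    · refine ⟨i.castSucc, j.castSucc, k.castSucc, by simpa using h1, by simpa using h2, ?_, ?_, ?_⟩
      · rw [sv_cast, sv_cast]
        split_ifs <;> omega
      · rw [sv_cast, sv_cast]
        split_ifs <;> omega
      · rw [sv_cast]
        split_ifs <;> omega
    · refine ⟨i.castSucc, j.castSucc, k.castSucc, by simpa using h1, by simpa using h2, ?_, ?_, ?_⟩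
      · rw [sv_cast, sv_cast]
        split_ifs <;> omega
      · rw [sv_cast, sv_cast]
        split_ifs <;> omega
      · rw [sv_cast]
        split_ifs <;> omega
    · refine ⟨i.castSucc, j.castSucc, Fin.last _, by simpa using h1,
        Fin.castSucc_lt_last j, ?_, ?_, ?_⟩
      · rw [sv_cast, sv_last]
        split_ifs <;> omega
      · rw [sv_cast, sv_cast]
        split_ifs <;> omega
      · rw [sv_cast]
        split_ifs <;> omega

lemma da_snocP {n : ℕ} (v : Fin (n + 1)) (τ : Equiv.Perm (Fin n)) (y u : ℕ) (hu : u ≤ n + 1) :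
    DA (snocP v τ) y u ↔ (u ≤ v ∧ DA τ y u) ∨ (v < u ∧ y ≤ v ∧ (DA τ y (u - 1) ∨ v + 1 < u)) ∨
      (v < u ∧ v < y ∧ DA τ (y - 1) (u - 1)) := by
  constructor
  · rintro ⟨i, j, h1, h2, h3, h4⟩
    induction i using Fin.lastCases with
    | last => exact absurd (lt_of_lt_of_le h1 (Fin.le_last _)) (lt_irrefl _)
    | cast i =>
      induction j using Fin.lastCases with
      | last =>
        rw [sv_last] at h2 h3
        rw [sv_cast] at h2 h4
        right; left
        refine ⟨by split_ifs at h2 h4 <;> omega, h3, Or.inr (by split_ifs at h2 h4 <;> omega)⟩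
      | cast j =>
        simp only [Fin.castSucc_lt_castSucc_iff] at h1
        rw [sv_cast] at h2 h3 h4
        rw [sv_cast] at h2
        by_cases h5 : u ≤ v
        · exact Or.inl ⟨h5, i, j, h1, by split_ifs at h2 <;> omega,
            by split_ifs at h2 <;> split_ifs at h3 <;> split_ifs at h4 <;> omega,
            by split_ifs at h4 <;> omega⟩
        · by_cases h6 : y ≤ v
          · exact Or.inr (Or.inl ⟨by omega, h6, Or.inl ⟨i, j, h1, by split_ifs at h2 <;> omega,
              by split_ifs at h3 <;> omega, by split_ifs at h4 <;> omega⟩⟩)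
          · exact Or.inr (Or.inr ⟨by omega, by omega, ⟨i, j, h1, by split_ifs at h2 <;> omega,
              by split_ifs at h3 <;> omega, by split_ifs at h4 <;> omega⟩⟩)
  · rintro (⟨h0, ⟨i, j, h1, h2, h3, h4⟩⟩ | ⟨h0, h01, ⟨i, j, h1, h2, h3, h4⟩ | h02⟩ |
      ⟨h0, h01, ⟨i, j, h1, h2, h3, h4⟩⟩)
    · refine ⟨i.castSucc, j.castSucc, by simpa using h1, ?_, ?_, ?_⟩
      · rw [sv_cast, sv_cast]
        split_ifs <;> omega
      · rw [sv_cast]
        split_ifs <;> omega
      · rw [sv_cast]
        split_ifs <;> omega
    · refine ⟨i.castSucc, j.castSucc, by simpa using h1, ?_, ?_, ?_⟩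
      · rw [sv_cast, sv_cast]
        split_ifs <;> omega
      · rw [sv_cast]
        split_ifs <;> omega
      · rw [sv_cast]
        split_ifs <;> omega
    · let i : Fin n := τ.symm ⟨v, by omega⟩
      have hi : (τ i : ℕ) = v := by simp [i]
      refine ⟨i.castSucc, Fin.last n, Fin.castSucc_lt_last i, ?_, ?_, ?_⟩
      · rw [sv_last, sv_cast]
        split_ifs <;> omega
      · rw [sv_last]
        exact h01
      · rw [sv_cast]
        split_ifs <;> omega
    · refine ⟨i.castSucc, j.castSucc, by simpa using h1, ?_, ?_, ?_⟩
      · rw [sv_cast, sv_cast]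
        split_ifs <;> omega
      · rw [sv_cast]
        split_ifs <;> omega
      · rw [sv_cast]
        split_ifs <;> omega

lemma mem_actA {m : ℕ} (v : Fin (m + 2)) (τ : Equiv.Perm (Fin (m + 1)))
    (hv : (v : ℕ) ∈ act B3214 m τ) (w : ℕ) : w ∈ act B3214 (m + 1) (snocP v τ) ↔
      (w < v ∧ w ∈ act B3214 m τ ∧ w ≠ τ (Fin.last m)) ∨ w = v ∨
      (v < w ∧ w - 1 ∈ act B3214 m τ ∧ ¬ DA τ v (w - 1)) := by
  have hv2 := v.2
  have hv1 : ¬ FB τ v ∧ ¬ P3214 τ v := by
    rw [mem_act, B3214] at hv
    tauto
  simp only [mem_act, B3214, fb_snocP, p3214_snocP]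
  rcases lt_trichotomy w v with h | h | h
  · have h1 : w < m + 1 + 2 := by omega
    have h2 : w < m + 2 := by omega
    have h3 : ¬ (v : ℕ) < w := by omega
    have h4 : w ≤ (v : ℕ) := by omega
    have h5 : w ≠ v := by omega
    simp only [h, h1, h2, h3, h4, h5, true_and, false_and, or_false, not_or]
    tauto
  · subst h
    have h1 : (v : ℕ) < m + 1 + 2 := by omega
    have h3 : ¬ (v : ℕ) < v := by omega
    simp only [h1, h3, le_refl, true_and, false_and, or_false, false_or]
    tauto
  · have h1 : w < m + 1 + 2 ↔ w - 1 < m + 2 := by omega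
    have h3 : ¬ w < (v : ℕ) := by omega
    have h4 : ¬ w ≤ (v : ℕ) := by omega
    have h5 : w ≠ v := by omega
    simp only [h, h1, h3, h4, h5, true_and, false_and, false_or, not_or]
    tauto

/-- the child of a state -/
def chA (s : ℕ × List ℕ × ℕ) (z : ℕ) : ℕ × List ℕ × ℕ :=
  if z < s.1 then (z + 1, s.2.1.filter fun y => y < z, nx s.1 s.2.1 z - z + 1)
  else (z, ((s.1 - 1) :: s.2.1).filter fun y => y + 1 < z, s.1 + s.2.2 - z)

/-- good states -/
def GoodA (s : ℕ × List ℕ × ℕ) : Prop :=
  1 ≤ s.1 ∧ s.2.1.Pairwise (· > ·) ∧ (∀ q ∈ s.2.1, q + 1 < s.1) ∧ 1 ≤ s.2.2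

lemma chA_good (s : ℕ × List ℕ × ℕ) (hs : GoodA s) (z : ℕ) (hz : z < s.1 + s.2.2) :
    GoodA (chA s z) := by
  obtain ⟨p, rest, e⟩ := s
  obtain ⟨h1, h2, h3, h4⟩ := hs
  simp only at h1 h2 h3 h4 hz
  unfold chA
  by_cases h : z < p
  · simp only [if_pos h]
    refine ⟨by simp, h2.filter _, ?_, by simp⟩
    intro q hq
    simp only [List.mem_filter, decide_eq_true_eq] at hq
    simp only
    omega
  · simp only [if_neg h]
    refine ⟨by simp only; omega, List.Pairwise.filter _ ?_, ?_, by simp only; omega⟩
    · rw [List.pairwise_cons]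
      refine ⟨?_, h2⟩
      intro q hq
      have := h3 q hq
      omega
    · intro q hq
      simp only [List.mem_filter, decide_eq_true_eq] at hq
      exact hq.2

/-- the marks describe the relation `DA` on the sites -/
def RepA (m : ℕ) (τ : Equiv.Perm (Fin (m + 1))) (st : ℕ × List ℕ × ℕ) : Prop :=
  GoodA st ∧ ∃ s : ℕ → ℕ, StrictMono s ∧
  (∀ w, w ∈ act B3214 m τ ↔ ∃ i, i < st.1 + st.2.2 ∧ s i = w) ∧
  s (st.1 - 1) = τ (Fin.last m) ∧
  ∀ i j, i < j → j < st.1 + st.2.2 → (DA τ (s i) (s j) ↔ Bt (st.1 :: st.2.1) i j)

lemma repA_step {m : ℕ} (τ : Equiv.Perm (Fin (m + 1))) (st : ℕ × List ℕ × ℕ)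
    (hg : GoodA st) (s : ℕ → ℕ) (hs : StrictMono s)
    (hA : ∀ w, w ∈ act B3214 m τ ↔ ∃ i, i < st.1 + st.2.2 ∧ s i = w)
    (hl : s (st.1 - 1) = τ (Fin.last m))
    (hD : ∀ i j, i < j → j < st.1 + st.2.2 → (DA τ (s i) (s j) ↔ Bt (st.1 :: st.2.1) i j))
    (v : Fin (m + 2)) (z : ℕ) (hz : z < st.1 + st.2.2) (hzv : s z = v) :
    RepA (m + 1) (snocP v τ) (chA st z) := by
  refine ⟨chA_good st hg z hz, ?_⟩
  have hv : (v : ℕ) ∈ act B3214 m τ := (hA v).2 ⟨z, hz, hzv⟩
  obtain ⟨p, rest, e⟩ := st
  obtain ⟨h1, h2, h3, h4⟩ := hg
  simp only at h1 h2 h3 h4 hz hA hl hD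
  have hlt : ∀ a b, s a < s b ↔ a < b := fun a b => hs.lt_iff_lt
  have hle : ∀ a b, s a ≤ s b ↔ a ≤ b := fun a b => hs.le_iff_le
  have hinj : ∀ a b, s a = s b ↔ a = b := fun a b => hs.injective.eq_iff
  have hub : ∀ i, i < p + e → s i < m + 2 := by
    intro i hi
    have := (hA (s i)).2 ⟨i, hi, rfl⟩
    exact ((mem_act B3214).1 this).1
  by_cases hzp : z < p
  · -- the new value is at most the last one
    have hch : chA (p, rest, e) z = (z + 1, rest.filter fun y => y < z, nx p rest z - z + 1) := by
      unfold chA
      simp only [if_pos hzp]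
    rw [hch]
    simp only
    have hpw : (p :: rest).Pairwise (· ≥ ·) := by
      rw [List.pairwise_cons]
      exact ⟨fun q hq => by have := h3 q hq; omega, h2.imp fun h => le_of_lt h⟩
    obtain ⟨hk1, hk2, hk3, hk4⟩ := nx_spec rest p z hpw hzp
    set k := nx p rest z with hk
    have hN : z + 1 + (k - z + 1) = k + 2 := by omega
    rw [hN]
    obtain ⟨s', e0⟩ : ∃ s' : ℕ → ℕ, ∀ i, s' i = if i ≤ z then s i else s (i - 1) + 1 :=
      ⟨_, fun _ => rfl⟩
    have e1 : ∀ i, i ≤ z → s' i = s i := fun i hi => by rw [e0, if_pos hi]
    have e2 : ∀ i, ¬ i ≤ z → s' i = s (i - 1) + 1 := fun i hi => by rw [e0, if_neg hi]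
    refine ⟨s', ?_, ?_, ?_, ?_⟩
    · apply strictMono_nat_of_lt_succ
      intro i
      by_cases h5 : i + 1 ≤ z
      · rw [e1 _ h5, e1 _ (by omega)]
        exact hs (by omega)
      · by_cases h6 : i ≤ z
        · have : i = z := by omega
          subst this
          rw [e1 _ h6, e2 _ h5, Nat.add_sub_cancel]
          omega
        · rw [e2 _ h5, e2 _ h6, Nat.add_sub_cancel]
          have := hs (show i - 1 < i by omega)
          omega
    · intro w
      rw [mem_actA v τ hv w, ← hzv]
      constructor
      · rintro (⟨h5, h6, h7⟩ | h5 | ⟨h5, h6, h7⟩)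
        · obtain ⟨j, hj, rfl⟩ := (hA w).1 h6
          rw [hlt] at h5
          exact ⟨j, by omega, e1 _ (by omega)⟩
        · exact ⟨z, by omega, by rw [e1 _ le_rfl]; exact h5.symm⟩
        · obtain ⟨j, hj, hjw⟩ := (hA (w - 1)).1 h6
          have hzj : z ≤ j := by
            rw [← hle, hjw]
            omega
          have hjk : j ≤ k := by
            by_contra hjk
            apply h7
            rw [← hjw, hD z j (by omega) hj]
            exact ⟨k, hk3, hk1, by omega⟩
          refine ⟨j + 1, by omega, ?_⟩
          rw [e2 _ (by omega), Nat.add_sub_cancel]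
          omega
      · rintro ⟨i, hi, rfl⟩
        by_cases h5 : i ≤ z
        · rw [e1 _ h5]
          rcases Nat.eq_or_lt_of_le h5 with h6 | h6
          · subst h6
            exact Or.inr (Or.inl rfl)
          · refine Or.inl ⟨(hlt _ _).2 h6, (hA _).2 ⟨i, by omega, rfl⟩, ?_⟩
            rw [← hl, Ne, hinj]
            omega
        · rw [e2 _ h5]
          have h6 : s z ≤ s (i - 1) := (hle _ _).2 (by omega)
          refine Or.inr (Or.inr ⟨by omega, ?_, ?_⟩)
          · rw [Nat.add_sub_cancel]
            exact (hA _).2 ⟨i - 1, by omega, rfl⟩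
          · rw [Nat.add_sub_cancel]
            rcases Nat.eq_or_lt_of_le (show z ≤ i - 1 by omega) with h7 | h7
            · rw [← h7]
              exact DA_self τ le_rfl
            · rw [hD z (i - 1) h7 (by omega)]
              rintro ⟨q, hq, h8, h9⟩
              have := hk4 q hq h8
              omega
    · rw [Nat.add_sub_cancel, e1 _ le_rfl, hzv, sv_last]
    · intro i j hij hj
      have hbt : ∀ i j, Bt ((z + 1) :: rest.filter fun y => y < z) i j ↔
          (i ≤ z ∧ z + 1 < j) ∨ (∃ q ∈ rest, q < z ∧ i < q ∧ q < j) := by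
        intro i j
        constructor
        · rintro ⟨q, hq, h5, h6⟩
          rcases List.mem_cons.1 hq with rfl | hq
          · left
            omega
          · simp only [List.mem_filter, decide_eq_true_eq] at hq
            exact Or.inr ⟨q, hq.1, hq.2, h5, h6⟩
        · rintro (⟨h5, h6⟩ | ⟨q, hq, h5, h6, h7⟩)
          · exact ⟨z + 1, by simp, by omega, h6⟩
          · exact ⟨q, List.mem_cons_of_mem _ (by simp [hq, h5]), h6, h7⟩
      rw [hbt]
      by_cases hjz : j ≤ z
      · rw [e1 _ hjz, e1 _ (show i ≤ z by omega)]
        have h5 : s j ≤ v := by rw [← hzv, hle]; exact hjz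
        rw [da_snocP v τ _ _ (by omega), hD i j hij (by omega)]
        constructor
        · rintro (⟨_, q, hq, h6, h7⟩ | ⟨h6, _⟩ | ⟨h6, _⟩)
          · rcases List.mem_cons.1 hq with rfl | hq
            · omega
            · exact Or.inr ⟨q, hq, by omega, h6, h7⟩
          · omega
          · omega
        · rintro (h6 | ⟨q, hq, h6, h7, h8⟩)
          · omega
          · exact Or.inl ⟨h5, q, List.mem_cons_of_mem _ hq, h7, h8⟩
      · rw [e2 _ hjz]
        have h5 : s z ≤ s (j - 1) := (hle _ _).2 (by omega)
        have h5' := hub (j - 1) (by omega)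
        rw [da_snocP v τ _ _ (by omega), Nat.add_sub_cancel, ← hzv]
        by_cases hiz : i ≤ z
        · rw [e1 _ hiz]
          have h6 : s i ≤ s z := (hle _ _).2 hiz
          rcases Nat.eq_or_lt_of_le (show z ≤ j - 1 by omega) with h7 | h7
          · rw [← h7]
            rcases Nat.eq_or_lt_of_le hiz with h8 | h8
            · subst h8
              constructor
              · rintro (⟨h9, _⟩ | ⟨h9, _, h10 | h10⟩ | ⟨h9, h10, _⟩)
                · omega
                · exact absurd h10 (DA_self τ le_rfl)
                · omega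
                · omega
              · rintro (h9 | ⟨q, hq, h9, h10, h11⟩)
                · omega
                · omega
            · rw [hD i z h8 hz]
              constructor
              · rintro (⟨h9, _⟩ | ⟨h9, _, ⟨q, hq, h10, h11⟩ | h10⟩ | ⟨h9, h10, _⟩)
                · omega
                · rcases List.mem_cons.1 hq with rfl | hq
                  · omega
                  · exact Or.inr ⟨q, hq, by omega, by omega, by omega⟩
                · omega
                · omega
              · rintro (h9 | ⟨q, hq, h9, h10, h11⟩)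
                · omega
                · exact Or.inr (Or.inl ⟨by omega, h6, Or.inl ⟨q, List.mem_cons_of_mem _ hq,
                    by omega, by omega⟩⟩)
          · have h8 : s z < s (j - 1) := (hlt _ _).2 h7
            constructor
            · intro _
              left
              omega
            · intro _
              exact Or.inr (Or.inl ⟨by omega, h6, Or.inr (by omega)⟩)
        · rw [e2 _ hiz]
          have h6 : s z ≤ s (i - 1) := (hle _ _).2 (by omega)
          rw [Nat.add_sub_cancel, hD (i - 1) (j - 1) (by omega) (by omega)]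
          constructor
          · rintro (⟨h9, _⟩ | ⟨h9, h10, _⟩ | ⟨h9, h10, ⟨q, hq, h11, h12⟩⟩)
            · omega
            · omega
            · have := hk4 q hq (by omega)
              omega
          · rintro (h9 | ⟨q, hq, h9, h10, h11⟩)
            · omega
            · omega
  · -- the new value is above the last one
    have hch : chA (p, rest, e) z = (z, ((p - 1) :: rest).filter fun y => y + 1 < z,
        p + e - z) := by
      unfold chA
      simp only [if_neg hzp]
    rw [hch]
    simp only
    have hN : z + (p + e - z) = p + e := by omega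
    rw [hN]
    have hno : ∀ i j, p ≤ i → ¬ Bt (p :: rest) i j := by
      rintro i j hi ⟨q, hq, h5, h6⟩
      rcases List.mem_cons.1 hq with rfl | hq
      · omega
      · have := h3 q hq
        omega
    obtain ⟨s', e0⟩ : ∃ s' : ℕ → ℕ, ∀ i, s' i = if i + 1 < p then s i else
        if i < z then s (i + 1) else s i + 1 := ⟨_, fun _ => rfl⟩
    have e1 : ∀ i, i + 1 < p → s' i = s i := fun i hi => by rw [e0, if_pos hi]
    have e2 : ∀ i, ¬ i + 1 < p → i < z → s' i = s (i + 1) :=
      fun i hi h => by rw [e0, if_neg hi, if_pos h]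
    have e3 : ∀ i, ¬ i < z → s' i = s i + 1 :=
      fun i h => by rw [e0, if_neg (by omega), if_neg h]
    refine ⟨s', ?_, ?_, ?_, ?_⟩
    · apply strictMono_nat_of_lt_succ
      intro i
      by_cases h5 : i + 1 + 1 < p
      · rw [e1 _ h5, e1 _ (by omega)]
        exact hs (by omega)
      · by_cases h6 : i + 1 < p
        · rw [e1 _ h6, e2 _ h5 (by omega)]
          exact hs (by omega)
        · by_cases h7 : i + 1 < z
          · rw [e2 _ h5 h7, e2 _ h6 (by omega)]
            exact hs (by omega)
          · by_cases h8 : i < z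
            · rw [e2 _ h6 h8, e3 _ h7]
              omega
            · rw [e3 _ h7, e3 _ h8]
              have := hs (show i < i + 1 by omega)
              omega
    · intro w
      rw [mem_actA v τ hv w, ← hzv]
      constructor
      · rintro (⟨h5, h6, h7⟩ | h5 | ⟨h5, h6, h7⟩)
        · obtain ⟨j, hj, rfl⟩ := (hA w).1 h6
          rw [hlt] at h5
          rw [← hl, Ne, hinj] at h7
          by_cases h8 : j + 1 < p
          · exact ⟨j, by omega, e1 _ h8⟩
          · exact ⟨j - 1, by omega, by
              rw [e2 _ (by omega) (by omega), Nat.sub_add_cancel (by omega)]⟩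
        · exact ⟨z - 1, by omega, by
            rw [e2 _ (by omega) (by omega), Nat.sub_add_cancel (by omega)]; exact h5.symm⟩
        · obtain ⟨j, hj, hjw⟩ := (hA (w - 1)).1 h6
          have hzj : z ≤ j := by
            rw [← hle, hjw]
            omega
          refine ⟨j, by omega, ?_⟩
          rw [e3 _ (by omega)]
          omega
      · rintro ⟨i, hi, rfl⟩
        by_cases h5 : i + 1 < p
        · rw [e1 _ h5]
          refine Or.inl ⟨(hlt _ _).2 (by omega), (hA _).2 ⟨i, by omega, rfl⟩, ?_⟩
          rw [← hl, Ne, hinj]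
          omega
        · by_cases h6 : i < z
          · rw [e2 _ h5 h6]
            rcases Nat.eq_or_lt_of_le (show i + 1 ≤ z by omega) with h7 | h7
            · rw [h7]
              exact Or.inr (Or.inl rfl)
            · refine Or.inl ⟨(hlt _ _).2 (by omega), (hA _).2 ⟨i + 1, by omega, rfl⟩, ?_⟩
              rw [← hl, Ne, hinj]
              omega
          · rw [e3 _ h6]
            have h7 : s z ≤ s i := (hle _ _).2 (by omega)
            refine Or.inr (Or.inr ⟨by omega, ?_, ?_⟩)
            · rw [Nat.add_sub_cancel]
              exact (hA _).2 ⟨i, by omega, rfl⟩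
            · rw [Nat.add_sub_cancel]
              rcases Nat.eq_or_lt_of_le (show z ≤ i by omega) with h8 | h8
              · rw [← h8]
                exact DA_self τ le_rfl
              · rw [hD z i h8 (by omega)]
                exact hno _ _ (by omega)
    · rw [e2 _ (by omega) (by omega), Nat.sub_add_cancel (by omega), hzv, sv_last]
    · intro i j hij hj
      have hbt : ∀ i j, Bt (z :: ((p - 1) :: rest).filter fun y => y + 1 < z) i j ↔
          (i < z ∧ z < j) ∨ (p < z ∧ i < p - 1 ∧ p - 1 < j) ∨
          (∃ q ∈ rest, i < q ∧ q < j) := by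
        intro i j
        constructor
        · rintro ⟨q, hq, h5, h6⟩
          rcases List.mem_cons.1 hq with rfl | hq
          · left
            omega
          · simp only [List.mem_filter, decide_eq_true_eq] at hq
            rcases List.mem_cons.1 hq.1 with h7 | h7
            · right; left
              omega
            · exact Or.inr (Or.inr ⟨q, h7, h5, h6⟩)
        · rintro (⟨h5, h6⟩ | ⟨h5, h6, h7⟩ | ⟨q, hq, h5, h6⟩)
          · exact ⟨z, by simp, by omega, h6⟩
          · refine ⟨p - 1, List.mem_cons_of_mem _ ?_, h6, h7⟩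
            simp only [List.mem_filter, decide_eq_true_eq, List.mem_cons, true_or, true_and]
            omega
          · have h7 := h3 q hq
            refine ⟨q, List.mem_cons_of_mem _ ?_, h5, h6⟩
            simp only [List.mem_filter, decide_eq_true_eq, List.mem_cons, hq, or_true, true_and]
            omega
      rw [hbt]
      by_cases hjz : j < z
      · -- `j` is below the new value
        by_cases hjp : j + 1 < p
        · rw [e1 _ hjp, e1 _ (show i + 1 < p by omega)]
          have h5 : s j ≤ v := by rw [← hzv, hle]; omega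
          rw [da_snocP v τ _ _ (by omega), hD i j hij (by omega)]
          constructor
          · rintro (⟨_, q, hq, h6, h7⟩ | ⟨h6, _⟩ | ⟨h6, _⟩)
            · rcases List.mem_cons.1 hq with rfl | hq
              · omega
              · exact Or.inr (Or.inr ⟨q, hq, h6, h7⟩)
            · omega
            · omega
          · rintro (h6 | h6 | ⟨q, hq, h7, h8⟩)
            · omega
            · omega
            · exact Or.inl ⟨h5, q, List.mem_cons_of_mem _ hq, h7, h8⟩
        · rw [e2 _ hjp hjz]
          have h5 : s (j + 1) ≤ v := by rw [← hzv, hle]; omega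
          by_cases hip : i + 1 < p
          · rw [e1 _ hip, da_snocP v τ _ _ (by omega), hD i (j + 1) (by omega) (by omega)]
            constructor
            · rintro (⟨_, q, hq, h6, h7⟩ | ⟨h6, _⟩ | ⟨h6, _⟩)
              · rcases List.mem_cons.1 hq with h8 | hq
                · subst h8
                  by_cases h9 : j < q
                  · omega
                  · right; left
                    omega
                · have := h3 q hq
                  exact Or.inr (Or.inr ⟨q, hq, h6, by omega⟩)
              · omega
              · omega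
            · rintro (h6 | h6 | ⟨q, hq, h7, h8⟩)
              · omega
              · exact Or.inl ⟨h5, p, by simp, by omega, by omega⟩
              · exact Or.inl ⟨h5, q, List.mem_cons_of_mem _ hq, h7, by omega⟩
          · rw [e2 _ hip (by omega), da_snocP v τ _ _ (by omega),
              hD (i + 1) (j + 1) (by omega) (by omega)]
            constructor
            · rintro (⟨_, h6⟩ | ⟨h6, _⟩ | ⟨h6, _⟩)
              · exact absurd h6 (hno _ _ (by omega))
              · omega
              · omega
            · rintro (h6 | h6 | ⟨q, hq, h7, h8⟩)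
              · omega
              · omega
              · have := h3 q hq
                omega
      · rw [e3 _ hjz]
        have h5 : s z ≤ s j := (hle _ _).2 (by omega)
        have h5' := hub j (by omega)
        rw [da_snocP v τ _ _ (by omega), Nat.add_sub_cancel, ← hzv]
        by_cases hiz : i < z
        · -- `i` is at most the new value
          rcases Nat.eq_or_lt_of_le (show z ≤ j by omega) with h7 | h7
          · subst h7
            by_cases hip : i + 1 < p
            · rw [e1 _ hip, hD i z (by omega) hz]
              have h6 : s i ≤ s z := (hle _ _).2 (by omega)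
              constructor
              · rintro (⟨h9, _⟩ | ⟨h9, _, ⟨q, hq, h10, h11⟩ | h10⟩ | ⟨h9, h10, _⟩)
                · omega
                · rcases List.mem_cons.1 hq with h12 | hq
                  · subst h12
                    right; left
                    omega
                  · exact Or.inr (Or.inr ⟨q, hq, by omega, by omega⟩)
                · omega
                · omega
              · rintro (h9 | h9 | ⟨q, hq, h9, h10⟩)
                · omega
                · exact Or.inr (Or.inl ⟨by omega, h6, Or.inl ⟨p, by simp, by omega, by omega⟩⟩)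
                · exact Or.inr (Or.inl ⟨by omega, h6, Or.inl ⟨q, List.mem_cons_of_mem _ hq,
                    by omega, by omega⟩⟩)
            · rw [e2 _ hip hiz]
              have h6 : s (i + 1) ≤ s z := (hle _ _).2 (by omega)
              constructor
              · rintro (⟨h9, _⟩ | ⟨h9, _, h10 | h10⟩ | ⟨h9, h10, _⟩)
                · omega
                · exfalso
                  rcases Nat.eq_or_lt_of_le (show i + 1 ≤ z by omega) with h11 | h11
                  · rw [h11] at h10
                    exact DA_self τ le_rfl h10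
                  · rw [hD (i + 1) z h11 hz] at h10
                    exact hno _ _ (by omega) h10
                · omega
                · omega
              · rintro (h9 | h9 | ⟨q, hq, h9, h10⟩)
                · omega
                · omega
                · have := h3 q hq
                  omega
          · have h8 : s z < s j := (hlt _ _).2 h7
            constructor
            · intro _
              left
              omega
            · intro _
              by_cases hip : i + 1 < p
              · rw [e1 _ hip]
                have h6 : s i ≤ s z := (hle _ _).2 (by omega)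
                exact Or.inr (Or.inl ⟨by omega, h6, Or.inr (by omega)⟩)
              · rw [e2 _ hip hiz]
                have h6 : s (i + 1) ≤ s z := (hle _ _).2 (by omega)
                exact Or.inr (Or.inl ⟨by omega, h6, Or.inr (by omega)⟩)
        · rw [e3 _ hiz]
          have h6 : s z ≤ s i := (hle _ _).2 (by omega)
          rw [Nat.add_sub_cancel, hD i j hij (by omega)]
          constructor
          · rintro (⟨h9, _⟩ | ⟨h9, h10, _⟩ | ⟨h9, h10, h11⟩)
            · omega
            · omega
            · exact absurd h11 (hno _ _ (by omega))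
          · rintro (h9 | h9 | ⟨q, hq, h9, h10⟩)
            · omega
            · omega
            · have := h3 q hq
              omega

/-- transfer operator of the tree of `3214` -/
def TA (f : ℕ × List ℕ × ℕ → ℤ) (s : ℕ × List ℕ × ℕ) : ℤ :=
  ∑ z ∈ range (s.1 + s.2.2), f (chA s z)

lemma act_one (Bad : (n : ℕ) → Equiv.Perm (Fin n) → ℕ → Prop) (hB : ∀ u, ¬ Bad 1 1 u) (w : ℕ) :
    w ∈ act Bad 0 1 ↔ w < 2 := by
  rw [mem_act]
  have := hB w
  tauto

theorem card3214 (n : ℕ) : cardV V3214 n = (TA^[n] fun _ => 1) (1, [], 1) := by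
  apply cardV_eq V3214 B3214 v3214_snocP TA RepA
  · intro m τ st hV hR
    obtain ⟨hg, s, hs, hA, hl, hD⟩ := hR
    refine ⟨fun u => chA st (Function.invFun s u), ?_, ?_⟩
    · intro v hv
      obtain ⟨z, hz, hzv⟩ := (hA v).1 hv
      simp only
      rw [← hzv, Function.leftInverse_invFun hs.injective z]
      exact repA_step τ st hg s hs hA hl hD v z hz hzv
    · intro f
      exact sum_enum s hs _ _ hA fun z => f (chA st z)
  · refine ⟨?_, ?_⟩
    · intro i j k _ h
      exact absurd h (fin1_lt _ _)
    · intro i j k l h
      exact absurd h (fin1_lt _ _)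
  · have hB : ∀ u, ¬ B3214 1 1 u := by
      rintro u (⟨i, j, h1, _, _⟩ | ⟨i, j, k, h, _⟩)
      · have := i.2
        have := j.2
        omega
      · exact absurd h (fin1_lt _ _)
    refine ⟨⟨by simp, by simp, by simp, by simp⟩, id, strictMono_id, ?_, ?_, ?_⟩
    · intro w
      rw [act_one B3214 hB]
      constructor
      · intro h
        exact ⟨w, h, rfl⟩
      · rintro ⟨i, h, rfl⟩
        exact h
    · rfl
    · intro i j hij hj
      constructor
      · rintro ⟨i, j, h, _⟩
        exact absurd h (fin1_lt _ _)
      · rintro ⟨q, hq, h1, h2⟩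
        simp only at hj
        omega

end Pool.Agent.H25.Fish
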