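import Pool.Agent.H25.Fish.TA

set_option autoImplicit false

/-! The generating tree of the Fishburn permutations avoiding `4132`. -/

namespace Pool.Agent.H25.Fish

open Finset Pool.Agent.R121 Pool.Agent.R121.Fish

attribute [local instance 10] Classical.propDecidable

/-- occurrence of `413` whose completion to `4132` by the new last value `u` is possible -/
def P4132 {n : ℕ} (τ : Equiv.Perm (Fin n)) (u : ℕ) : Prop :=
  ∃ i j k : Fin n, i < j ∧ j < k ∧ (τ k : ℕ) < τ i ∧ (τ j : ℕ) < u ∧ u ≤ τ k

/-- avoidance of `4132` -/
def Av4132 {n : ℕ} (τ : Equiv.Perm (Fin n)) : Prop :=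
  ∀ i j k l : Fin n, i < j → j < k → k < l →
    ¬ ((τ j : ℕ) < τ l ∧ (τ l : ℕ) < τ k ∧ (τ k : ℕ) < τ i)

/-- valid permutations -/
def V4132 (n : ℕ) (τ : Equiv.Perm (Fin n)) : Prop := Fsh τ ∧ Av4132 τ

/-- forbidden sites -/
def B4132 (n : ℕ) (τ : Equiv.Perm (Fin n)) (u : ℕ) : Prop := FB τ u ∨ P4132 τ u

/-- a new value at the site `v` makes the site `u` with `u ≤ v` forbidden -/
def KB {n : ℕ} (τ : Equiv.Perm (Fin n)) (u v : ℕ) : Prop :=
  ∃ i j : Fin n, i < j ∧ (τ j : ℕ) < u ∧ u ≤ v ∧ v ≤ τ i

lemma av4132_snocP {n : ℕ} (v : Fin (n + 1)) (τ : Equiv.Perm (Fin n)) :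
    Av4132 (snocP v τ) ↔ Av4132 τ ∧ ¬ P4132 τ v := by
  constructor
  · intro H
    constructor
    · intro i j k l h1 h2 h3 ⟨h4, h5, h6⟩
      apply H i.castSucc j.castSucc k.castSucc l.castSucc (by simpa using h1) (by simpa using h2)
        (by simpa using h3)
      rw [sv_cast, sv_cast, sv_cast, sv_cast]
      split_ifs <;> omega
    · rintro ⟨i, j, k, h1, h2, h3, h4, h5⟩
      apply H i.castSucc j.castSucc k.castSucc (Fin.last n) (by simpa using h1) (by simpa using h2)
        (Fin.castSucc_lt_last k)
      rw [sv_cast, sv_cast, sv_cast, sv_last]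
      split_ifs <;> omega
  · rintro ⟨H, hb⟩ i j k l h1 h2 h3 ⟨h4, h5, h6⟩
    induction k using Fin.lastCases with
    | last => exact absurd (lt_of_lt_of_le h3 (Fin.le_last _)) (lt_irrefl _)
    | cast k =>
      induction j using Fin.lastCases with
      | last => exact absurd (lt_of_lt_of_le h2 (Fin.le_last _)) (lt_irrefl _)
      | cast j =>
        induction i using Fin.lastCases with
        | last => exact absurd (lt_of_lt_of_le h1 (Fin.le_last _)) (lt_irrefl _)
        | cast i =>
          simp only [Fin.castSucc_lt_castSucc_iff] at h1 h2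
          induction l using Fin.lastCases with
          | last =>
            rw [sv_cast, sv_last] at h4
            rw [sv_last, sv_cast] at h5
            rw [sv_cast, sv_cast] at h6
            exact hb ⟨i, j, k, h1, h2, by split_ifs at h6 <;> omega, by split_ifs at h4 <;> omega,
              by split_ifs at h5 <;> omega⟩
          | cast l =>
            simp only [Fin.castSucc_lt_castSucc_iff] at h3
            rw [sv_cast, sv_cast] at h4 h5 h6
            exact H i j k l h1 h2 h3 ⟨by split_ifs at h4 <;> omega, by split_ifs at h5 <;> omega,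
              by split_ifs at h6 <;> omega⟩

lemma v4132_snocP (n : ℕ) (v : Fin (n + 1)) (τ : Equiv.Perm (Fin n)) :
    V4132 (n + 1) (snocP v τ) ↔ V4132 n τ ∧ ¬ B4132 n τ v := by
  unfold V4132 B4132
  rw [fsh_snocP, av4132_snocP]
  tauto

lemma p4132_snocP {n : ℕ} (v : Fin (n + 1)) (τ : Equiv.Perm (Fin n)) (u : ℕ) :
    P4132 (snocP v τ) u ↔
      (u ≤ v ∧ (P4132 τ u ∨ KB τ u v)) ∨ (v < u ∧ P4132 τ (u - 1)) := by
  constructor
  · rintro ⟨i, j, k, h1, h2, h3, h4, h5⟩
    induction j using Fin.lastCases with
    | last => exact absurd (lt_of_lt_of_le h2 (Fin.le_last _)) (lt_irrefl _)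
    | cast j =>
      induction i using Fin.lastCases with
      | last => exact absurd (lt_of_lt_of_le h1 (Fin.le_last _)) (lt_irrefl _)
      | cast i =>
        simp only [Fin.castSucc_lt_castSucc_iff] at h1
        induction k using Fin.lastCases with
        | last =>
          rw [sv_cast, sv_last] at h3
          rw [sv_cast] at h4
          rw [sv_last] at h5
          left
          refine ⟨h5, Or.inr ⟨i, j, h1, ?_, h5, ?_⟩⟩
          · split_ifs at h4 <;> omega
          · split_ifs at h3 <;> omega
        | cast k =>
          simp only [Fin.castSucc_lt_castSucc_iff] at h2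
          rw [sv_cast, sv_cast] at h3
          rw [sv_cast] at h4 h5
          by_cases h6 : u ≤ v
          · exact Or.inl ⟨h6, Or.inl ⟨i, j, k, h1, h2, by split_ifs at h3 <;> omega,
              by split_ifs at h4 <;> omega, by split_ifs at h5 <;> omega⟩⟩
          · exact Or.inr ⟨by omega, ⟨i, j, k, h1, h2, by split_ifs at h3 <;> omega,
              by split_ifs at h4 <;> omega, by split_ifs at h5 <;> omega⟩⟩
  · rintro (⟨h0, ⟨i, j, k, h1, h2, h3, h4, h5⟩ | ⟨i, j, h1, h2, h3, h4⟩⟩ |
      ⟨h0, ⟨i, j, k, h1, h2, h3, h4, h5⟩⟩)
    · refine ⟨i.castSucc, j.castSucc, k.castSucc, by simpa using h1, by simpa using h2, ?_, ?_, ?_⟩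
      · rw [sv_cast, sv_cast]
        split_ifs <;> omega
      · rw [sv_cast]
        split_ifs <;> omega
      · rw [sv_cast]
        split_ifs <;> omega
    · refine ⟨i.castSucc, j.castSucc, Fin.last _, by simpa using h1,
        Fin.castSucc_lt_last j, ?_, ?_, ?_⟩
      · rw [sv_cast, sv_last]
        split_ifs <;> omega
      · rw [sv_cast]
        split_ifs <;> omega
      · rw [sv_last]
        exact h3
    · refine ⟨i.castSucc, j.castSucc, k.castSucc, by simpa using h1, by simpa using h2, ?_, ?_, ?_⟩
      · rw [sv_cast, sv_cast]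
        split_ifs <;> omega
      · rw [sv_cast]
        split_ifs <;> omega
      · rw [sv_cast]
        split_ifs <;> omega

lemma kb_snocP {n : ℕ} (v : Fin (n + 1)) (τ : Equiv.Perm (Fin n)) (u w : ℕ) :
    KB (snocP v τ) u w ↔ (w ≤ v ∧ KB τ u w) ∨ (u ≤ v ∧ v < w ∧ KB τ u (w - 1)) ∨
      (v < u ∧ u ≤ w ∧ w ≤ n) := by
  constructor
  · rintro ⟨i, j, h1, h2, h3, h4⟩
    induction i using Fin.lastCases with
    | last => exact absurd (lt_of_lt_of_le h1 (Fin.le_last _)) (lt_irrefl _)
    | cast i =>
      have hin := (snocP v τ i.castSucc).2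
      by_cases h5 : v < u
      · exact Or.inr (Or.inr ⟨h5, h3, by omega⟩)
      induction j using Fin.lastCases with
      | last =>
        rw [sv_last] at h2
        omega
      | cast j =>
        simp only [Fin.castSucc_lt_castSucc_iff] at h1
        rw [sv_cast] at h2 h4
        by_cases h6 : w ≤ v
        · exact Or.inl ⟨h6, i, j, h1, by split_ifs at h2 <;> omega, h3,
            by split_ifs at h4 <;> omega⟩
        · exact Or.inr (Or.inl ⟨by omega, by omega, ⟨i, j, h1, by split_ifs at h2 <;> omega,
            by omega, by split_ifs at h4 <;> omega⟩⟩)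
  · rintro (⟨h0, ⟨i, j, h1, h2, h3, h4⟩⟩ | ⟨h0, h01, ⟨i, j, h1, h2, h3, h4⟩⟩ | ⟨h0, h01, h02⟩)
    · refine ⟨i.castSucc, j.castSucc, by simpa using h1, ?_, h3, ?_⟩
      · rw [sv_cast]
        split_ifs <;> omega
      · rw [sv_cast]
        split_ifs <;> omega
    · refine ⟨i.castSucc, j.castSucc, by simpa using h1, ?_, by omega, ?_⟩
      · rw [sv_cast]
        split_ifs <;> omega
      · rw [sv_cast]
        split_ifs <;> omega
    · let i : Fin n := τ.symm ⟨n - 1, by omega⟩
      have hi : (τ i : ℕ) = n - 1 := by simp [i]
      refine ⟨i.castSucc, Fin.last n, Fin.castSucc_lt_last i, ?_, h01, ?_⟩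
      · rw [sv_last]
        exact h0
      · rw [sv_cast]
        split_ifs <;> omega

lemma mem_actB {m : ℕ} (v : Fin (m + 2)) (τ : Equiv.Perm (Fin (m + 1)))
    (hv : (v : ℕ) ∈ act B4132 m τ) (w : ℕ) : w ∈ act B4132 (m + 1) (snocP v τ) ↔
      (w < v ∧ w ∈ act B4132 m τ ∧ w ≠ τ (Fin.last m) ∧ ¬ KB τ w v) ∨ (w = v ∧ ¬ KB τ v v) ∨
      (v < w ∧ w - 1 ∈ act B4132 m τ) := by
  have hv2 := v.2
  have hv1 : ¬ FB τ v ∧ ¬ P4132 τ v := by
    rw [mem_act, B4132] at hv
    tauto
  simp only [mem_act, B4132, fb_snocP, p4132_snocP]
  rcases lt_trichotomy w v with h | h | h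
  · have h1 : w < m + 1 + 2 := by omega
    have h2 : w < m + 2 := by omega
    have h3 : ¬ (v : ℕ) < w := by omega
    have h4 : w ≤ (v : ℕ) := by omega
    have h5 : w ≠ v := by omega
    simp only [h, h1, h2, h3, h4, h5, true_and, false_and, or_false, not_or]
    tauto
  · subst h
    have h1 : (v : ℕ) < m + 1 + 2 := by omega
    have h3 : ¬ (v : ℕ) < v := by omega
    simp only [h1, h3, le_refl, true_and, false_and, or_false, false_or]
    tauto
  · have h1 : w < m + 1 + 2 ↔ w - 1 < m + 2 := by omega
    have h3 : ¬ w < (v : ℕ) := by omega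
    have h4 : ¬ w ≤ (v : ℕ) := by omega
    have h5 : w ≠ v := by omega
    simp only [h, h1, h3, h4, h5, true_and, false_and, false_or, not_or]

/-- the marks: the partial sums from the bottom -/
def mkL : List ℕ → List ℕ
  | [] => [0]
  | b :: L => (b + L.sum) :: mkL L

lemma mkL_le (L : List ℕ) : ∀ q ∈ mkL L, q ≤ L.sum := by
  induction L with
  | nil => simp [mkL]
  | cons b L ih =>
    intro q hq
    rw [List.sum_cons]
    rcases List.mem_cons.1 hq with hq | hq
    · omega
    · have := ih q hq
      omega

lemma sum_mem_mkL (L : List ℕ) : L.sum ∈ mkL L := by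
  cases L with
  | nil => simp [mkL]
  | cons b L => simp [mkL]

/-- the blocks below the site `z` -/
def popL : List ℕ → ℕ → List ℕ
  | [], _ => []
  | b :: L, z => if b + L.sum ≤ z then b :: L else popL L z

lemma popL_spec (L : List ℕ) (z : ℕ) : (popL L z).sum ≤ z ∧ (popL L z).sum ≤ L.sum ∧
    ∀ q, q ∈ mkL L ↔ q ∈ mkL (popL L z) ∨ (q ∈ mkL L ∧ z < q) := by
  induction L with
  | nil =>
    refine ⟨by simp [popL], by simp [popL], ?_⟩
    intro q
    rw [popL]
    tauto
  | cons b L ih =>
    rw [popL]
    by_cases h : b + L.sum ≤ z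
    · rw [if_pos h]
      refine ⟨by rw [List.sum_cons]; exact h, le_rfl, ?_⟩
      intro q
      tauto
    · rw [if_neg h]
      refine ⟨ih.1, by rw [List.sum_cons]; have := ih.2.1; omega, ?_⟩
      intro q
      rw [mkL, List.mem_cons]
      have h2 := ih.2.2 q
      constructor
      · rintro (h1 | h1)
        · exact Or.inr ⟨Or.inl h1, by omega⟩
        · rcases h2.1 h1 with h3 | h3
          · exact Or.inl h3
          · exact Or.inr ⟨Or.inr h3.1, h3.2⟩
      · rintro (h1 | ⟨h1, _⟩)
        · exact Or.inr (h2.2 (Or.inl h1))
        · exact h1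

lemma popL_self (L : List ℕ) {z : ℕ} (h : L.sum ≤ z) : popL L z = L := by
  cases L with
  | nil => rfl
  | cons b L =>
    rw [popL, if_pos]
    rw [List.sum_cons] at h
    exact h

/-- the number of the sites but the top one -/
def szB (s : Bool × List ℕ × ℕ) : ℕ := s.2.1.sum + s.2.2 + s.1.toNat

/-- the child of a state -/
def chB (s : Bool × List ℕ × ℕ) (z : ℕ) : Bool × List ℕ × ℕ :=
  if z = szB s then (true, s.2.2 :: s.2.1, 0)
  else if s.1 = true ∧ z = s.2.1.sum then (true, s.2.1, s.2.2 + 1)
  else (false, popL s.2.1 z, szB s - z)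

/-- the marks describe the relation `KB` on the sites -/
def RepB (m : ℕ) (τ : Equiv.Perm (Fin (m + 1))) (st : Bool × List ℕ × ℕ) : Prop :=
  ∃ s : ℕ → ℕ, StrictMono s ∧
  (∀ w, w ∈ act B4132 m τ ↔ ∃ i, i < szB st + 1 ∧ s i = w) ∧
  s (szB st) = m + 1 ∧ (st.1 = true → s st.2.1.sum = τ (Fin.last m)) ∧
  (st.1 = false → (τ (Fin.last m) : ℕ) ∉ act B4132 m τ) ∧
  ∀ i j, i ≤ j → j < szB st → (st.1 = true → i = st.2.1.sum → j = st.2.1.sum) →
    (KB τ (s i) (s j) ↔ ¬ Bl (mkL st.2.1) i j ∧ ¬ (st.1 = true ∧ j = st.2.1.sum))

lemma repB_step {m : ℕ} (τ : Equiv.Perm (Fin (m + 1))) (st : Bool × List ℕ × ℕ)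
    (s : ℕ → ℕ) (hs : StrictMono s)
    (hA : ∀ w, w ∈ act B4132 m τ ↔ ∃ i, i < szB st + 1 ∧ s i = w)
    (ht : s (szB st) = m + 1) (hl : st.1 = true → s st.2.1.sum = τ (Fin.last m))
    (hl2 : st.1 = false → (τ (Fin.last m) : ℕ) ∉ act B4132 m τ)
    (hK : ∀ i j, i ≤ j → j < szB st → (st.1 = true → i = st.2.1.sum → j = st.2.1.sum) →
    (KB τ (s i) (s j) ↔ ¬ Bl (mkL st.2.1) i j ∧ ¬ (st.1 = true ∧ j = st.2.1.sum)))
    (v : Fin (m + 2)) (z : ℕ) (hz : z < szB st + 1) (hzv : s z = v) :
    RepB (m + 1) (snocP v τ) (chB st z) := by
  have hv : (v : ℕ) ∈ act B4132 m τ := (hA v).2 ⟨z, hz, hzv⟩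
  obtain ⟨b, L, e⟩ := st
  simp only at hz hA hl hl2 ht hK
  have hlt : ∀ a b, s a < s b ↔ a < b := fun a b => hs.lt_iff_lt
  have hle : ∀ a b, s a ≤ s b ↔ a ≤ b := fun a b => hs.le_iff_le
  have hinj : ∀ a b, s a = s b ↔ a = b := fun a b => hs.injective.eq_iff
  have hmp := mkL_le L
  have hsm := sum_mem_mkL L
  have hKtop : ∀ u, ¬ KB τ u (m + 1) := by
    rintro u ⟨i, j, h1, h2, h3, h4⟩
    have := (τ i).2
    omega
  set p := L.sum with hp
  have hNdef : szB (b, L, e) = p + e + b.toNat := rfl
  set N := szB (b, L, e) with hN
  have hbt : b = true → b.toNat = 1 := fun h => by rw [h]; rfl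
  have hbf : b = false → b.toNat = 0 := fun h => by rw [h]; rfl
  by_cases hzN : z = N
  · -- the new value is the top one
    have hch : chB (b, L, e) z = (true, e :: L, 0) := by
      unfold chB
      rw [if_pos hzN]
    rw [hch]
    have hsz : szB (true, e :: L, 0) = p + e + 1 := by
      simp only [szB, List.sum_cons, Bool.toNat_true]
      omega
    unfold RepB
    rw [hsz]
    simp only [List.sum_cons, mkL]
    rw [← hp]
    have hvm : (v : ℕ) = m + 1 := by rw [← hzv, hzN, ht]
    obtain ⟨s', e0⟩ : ∃ s' : ℕ → ℕ, ∀ i, s' i = if i < p then s i else if i ≤ p + e then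
      s (i + b.toNat) else s (i - 1 + b.toNat) + 1 := ⟨_, fun _ => rfl⟩
    have e1 : ∀ i, i < p → s' i = s i := fun i hi => by rw [e0, if_pos hi]
    have e2 : ∀ i, p ≤ i → i ≤ p + e → s' i = s (i + b.toNat) :=
      fun i hi h => by rw [e0, if_neg (by omega), if_pos h]
    have e3 : ∀ i, p + e < i → s' i = s (i - 1 + b.toNat) + 1 :=
      fun i h => by rw [e0, if_neg (by omega), if_neg (by omega)]
    refine ⟨s', ?_, ?_, ?_, ?_, ?_, ?_⟩
    · apply strictMono_nat_of_lt_succ
      intro i
      by_cases h5 : i + 1 < p
      · rw [e1 _ h5, e1 _ (by omega)]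
        exact hs (by omega)
      · by_cases h6 : i < p
        · rw [e1 _ h6, e2 _ (by omega) (by omega)]
          exact hs (by omega)
        · by_cases h7 : i + 1 ≤ p + e
          · rw [e2 _ (by omega) h7, e2 _ (by omega) (by omega)]
            exact hs (by omega)
          · by_cases h8 : i ≤ p + e
            · rw [e2 _ (by omega) h8, e3 _ (by omega), Nat.add_sub_cancel]
              omega
            · rw [e3 _ (by omega), e3 _ (by omega), Nat.add_sub_cancel]
              have := hs (show i - 1 + b.toNat < i + b.toNat by omega)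
              omega
    · intro w
      rw [mem_actB v τ hv w, ← hzv]
      constructor
      · rintro (⟨h5, h6, h7, h8⟩ | ⟨h5, _⟩ | ⟨h5, h6⟩)
        · obtain ⟨j, hj, rfl⟩ := (hA w).1 h6
          rw [hlt] at h5
          by_cases h9 : j < p
          · exact ⟨j, by omega, e1 _ h9⟩
          · cases b with
            | false =>
              have := hbf rfl
              refine ⟨j, by omega, ?_⟩
              rw [e2 _ (by omega) (by omega), this, Nat.add_zero]
            | true =>
              have := hbt rfl
              have h10 := hl rfl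
              rw [← h10, Ne, hinj] at h7
              refine ⟨j - 1, by omega, ?_⟩
              rw [e2 _ (by omega) (by omega), this, Nat.sub_add_cancel (by omega)]
        · refine ⟨p + e, by omega, ?_⟩
          rw [e2 _ (by omega) le_rfl, h5, hzN, hNdef]
        · obtain ⟨j, hj, hjw⟩ := (hA (w - 1)).1 h6
          have hzj : z ≤ j := by
            rw [← hle, hjw]
            omega
          refine ⟨p + e + 1, by omega, ?_⟩
          rw [e3 _ (by omega), Nat.add_sub_cancel, ← hNdef]
          have : j = N := by omega
          rw [← this]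
          omega
      · rintro ⟨i, hi, rfl⟩
        by_cases h5 : i < p
        · rw [e1 _ h5]
          refine Or.inl ⟨(hlt _ _).2 (by omega), (hA _).2 ⟨i, by omega, rfl⟩, ?_, ?_⟩
          · intro h6
            cases b with
            | false =>
              apply hl2 rfl
              rw [← h6]
              exact (hA _).2 ⟨i, by omega, rfl⟩
            | true =>
              rw [← hl rfl, hinj] at h6
              omega
          · rw [hzv, hvm]
            exact hKtop _
        · by_cases h6 : i < p + e
          · rw [e2 _ (by omega) (by omega)]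
            refine Or.inl ⟨(hlt _ _).2 (by omega), (hA _).2 ⟨i + b.toNat, by omega, rfl⟩, ?_, ?_⟩
            · intro h7
              cases b with
              | false =>
                apply hl2 rfl
                rw [← h7]
                exact (hA _).2 ⟨i + false.toNat, by omega, rfl⟩
              | true =>
                rw [← hl rfl, hinj] at h7
                have := hbt rfl
                omega
            · rw [hzv, hvm]
              exact hKtop _
          · by_cases h7 : i = p + e
            · right; left
              rw [e2 _ (by omega) (by omega), h7, hzN, hNdef]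
              refine ⟨rfl, ?_⟩
              rw [← hNdef, ht]
              exact hKtop _
            · have h8 : i = p + e + 1 := by omega
              right; right
              rw [e3 _ (by omega), h8, Nat.add_sub_cancel, ← hNdef, Nat.add_sub_cancel, hzN]
              exact ⟨by omega, (hA _).2 ⟨N, by omega, rfl⟩⟩
    · rw [e3 _ (by omega), Nat.add_sub_cancel, ← hNdef, ht]
    · intro _
      rw [Nat.add_comm e p, e2 _ (by omega) le_rfl, ← hNdef, ht, sv_last, hvm]
    · intro h
      simp at h
    · intro i j hij hj _
      have hbl : ∀ i j, j < p + e → (Bl ((e + p) :: mkL L) i j ↔ Bl (mkL L) i j) := by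
        intro i j hj
        constructor
        · rintro ⟨q, hq, h5, h6⟩
          rcases List.mem_cons.1 hq with hq | hq
          · omega
          · exact ⟨q, hq, h5, h6⟩
        · rintro ⟨q, hq, h5, h6⟩
          exact ⟨q, List.mem_cons_of_mem _ hq, h5, h6⟩
      have hjle : s' j ≤ v := by
        rw [← hzv, hzN]
        by_cases h5 : j < p
        · rw [e1 _ h5, hle]
          omega
        · rw [e2 _ (by omega) (by omega), hle]
          omega
      rw [kb_snocP]
      by_cases hjp : j = p + e
      · constructor
        · rintro (⟨_, h5⟩ | ⟨_, h5, _⟩ | ⟨h5, h6, _⟩)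
          · rw [hjp, e2 _ (by omega) le_rfl, ← hNdef, ht] at h5
            exact absurd h5 (hKtop _)
          · omega
          · omega
        · rintro ⟨_, h5⟩
          exact absurd ⟨trivial, by omega⟩ h5
      · rw [hbl i j (by omega)]
        have h5 : (True ∧ j = e + p) ↔ False := by
          constructor
          · rintro ⟨_, h⟩
            omega
          · exact False.elim
        rw [h5]
        have h6 : KB τ (s' i) (s' j) ↔ ¬ Bl (mkL L) i j := by
          by_cases h7 : j < p
          · rw [e1 _ h7, e1 _ (by omega), hK i j hij (by omega) (by omega)]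
            constructor
            · exact fun h => h.1
            · exact fun h => ⟨h, by omega⟩
          · by_cases h8 : i < p
            · rw [e1 _ h8, e2 _ (by omega) (by omega), hK i _ (by omega) (by omega) (by omega)]
              constructor
              · rintro ⟨h9, _⟩
                exact absurd ⟨p, hsm, h8, by omega⟩ h9
              · intro h9
                exact absurd ⟨p, hsm, h8, by omega⟩ h9
            · rw [e2 _ (by omega) (by omega), e2 _ (by omega) (by omega),
                hK _ _ (by omega) (by omega) (fun h => by have := hbt h; omega)]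
              constructor
              · rintro _ ⟨q, hq, h9, h10⟩
                have := hmp q hq
                omega
              · intro _
                refine ⟨?_, ?_⟩
                · rintro ⟨q, hq, h9, h10⟩
                  have := hmp q hq
                  omega
                · rintro ⟨h9, h10⟩
                  have := hbt h9
                  omega
        rw [h6]
        constructor
        · rintro (⟨_, h7⟩ | ⟨_, h7, _⟩ | ⟨h7, h8, _⟩)
          · exact ⟨h7, id⟩
          · omega
          · omega
        · rintro ⟨h7, _⟩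
          exact Or.inl ⟨hjle, h7⟩
  · by_cases hbz : b = true ∧ z = p
    · -- the new value is just below the last one
      obtain ⟨hb, hzp⟩ := hbz
      subst hb
      have hch : chB (true, L, e) z = (true, L, e + 1) := by
        unfold chB
        rw [if_neg hzN, if_pos ⟨rfl, hzp⟩]
      rw [hch]
      have hNdef' : N = p + e + 1 := hNdef
      have hsz : szB (true, L, e + 1) = p + e + 2 := by
        simp only [szB, Bool.toNat_true]
        omega
      unfold RepB
      rw [hsz]
      simp only
      rw [← hp]
      have hlm := hl rfl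
      obtain ⟨s', e0⟩ : ∃ s' : ℕ → ℕ, ∀ i, s' i = if i ≤ p then s i else s (i - 1) + 1 :=
        ⟨_, fun _ => rfl⟩
      have e1 : ∀ i, i ≤ p → s' i = s i := fun i hi => by rw [e0, if_pos hi]
      have e2 : ∀ i, ¬ i ≤ p → s' i = s (i - 1) + 1 := fun i hi => by rw [e0, if_neg hi]
      refine ⟨s', ?_, ?_, ?_, ?_, ?_, ?_⟩
      · apply strictMono_nat_of_lt_succ
        intro i
        by_cases h5 : i + 1 ≤ p
        · rw [e1 _ h5, e1 _ (by omega)]
          exact hs (by omega)
        · by_cases h6 : i ≤ p
          · have : i = p := by omega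
            rw [this, e1 p le_rfl, e2 (p + 1) (by omega), Nat.add_sub_cancel]
            omega
          · rw [e2 _ h5, e2 _ h6, Nat.add_sub_cancel]
            have := hs (show i - 1 < i by omega)
            omega
      · intro w
        rw [mem_actB v τ hv w, ← hzv]
        constructor
        · rintro (⟨h5, h6, h7, h8⟩ | ⟨h5, _⟩ | ⟨h5, h6⟩)
          · obtain ⟨j, hj, rfl⟩ := (hA w).1 h6
            rw [hlt] at h5
            exact ⟨j, by omega, e1 _ (by omega)⟩
          · exact ⟨p, by omega, by rw [e1 _ le_rfl, h5, hzp]⟩
          · obtain ⟨j, hj, hjw⟩ := (hA (w - 1)).1 h6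
            have hzj : z ≤ j := by
              rw [← hle, hjw]
              omega
            refine ⟨j + 1, by omega, ?_⟩
            rw [e2 _ (by omega), Nat.add_sub_cancel]
            omega
        · rintro ⟨i, hi, rfl⟩
          by_cases h5 : i ≤ p
          · rw [e1 _ h5]
            rcases Nat.eq_or_lt_of_le h5 with h6 | h6
            · right; left
              rw [h6, hzp]
              refine ⟨rfl, ?_⟩
              rw [hK p p le_rfl (by omega) (fun _ _ => rfl)]
              rintro ⟨_, h7⟩
              exact h7 ⟨rfl, rfl⟩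
            · refine Or.inl ⟨(hlt _ _).2 (by omega), (hA _).2 ⟨i, by omega, rfl⟩, ?_, ?_⟩
              · rw [← hlm, Ne, hinj]
                omega
              · rw [hzp, hK i p (by omega) (by omega) (by omega)]
                rintro ⟨_, h7⟩
                exact h7 ⟨rfl, rfl⟩
          · right; right
            rw [e2 _ h5, Nat.add_sub_cancel]
            have h6 : s z ≤ s (i - 1) := (hle _ _).2 (by omega)
            exact ⟨by omega, (hA _).2 ⟨i - 1, by omega, rfl⟩⟩
      · rw [e2 _ (by omega), show p + e + 2 - 1 = N by omega, ht]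
      · intro _
        rw [e1 _ le_rfl, sv_last, ← hzv, hzp]
      · intro h
        simp at h
      · intro i j hij hj hip
        rw [kb_snocP]
        by_cases hjp : j ≤ p
        · rw [e1 _ hjp, e1 _ (show i ≤ p by omega)]
          have h5 : s j ≤ v := by rw [← hzv, hle]; omega
          rw [hK i j hij (by omega) (by omega)]
          constructor
          · rintro (⟨_, h6⟩ | ⟨_, h6, _⟩ | ⟨h6, h7, _⟩)
            · exact ⟨h6.1, fun h => h6.2 ⟨rfl, h.2⟩⟩
            · omega
            · omega
          · intro h6
            exact Or.inl ⟨h5, h6.1, fun h => h6.2 ⟨trivial, h.2⟩⟩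
        · rw [e2 _ hjp]
          have h5 : s z ≤ s (j - 1) := (hle _ _).2 (by omega)
          have h5' : s (j - 1) ≤ m ↔ j - 1 < N := by
            rw [← hlt, ht]
            omega
          rw [Nat.add_sub_cancel, ← hzv]
          by_cases hi : i ≤ p
          · have h6 : i < p := by
              rcases Nat.eq_or_lt_of_le hi with h7 | h7
              · have := hip trivial h7
                omega
              · exact h7
            rw [e1 _ hi, hK i (j - 1) (by omega) (by omega) (by omega)]
            have h7 : s i ≤ s z := (hle _ _).2 (by omega)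
            constructor
            · rintro (⟨h8, _⟩ | ⟨_, _, h8, _⟩ | ⟨h8, _⟩)
              · omega
              · exact absurd ⟨p, hsm, h6, by omega⟩ h8
              · omega
            · rintro ⟨h8, _⟩
              exact absurd ⟨p, hsm, h6, by omega⟩ h8
          · rw [e2 _ hi]
            have h6 : s z ≤ s (i - 1) := (hle _ _).2 (by omega)
            have h7 : s (i - 1) ≤ s (j - 1) := (hle _ _).2 (by omega)
            constructor
            · intro _
              refine ⟨?_, by omega⟩
              rintro ⟨q, hq, h9, h10⟩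
              have := hmp q hq
              omega
            · intro _
              exact Or.inr (Or.inr ⟨by omega, by omega, by omega⟩)
    · -- the new value does not stay a site
      have hch : chB (b, L, e) z = (false, popL L z, N - z) := by
        unfold chB
        rw [if_neg hzN, if_neg hbz]
      rw [hch]
      obtain ⟨hq1, hq2, hq3⟩ := popL_spec L z
      have hq4 := mkL_le (popL L z)
      have hq5 := sum_mem_mkL (popL L z)
      set L' := popL L z with hL'
      have hsz : szB (false, L', N - z) = L'.sum + (N - z) := by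
        simp only [szB, Bool.toNat_false]
        omega
      unfold RepB
      rw [hsz]
      simp only
      set q0 := L'.sum with hq0
      have hq0m : q0 ∈ mkL L := (hq3 q0).2 (Or.inl hq5)
      -- the block of `z`
      have hblz : ∀ i, Bl (mkL L) i z ↔ i < q0 := by
        intro i
        constructor
        · rintro ⟨q, hq, h5, h6⟩
          rcases (hq3 q).1 hq with h7 | h7
          · have := hq4 q h7
            omega
          · omega
        · intro h5
          exact ⟨q0, hq0m, h5, hq1⟩
      have hvv : KB τ v v := by
        rw [← hzv, hK z z le_rfl (by omega) (fun _ h => h)]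
        refine ⟨?_, hbz⟩
        rw [hblz]
        omega
      obtain ⟨s', e0⟩ : ∃ s' : ℕ → ℕ, ∀ i, s' i = if i < q0 then s i else s (i - q0 + z) + 1 :=
        ⟨_, fun _ => rfl⟩
      have e1 : ∀ i, i < q0 → s' i = s i := fun i hi => by rw [e0, if_pos hi]
      have e2 : ∀ i, ¬ i < q0 → s' i = s (i - q0 + z) + 1 := fun i hi => by rw [e0, if_neg hi]
      have hzN' : z < N := by omega
      refine ⟨s', ?_, ?_, ?_, ?_, ?_, ?_⟩
      · apply strictMono_nat_of_lt_succ
        intro i
        by_cases h5 : i + 1 < q0
        · rw [e1 _ h5, e1 _ (by omega)]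
          exact hs (by omega)
        · by_cases h6 : i < q0
          · rw [e1 _ h6, e2 _ h5]
            have := hs (show i < i + 1 - q0 + z by omega)
            omega
          · rw [e2 _ h5, e2 _ h6]
            have := hs (show i - q0 + z < i + 1 - q0 + z by omega)
            omega
      · intro w
        rw [mem_actB v τ hv w]
        constructor
        · rintro (⟨h5, h6, h7, h8⟩ | ⟨h5, h6⟩ | ⟨h5, h6⟩)
          · obtain ⟨j, hj, rfl⟩ := (hA w).1 h6
            rw [← hzv, hlt] at h5
            have h9 : j < q0 := by
              by_contra h9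
              by_cases h10 : b = true ∧ j = p
              · apply h7
                rw [← hl h10.1, h10.2]
              · apply h8
                rw [← hzv, hK j z (by omega) hzN' (fun h11 h12 => absurd ⟨h11, h12⟩ h10)]
                refine ⟨?_, hbz⟩
                rw [hblz]
                exact h9
            exact ⟨j, by omega, e1 _ h9⟩
          · exact absurd hvv h6
          · obtain ⟨j, hj, hjw⟩ := (hA (w - 1)).1 h6
            have hzj : z ≤ j := by
              rw [← hle, hjw]
              omega
            refine ⟨j - z + q0, by omega, ?_⟩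
            rw [e2 _ (by omega), show j - z + q0 - q0 + z = j by omega]
            omega
        · rintro ⟨i, hi, rfl⟩
          by_cases h5 : i < q0
          · rw [e1 _ h5]
            refine Or.inl ⟨by rw [← hzv, hlt]; omega, (hA _).2 ⟨i, by omega, rfl⟩, ?_, ?_⟩
            · intro h6
              cases b with
              | false =>
                apply hl2 rfl
                rw [← h6]
                exact (hA _).2 ⟨i, by omega, rfl⟩
              | true =>
                rw [← hl rfl, hinj] at h6
                omega
            · rw [← hzv, hK i z (by omega) hzN' (by omega), hblz]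
              tauto
          · right; right
            rw [e2 _ h5, Nat.add_sub_cancel]
            have h6 : s z ≤ s (i - q0 + z) := (hle _ _).2 (by omega)
            exact ⟨by omega, (hA _).2 ⟨i - q0 + z, by omega, rfl⟩⟩
      · rw [e2 _ (by omega), show q0 + (N - z) - q0 + z = N by omega, ht]
      · intro h
        simp at h
      · intro _
        rw [sv_last, mem_actB v τ hv]
        rintro (⟨h5, _⟩ | ⟨_, h5⟩ | ⟨h5, _⟩)
        · omega
        · exact h5 hvv
        · omega
      · intro i j hij hj _
        have hfalse : ¬ (false = true ∧ j = q0) := by simp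
        rw [kb_snocP]
        by_cases hjq : j < q0
        · rw [e1 _ hjq, e1 _ (show i < q0 by omega)]
          have h5 : s j ≤ v := by rw [← hzv, hle]; omega
          rw [hK i j hij (by omega) (by omega)]
          have h6 : Bl (mkL L) i j ↔ Bl (mkL L') i j := by
            constructor
            · rintro ⟨q, hq, h6, h7⟩
              rcases (hq3 q).1 hq with h8 | h8
              · exact ⟨q, h8, h6, h7⟩
              · omega
            · rintro ⟨q, hq, h6, h7⟩
              exact ⟨q, (hq3 q).2 (Or.inl hq), h6, h7⟩
          rw [h6]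
          constructor
          · rintro (⟨_, h7, _⟩ | ⟨_, h7, _⟩ | ⟨h7, h8, _⟩)
            · exact ⟨h7, hfalse⟩
            · omega
            · omega
          · rintro ⟨h7, _⟩
            exact Or.inl ⟨h5, h7, by omega⟩
        · rw [e2 _ hjq]
          have h5 : s z ≤ s (j - q0 + z) := (hle _ _).2 (by omega)
          have h5' : s (j - q0 + z) ≤ m ↔ j - q0 + z < N := by
            rw [← hlt, ht]
            omega
          rw [Nat.add_sub_cancel, ← hzv]
          by_cases hi : i < q0
          · rw [e1 _ hi, hK i (j - q0 + z) (by omega) (by omega) (by omega)]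
            have h7 : s i ≤ s z := (hle _ _).2 (by omega)
            constructor
            · rintro (⟨h8, _⟩ | ⟨_, _, h8, _⟩ | ⟨h8, _⟩)
              · omega
              · exact absurd ⟨q0, hq0m, hi, by omega⟩ h8
              · omega
            · rintro ⟨h8, _⟩
              exact absurd ⟨q0, hq5, hi, by omega⟩ h8
          · rw [e2 _ hi]
            have h6 : s z ≤ s (i - q0 + z) := (hle _ _).2 (by omega)
            have h7 : s (i - q0 + z) ≤ s (j - q0 + z) := (hle _ _).2 (by omega)
            constructor
            · intro _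
              refine ⟨?_, hfalse⟩
              rintro ⟨q, hq, h9, h10⟩
              have := hq4 q hq
              omega
            · intro _
              exact Or.inr (Or.inr ⟨by omega, by omega, by omega⟩)

/-- transfer operator of the tree of `4132` -/
def TB (f : Bool × List ℕ × ℕ → ℤ) (s : Bool × List ℕ × ℕ) : ℤ :=
  ∑ z ∈ range (szB s + 1), f (chB s z)

theorem card4132 (n : ℕ) : cardV V4132 n = (TB^[n] fun _ => 1) (true, [], 0) := by
  apply cardV_eq V4132 B4132 v4132_snocP TB RepB
  · intro m τ st hV hR
    obtain ⟨s, hs, hA, ht, hl, hl2, hK⟩ := hR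
    refine ⟨fun u => chB st (Function.invFun s u), ?_, ?_⟩
    · intro v hv
      obtain ⟨z, hz, hzv⟩ := (hA v).1 hv
      simp only
      rw [← hzv, Function.leftInverse_invFun hs.injective z]
      exact repB_step τ st s hs hA ht hl hl2 hK v z hz hzv
    · intro f
      exact sum_enum s hs _ _ hA fun z => f (chB st z)
  · refine ⟨?_, ?_⟩
    · intro i j k _ h
      exact absurd h (fin1_lt _ _)
    · intro i j k l h
      exact absurd h (fin1_lt _ _)
  · have hB : ∀ u, ¬ B4132 1 1 u := by
      rintro u (⟨i, j, h1, _, _⟩ | ⟨i, j, k, h, _⟩)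
      · have := i.2
        have := j.2
        omega
      · exact absurd h (fin1_lt _ _)
    refine ⟨id, strictMono_id, ?_, ?_, ?_, ?_, ?_⟩
    · intro w
      rw [act_one B4132 hB]
      constructor
      · intro h
        exact ⟨w, h, rfl⟩
      · rintro ⟨i, h, rfl⟩
        exact h
    · rfl
    · intro _
      rfl
    · intro h
      simp at h
    · intro i j hij hj _
      have h0 : szB (true, [], 0) = 1 := rfl
      rw [h0] at hj
      constructor
      · rintro ⟨i, j, h, _⟩
        exact absurd h (fin1_lt _ _)
      · rintro ⟨_, h1⟩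
        exfalso
        apply h1
        refine ⟨rfl, ?_⟩
        simp only [List.sum_nil]
        omega

end Pool.Agent.H25.Fish
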