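import Pool.Agent.H25.Fish.TA

set_option autoImplicit false

/-! The generating tree of the Fishburn permutations avoiding `4213`. -/

namespace Pool.Agent.H25.Fish

open Finset Pool.Agent.R121 Pool.Agent.R121.Fish

attribute [local instance 10] Classical.propDecidable

/-- occurrence of `421` whose completion to `4213` by the new last value `u` is possible -/
def P4213 {n : ℕ} (τ : Equiv.Perm (Fin n)) (u : ℕ) : Prop :=
  ∃ i j k : Fin n, i < j ∧ j < k ∧ (τ k : ℕ) < τ j ∧ (τ j : ℕ) < u ∧ u ≤ τ i

/-- avoidance of `4213` -/
def Av4213 {n : ℕ} (τ : Equiv.Perm (Fin n)) : Prop :=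
  ∀ i j k l : Fin n, i < j → j < k → k < l →
    ¬ ((τ k : ℕ) < τ j ∧ (τ j : ℕ) < τ l ∧ (τ l : ℕ) < τ i)

/-- valid permutations -/
def V4213 (n : ℕ) (τ : Equiv.Perm (Fin n)) : Prop := Fsh τ ∧ Av4213 τ

/-- forbidden sites -/
def B4213 (n : ℕ) (τ : Equiv.Perm (Fin n)) (u : ℕ) : Prop := FB τ u ∨ P4213 τ u

/-- a new value at the site `y` makes the site `u` forbidden -/
def DC {n : ℕ} (τ : Equiv.Perm (Fin n)) (y u : ℕ) : Prop :=
  ∃ i j : Fin n, i < j ∧ y ≤ τ j ∧ (τ j : ℕ) < u ∧ u ≤ τ i

lemma DC_self {n : ℕ} (τ : Equiv.Perm (Fin n)) {y u : ℕ} (h : u ≤ y) : ¬ DC τ y u := by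
  rintro ⟨i, j, h1, h2, h3, h4⟩
  omega

lemma av4213_snocP {n : ℕ} (v : Fin (n + 1)) (τ : Equiv.Perm (Fin n)) :
    Av4213 (snocP v τ) ↔ Av4213 τ ∧ ¬ P4213 τ v := by
  constructor
  · intro H
    constructor
    · intro i j k l h1 h2 h3 ⟨h4, h5, h6⟩
      apply H i.castSucc j.castSucc k.castSucc l.castSucc (by simpa using h1) (by simpa using h2)
        (by simpa using h3)
      rw [sv_cast, sv_cast, sv_cast, sv_cast]
      split_ifs <;> omega
    · rintro ⟨i, j, k, h1, h2, h3, h4, h5⟩
      apply H i.castSucc j.castSucc k.castSucc (Fin.last n) (by simpa using h1) (by simpa using h2)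
        (Fin.castSucc_lt_last k)
      rw [sv_cast, sv_cast, sv_cast, sv_last]
      split_ifs <;> omega
  · rintro ⟨H, hb⟩ i j k l h1 h2 h3 ⟨h4, h5, h6⟩
    induction k using Fin.lastCases with
    | last => exact absurd (lt_of_lt_of_le h3 (Fin.le_last _)) (lt_irrefl _)
    | cast k =>
      induction j using Fin.lastCases with
      | last => exact absurd (lt_of_lt_of_le h2 (Fin.le_last _)) (lt_irrefl _)
      | cast j =>
        induction i using Fin.lastCases with
        | last => exact absurd (lt_of_lt_of_le h1 (Fin.le_last _)) (lt_irrefl _)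
        | cast i =>
          simp only [Fin.castSucc_lt_castSucc_iff] at h1 h2
          induction l using Fin.lastCases with
          | last =>
            rw [sv_cast, sv_last] at h5
            rw [sv_last, sv_cast] at h6
            rw [sv_cast, sv_cast] at h4
            exact hb ⟨i, j, k, h1, h2, by split_ifs at h4 <;> omega, by split_ifs at h5 <;> omega,
              by split_ifs at h6 <;> omega⟩
          | cast l =>
            simp only [Fin.castSucc_lt_castSucc_iff] at h3
            rw [sv_cast, sv_cast] at h4 h5 h6
            exact H i j k l h1 h2 h3 ⟨by split_ifs at h4 <;> omega, by split_ifs at h5 <;> omega,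
              by split_ifs at h6 <;> omega⟩

lemma v4213_snocP (n : ℕ) (v : Fin (n + 1)) (τ : Equiv.Perm (Fin n)) :
    V4213 (n + 1) (snocP v τ) ↔ V4213 n τ ∧ ¬ B4213 n τ v := by
  unfold V4213 B4213
  rw [fsh_snocP, av4213_snocP]
  tauto

lemma p4213_snocP {n : ℕ} (v : Fin (n + 1)) (τ : Equiv.Perm (Fin n)) (u : ℕ) :
    P4213 (snocP v τ) u ↔
      (u ≤ v ∧ P4213 τ u) ∨ (v < u ∧ (P4213 τ (u - 1) ∨ DC τ v (u - 1))) := by
  constructor
  · rintro ⟨i, j, k, h1, h2, h3, h4, h5⟩
    induction j using Fin.lastCases with
    | last => exact absurd (lt_of_lt_of_le h2 (Fin.le_last _)) (lt_irrefl _)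
    | cast j =>
      induction i using Fin.lastCases with
      | last => exact absurd (lt_of_lt_of_le h1 (Fin.le_last _)) (lt_irrefl _)
      | cast i =>
        simp only [Fin.castSucc_lt_castSucc_iff] at h1
        induction k using Fin.lastCases with
        | last =>
          rw [sv_cast, sv_last] at h3
          rw [sv_cast] at h4
          rw [sv_cast] at h5
          right
          refine ⟨by split_ifs at h3 <;> split_ifs at h4 <;> omega,
            Or.inr ⟨i, j, h1, ?_, ?_, ?_⟩⟩
          · split_ifs at h3 <;> omega
          · split_ifs at h3 <;> split_ifs at h4 <;> omega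
          · split_ifs at h3 <;> split_ifs at h4 <;> split_ifs at h5 <;> omega
        | cast k =>
          simp only [Fin.castSucc_lt_castSucc_iff] at h2
          rw [sv_cast, sv_cast] at h3
          rw [sv_cast] at h4 h5
          by_cases h6 : u ≤ v
          · exact Or.inl ⟨h6, ⟨i, j, k, h1, h2, by split_ifs at h3 <;> omega,
              by split_ifs at h4 <;> omega, by split_ifs at h5 <;> omega⟩⟩
          · exact Or.inr ⟨by omega, Or.inl ⟨i, j, k, h1, h2, by split_ifs at h3 <;> omega,
              by split_ifs at h4 <;> omega, by split_ifs at h5 <;> omega⟩⟩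
  · rintro (⟨h0, ⟨i, j, k, h1, h2, h3, h4, h5⟩⟩ | ⟨h0, ⟨i, j, k, h1, h2, h3, h4, h5⟩ |
      ⟨i, j, h1, h2, h3, h4⟩⟩)
    · refine ⟨i.castSucc, j.castSucc, k.castSucc, by simpa using h1, by simpa using h2, ?_, ?_, ?_⟩
      · rw [sv_cast, sv_cast]
        split_ifs <;> omega
      · rw [sv_cast]
        split_ifs <;> omega
      · rw [sv_cast]
        split_ifs <;> omega
    · refine ⟨i.castSucc, j.castSucc, k.castSucc, by simpa using h1, by simpa using h2, ?_, ?_, ?_⟩
      · rw [sv_cast, sv_cast]
        split_ifs <;> omega
      · rw [sv_cast]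
        split_ifs <;> omega
      · rw [sv_cast]
        split_ifs <;> omega
    · refine ⟨i.castSucc, j.castSucc, Fin.last _, by simpa using h1,
        Fin.castSucc_lt_last j, ?_, ?_, ?_⟩
      · rw [sv_cast, sv_last]
        split_ifs <;> omega
      · rw [sv_cast]
        split_ifs <;> omega
      · rw [sv_cast]
        split_ifs <;> omega

lemma dc_snocP {n : ℕ} (v : Fin (n + 1)) (τ : Equiv.Perm (Fin n)) (y u : ℕ) :
    DC (snocP v τ) y u ↔ (u ≤ v ∧ DC τ y u) ∨ (v < u ∧ y ≤ v ∧ u ≤ n) ∨
      (v < u ∧ v < y ∧ DC τ (y - 1) (u - 1)) := by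
  constructor
  · rintro ⟨i, j, h1, h2, h3, h4⟩
    induction i using Fin.lastCases with
    | last => exact absurd (lt_of_lt_of_le h1 (Fin.le_last _)) (lt_irrefl _)
    | cast i =>
      have hin := (snocP v τ i.castSucc).2
      induction j using Fin.lastCases with
      | last =>
        rw [sv_last] at h2 h3
        exact Or.inr (Or.inl ⟨h3, h2, by omega⟩)
      | cast j =>
        simp only [Fin.castSucc_lt_castSucc_iff] at h1
        by_cases h5 : u ≤ v
        · rw [sv_cast] at h2 h3 h4
          exact Or.inl ⟨h5, i, j, h1, by split_ifs at h2 h3 <;> omega,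
            by split_ifs at h3 <;> omega, by split_ifs at h4 <;> omega⟩
        · by_cases h6 : y ≤ v
          · exact Or.inr (Or.inl ⟨by omega, h6, by omega⟩)
          · rw [sv_cast] at h2 h3 h4
            exact Or.inr (Or.inr ⟨by omega, by omega, ⟨i, j, h1, by split_ifs at h2 <;> omega,
              by split_ifs at h3 <;> omega, by split_ifs at h4 <;> omega⟩⟩)
  · rintro (⟨h0, ⟨i, j, h1, h2, h3, h4⟩⟩ | ⟨h0, h01, h02⟩ |
      ⟨h0, h01, ⟨i, j, h1, h2, h3, h4⟩⟩)
    · refine ⟨i.castSucc, j.castSucc, by simpa using h1, ?_, ?_, ?_⟩
      · rw [sv_cast]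
        split_ifs <;> omega
      · rw [sv_cast]
        split_ifs <;> omega
      · rw [sv_cast]
        split_ifs <;> omega
    · let i : Fin n := τ.symm ⟨n - 1, by omega⟩
      have hi : (τ i : ℕ) = n - 1 := by simp [i]
      refine ⟨i.castSucc, Fin.last n, Fin.castSucc_lt_last i, ?_, ?_, ?_⟩
      · rw [sv_last]
        exact h01
      · rw [sv_last]
        exact h0
      · rw [sv_cast]
        split_ifs <;> omega
    · refine ⟨i.castSucc, j.castSucc, by simpa using h1, ?_, ?_, ?_⟩
      · rw [sv_cast]
        split_ifs <;> omega
      · rw [sv_cast]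
        split_ifs <;> omega
      · rw [sv_cast]
        split_ifs <;> omega

lemma mem_actC {m : ℕ} (v : Fin (m + 2)) (τ : Equiv.Perm (Fin (m + 1)))
    (hv : (v : ℕ) ∈ act B4213 m τ) (w : ℕ) : w ∈ act B4213 (m + 1) (snocP v τ) ↔
      (w < v ∧ w ∈ act B4213 m τ ∧ w ≠ τ (Fin.last m)) ∨ w = v ∨
      (v < w ∧ w - 1 ∈ act B4213 m τ ∧ ¬ DC τ v (w - 1)) := by
  have hv2 := v.2
  have hv1 : ¬ FB τ v ∧ ¬ P4213 τ v := by
    rw [mem_act, B4213] at hv
    tauto
  simp only [mem_act, B4213, fb_snocP, p4213_snocP]
  rcases lt_trichotomy w v with h | h | h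
  · have h1 : w < m + 1 + 2 := by omega
    have h2 : w < m + 2 := by omega
    have h3 : ¬ (v : ℕ) < w := by omega
    have h4 : w ≤ (v : ℕ) := by omega
    have h5 : w ≠ v := by omega
    simp only [h, h1, h2, h3, h4, h5, true_and, false_and, or_false, not_or]
    tauto
  · subst h
    have h1 : (v : ℕ) < m + 1 + 2 := by omega
    have h3 : ¬ (v : ℕ) < v := by omega
    simp only [h1, h3, le_refl, true_and, false_and, or_false, false_or]
    tauto
  · have h1 : w < m + 1 + 2 ↔ w - 1 < m + 2 := by omega
    have h3 : ¬ w < (v : ℕ) := by omega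
    have h4 : ¬ w ≤ (v : ℕ) := by omega
    have h5 : w ≠ v := by omega
    simp only [h, h1, h3, h4, h5, true_and, false_and, false_or, not_or]
    tauto

/-- the child of a state -/
def chC (s : Bool × ℕ × List ℕ × ℕ) (z : ℕ) : Bool × ℕ × List ℕ × ℕ :=
  if z < s.2.1 then
    if s.1 = true ∧ z + 1 < s.2.1 then
      (false, z + 1, s.2.2.1.filter fun y => y ≤ z, nx (s.2.1 - 1) s.2.2.1 z - z + 1)
    else (s.1, z + 1, s.2.2.1.filter fun y => y ≤ z, nx s.2.1 s.2.2.1 z - z)
  else (decide (z = s.2.1 + s.2.2.2), z, (s.2.1 - 1) :: s.2.2.1, s.2.1 + s.2.2.2 - z)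

/-- good states -/
def GoodC (s : Bool × ℕ × List ℕ × ℕ) : Prop :=
  1 ≤ s.2.1 ∧ s.2.2.1.Pairwise (· ≥ ·) ∧ (∀ q ∈ s.2.2.1, q + 1 ≤ s.2.1) ∧
    (s.1 = true → s.2.2.2 ≤ 1) ∧ (s.1 = false → 1 ≤ s.2.2.2)

lemma chC_good (s : Bool × ℕ × List ℕ × ℕ) (hs : GoodC s) (z : ℕ)
    (hz : z ≤ s.2.1 + s.2.2.2) : GoodC (chC s z) := by
  obtain ⟨b, p, rest, e⟩ := s
  obtain ⟨h1, h2, h3, h4, h5⟩ := hs
  simp only at h1 h2 h3 h4 h5 hz
  have hpw : (p :: rest).Pairwise (· ≥ ·) := by
    rw [List.pairwise_cons]
    exact ⟨fun q hq => by have := h3 q hq; omega, h2⟩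
  unfold chC
  by_cases h : z < p
  · simp only [if_pos h]
    have hq : ∀ q ∈ rest.filter (fun y => y ≤ z), q + 1 ≤ z + 1 := by
      intro q hq
      simp only [List.mem_filter, decide_eq_true_eq] at hq
      omega
    by_cases hb : b = true ∧ z + 1 < p
    · simp only [if_pos hb]
      exact ⟨by simp, h2.filter _, hq, by simp, by simp⟩
    · simp only [if_neg hb]
      obtain ⟨hk1, hk2, hk3, hk4⟩ := nx_spec rest p z hpw h
      refine ⟨by simp, h2.filter _, hq, ?_, ?_⟩
      · intro hb2
        simp only at hb2 ⊢
        have : ¬ z + 1 < p := fun h6 => hb ⟨hb2, h6⟩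
        omega
      · intro _
        simp only
        omega
  · simp only [if_neg h]
    refine ⟨by simp only; omega, ?_, ?_, ?_, ?_⟩
    · simp only
      rw [List.pairwise_cons]
      refine ⟨?_, h2⟩
      intro q hq
      have := h3 q hq
      omega
    · intro q hq
      simp only at hq ⊢
      rcases List.mem_cons.1 hq with hq | hq
      · omega
      · have := h3 q hq
        omega
    · intro hb
      simp only [decide_eq_true_eq] at hb
      simp only
      omega
    · intro hb
      simp only [decide_eq_false_iff_not] at hb
      simp only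
      omega

/-- the marks describe the relation `DC` on the sites -/
def RepC (m : ℕ) (τ : Equiv.Perm (Fin (m + 1))) (st : Bool × ℕ × List ℕ × ℕ) : Prop :=
  GoodC st ∧ ∃ s : ℕ → ℕ, StrictMono s ∧
  (∀ w, w ∈ act B4213 m τ ↔ ∃ i, i < st.2.1 + st.2.2.2 + 1 ∧ s i = w) ∧
  s (st.2.1 - 1) = τ (Fin.last m) ∧ s (st.2.1 + st.2.2.2) = m + 1 ∧
  ∀ i j, i < j → j < st.2.1 + st.2.2.2 + 1 → (DC τ (s i) (s j) ↔
    j < st.2.1 + st.2.2.2 ∧ Bl (st.2.1 :: st.2.2.1) i j ∧ ¬ (st.1 = true ∧ j + 1 = st.2.1))

lemma repC_step {m : ℕ} (τ : Equiv.Perm (Fin (m + 1))) (st : Bool × ℕ × List ℕ × ℕ)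
    (hg : GoodC st) (s : ℕ → ℕ) (hs : StrictMono s)
    (hA : ∀ w, w ∈ act B4213 m τ ↔ ∃ i, i < st.2.1 + st.2.2.2 + 1 ∧ s i = w)
    (hl : s (st.2.1 - 1) = τ (Fin.last m)) (ht : s (st.2.1 + st.2.2.2) = m + 1)
    (hD : ∀ i j, i < j → j < st.2.1 + st.2.2.2 + 1 → (DC τ (s i) (s j) ↔
      j < st.2.1 + st.2.2.2 ∧ Bl (st.2.1 :: st.2.2.1) i j ∧ ¬ (st.1 = true ∧ j + 1 = st.2.1)))
    (v : Fin (m + 2)) (z : ℕ) (hz : z < st.2.1 + st.2.2.2 + 1) (hzv : s z = v) :
    RepC (m + 1) (snocP v τ) (chC st z) := by
  refine ⟨chC_good st hg z (by omega), ?_⟩
  have hv : (v : ℕ) ∈ act B4213 m τ := (hA v).2 ⟨z, hz, hzv⟩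
  obtain ⟨b, p, rest, e⟩ := st
  obtain ⟨h1, h2, h3, hb1, hb2⟩ := hg
  simp only at h1 h2 h3 hb1 hb2 hz hA hl ht hD
  have hlt : ∀ a b, s a < s b ↔ a < b := fun a b => hs.lt_iff_lt
  have hle : ∀ a b, s a ≤ s b ↔ a ≤ b := fun a b => hs.le_iff_le
  have hinj : ∀ a b, s a = s b ↔ a = b := fun a b => hs.injective.eq_iff
  have hpw : (p :: rest).Pairwise (· ≥ ·) := by
    rw [List.pairwise_cons]
    exact ⟨fun q hq => by have := h3 q hq; omega, h2⟩
  by_cases hzp : z < p
  · by_cases hb : b = true ∧ z + 1 < p
    · -- the last value survives above the new one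
      obtain ⟨hb0, hz1⟩ := hb
      subst hb0
      have hch : chC (true, p, rest, e) z =
          (false, z + 1, rest.filter fun y => y ≤ z, nx (p - 1) rest z - z + 1) := by
        unfold chC
        simp only [if_pos hzp, hz1, and_self, if_true]
      rw [hch]
      simp only
      have hpw' : ((p - 1) :: rest).Pairwise (· ≥ ·) := by
        rw [List.pairwise_cons]
        exact ⟨fun q hq => by have := h3 q hq; omega, h2⟩
      obtain ⟨hk1, hk2, hk3, hk4⟩ := nx_spec rest (p - 1) z hpw' (by omega)
      set k := nx (p - 1) rest z with hk
      have hN : z + 1 + (k - z + 1) = k + 2 := by omega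
      rw [hN]
      obtain ⟨s', e0⟩ : ∃ s' : ℕ → ℕ, ∀ i, s' i = if i ≤ z then s i else if i ≤ k then
        s (i - 1) + 1 else if i = k + 1 then s (p - 1) + 1 else s (i - (k + 2) + (p + e)) + 1 :=
        ⟨_, fun _ => rfl⟩
      have e1 : ∀ i, i ≤ z → s' i = s i := fun i hi => by rw [e0, if_pos hi]
      have e2 : ∀ i, z < i → i ≤ k → s' i = s (i - 1) + 1 :=
        fun i hi h => by rw [e0, if_neg (by omega), if_pos h]
      have e3 : s' (k + 1) = s (p - 1) + 1 := by
        rw [e0, if_neg (by omega), if_neg (by omega), if_pos rfl]
      have e4 : ∀ i, k + 2 ≤ i → s' i = s (i - (k + 2) + (p + e)) + 1 := fun i hi => by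
        rw [e0, if_neg (by omega), if_neg (by omega), if_neg (by omega)]
      refine ⟨s', ?_, ?_, ?_, ?_, ?_⟩
      · apply strictMono_nat_of_lt_succ
        intro i
        by_cases h5 : i + 1 ≤ z
        · rw [e1 _ h5, e1 _ (by omega)]
          exact hs (by omega)
        · by_cases h6 : i ≤ z
          · have : i = z := by omega
            rw [this, e1 z le_rfl, e2 (z + 1) (by omega) (by omega), Nat.add_sub_cancel]
            omega
          · by_cases h7 : i + 1 ≤ k
            · rw [e2 _ (by omega) h7, e2 _ (by omega) (by omega), Nat.add_sub_cancel]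
              have := hs (show i - 1 < i by omega)
              omega
            · by_cases h8 : i = k
              · rw [h8, e3, e2 k (by omega) le_rfl]
                have := hs (show k - 1 < p - 1 by omega)
                omega
              · by_cases h9 : i = k + 1
                · rw [h9, e3, e4 (k + 1 + 1) (by omega)]
                  have := hs (show p - 1 < k + 1 + 1 - (k + 2) + (p + e) by omega)
                  omega
                · rw [e4 i (by omega), e4 (i + 1) (by omega)]
                  have := hs (show i - (k + 2) + (p + e) < i + 1 - (k + 2) + (p + e) by omega)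
                  omega
      · intro w
        rw [mem_actC v τ hv w, ← hzv]
        constructor
        · rintro (⟨h5, h6, h7⟩ | h5 | ⟨h5, h6, h7⟩)
          · obtain ⟨j, hj, rfl⟩ := (hA w).1 h6
            rw [hlt] at h5
            exact ⟨j, by omega, e1 _ (by omega)⟩
          · exact ⟨z, by omega, by rw [e1 _ le_rfl]; exact h5.symm⟩
          · obtain ⟨j, hj, hjw⟩ := (hA (w - 1)).1 h6
            have hzj : z ≤ j := by
              rw [← hle, hjw]
              omega
            by_cases hjN : j = p + e
            · refine ⟨k + 2, by omega, ?_⟩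
              rw [e4 _ le_rfl, Nat.sub_self, Nat.zero_add, ← hjN]
              omega
            by_cases hjp : j = p - 1
            · refine ⟨k + 1, by omega, ?_⟩
              rw [e3, ← hjp]
              omega
            have hjk : j < k := by
              by_contra hjk
              apply h7
              rw [← hjw, hD z j (by omega) hj]
              refine ⟨by omega, ?_, by omega⟩
              rcases List.mem_cons.1 hk3 with h8 | h8
              · exact ⟨p, by simp, by omega, by omega⟩
              · exact ⟨k, List.mem_cons_of_mem _ h8, by omega, by omega⟩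
            refine ⟨j + 1, by omega, ?_⟩
            rw [e2 _ (by omega) (by omega), Nat.add_sub_cancel]
            omega
        · rintro ⟨i, hi, rfl⟩
          by_cases h5 : i ≤ z
          · rw [e1 _ h5]
            rcases Nat.eq_or_lt_of_le h5 with h6 | h6
            · subst h6
              exact Or.inr (Or.inl rfl)
            · refine Or.inl ⟨(hlt _ _).2 h6, (hA _).2 ⟨i, by omega, rfl⟩, ?_⟩
              rw [← hl, Ne, hinj]
              omega
          · right; right
            by_cases h6 : i ≤ k
            · rw [e2 _ (by omega) h6, Nat.add_sub_cancel]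
              have h7 : s z ≤ s (i - 1) := (hle _ _).2 (by omega)
              refine ⟨by omega, (hA _).2 ⟨i - 1, by omega, rfl⟩, ?_⟩
              rcases Nat.eq_or_lt_of_le (show z ≤ i - 1 by omega) with h8 | h8
              · rw [← h8]
                exact DC_self τ le_rfl
              · rw [hD z (i - 1) h8 (by omega)]
                rintro ⟨_, ⟨q, hq, h9, h10⟩, _⟩
                rcases List.mem_cons.1 hq with h11 | hq
                · omega
                · have := hk4 q (List.mem_cons_of_mem _ hq) h9
                  omega
            · by_cases h7 : i = k + 1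
              · subst h7
                rw [e3, Nat.add_sub_cancel]
                have h7 : s z ≤ s (p - 1) := (hle _ _).2 (by omega)
                refine ⟨by omega, (hA _).2 ⟨p - 1, by omega, rfl⟩, ?_⟩
                rw [hD z (p - 1) (by omega) (by omega)]
                rintro ⟨_, _, h9⟩
                apply h9
                exact ⟨rfl, by omega⟩
              · have h8 : i - (k + 2) + (p + e) = p + e := by omega
                rw [e4 _ (by omega), h8, Nat.add_sub_cancel]
                have h7 : s z ≤ s (p + e) := (hle _ _).2 (by omega)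
                refine ⟨by omega, (hA _).2 ⟨p + e, by omega, rfl⟩, ?_⟩
                rw [hD z (p + e) (by omega) (by omega)]
                rintro ⟨h9, _⟩
                omega
      · rw [Nat.add_sub_cancel, e1 _ le_rfl, hzv, sv_last]
      · rw [e4 _ le_rfl, Nat.sub_self, Nat.zero_add, ht]
      · intro i j hij hj
        by_cases hjz : j ≤ z
        · rw [e1 _ hjz, e1 _ (show i ≤ z by omega)]
          have h5 : s j ≤ v := by rw [← hzv, hle]; exact hjz
          rw [dc_snocP v τ _ _, hD i j hij (by omega)]
          constructor
          · rintro (⟨_, _, ⟨q, hq, h6, h7⟩, _⟩ | ⟨h6, _⟩ | ⟨h6, _⟩)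
            · rcases List.mem_cons.1 hq with h8 | hq
              · omega
              · exact ⟨by omega, ⟨q, List.mem_cons_of_mem _ (by
                  simp only [List.mem_filter, decide_eq_true_eq]
                  exact ⟨hq, by omega⟩), h6, h7⟩, by simp⟩
            · omega
            · omega
          · rintro ⟨_, ⟨q, hq, h6, h7⟩, _⟩
            rcases List.mem_cons.1 hq with h8 | hq
            · omega
            · simp only [List.mem_filter, decide_eq_true_eq] at hq
              exact Or.inl ⟨h5, by omega, ⟨q, List.mem_cons_of_mem _ hq.1, h6, h7⟩, by omega⟩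
        · -- the site `j` is above the new value
          have hj' : ∃ j0, z ≤ j0 ∧ j0 ≤ p + e ∧ s' j = s j0 + 1 ∧ (j0 = p + e ↔ j = k + 2) ∧
              (j < k + 2 → j0 + 1 = j ∨ j0 + 1 = p) := by
            by_cases h6 : j ≤ k
            · exact ⟨j - 1, by omega, by omega, e2 _ (by omega) h6, by omega, by omega⟩
            · by_cases h7 : j = k + 1
              · subst h7
                exact ⟨p - 1, by omega, by omega, e3, by omega, by omega⟩
              · have h8 : j - (k + 2) + (p + e) = p + e := by omega
                exact ⟨p + e, by omega, le_rfl, by rw [e4 _ (by omega), h8], by omega, by omega⟩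
          obtain ⟨j0, hj1, hj2, hj3, hj4, hj5⟩ := hj'
          have h5 : s z ≤ s j0 := (hle _ _).2 hj1
          have h5' : s j0 ≤ m ↔ j0 < p + e := by
            rw [← hlt, ht]
            omega
          rw [hj3, dc_snocP v τ _ _, Nat.add_sub_cancel, ← hzv]
          by_cases hiz : i ≤ z
          · rw [e1 _ hiz]
            have h6 : s i ≤ s z := (hle _ _).2 hiz
            constructor
            · rintro (⟨h7, _⟩ | ⟨_, _, h7⟩ | ⟨_, h7, _⟩)
              · omega
              · exact ⟨by omega, ⟨z + 1, by simp, by omega, by omega⟩, by simp⟩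
              · omega
            · rintro ⟨h7, _⟩
              exact Or.inr (Or.inl ⟨by omega, h6, by omega⟩)
          · -- both are above
            have h6 : ¬ Bl ((z + 1) :: rest.filter fun y => y ≤ z) i j := by
              rintro ⟨q, hq, h7, h8⟩
              rcases List.mem_cons.1 hq with h9 | hq
              · omega
              · simp only [List.mem_filter, decide_eq_true_eq] at hq
                omega
            have h7 : i ≤ k ∨ i = k + 1 := by omega
            constructor
            · rintro (⟨h8, _⟩ | ⟨_, h8, _⟩ | ⟨_, h8, h9⟩)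
              · omega
              · exfalso
                rcases h7 with h7 | h7
                · rw [e2 _ (by omega) h7] at h8
                  have := (hle z (i - 1)).2 (by omega)
                  omega
                · subst h7
                  rw [e3] at h8
                  have := (hle z (p - 1)).2 (by omega)
                  omega
              · exfalso
                rcases h7 with h7 | h7
                · rw [e2 _ (by omega) h7, Nat.add_sub_cancel] at h9
                  by_cases h10 : i - 1 < j0
                  · rw [hD _ _ h10 (by omega)] at h9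
                    obtain ⟨h11, ⟨q, hq, h12, h13⟩, h14⟩ := h9
                    have h15 : j < k + 2 := by omega
                    rcases hj5 h15 with h16 | h16
                    · rcases List.mem_cons.1 hq with h17 | hq
                      · by_cases h18 : j ≤ k
                        · omega
                        · have : j = k + 1 := by omega
                          subst this
                          rw [e3] at hj3
                          have h19 : s (p - 1) = s j0 := by omega
                          rw [hinj] at h19
                          exact h14 ⟨rfl, by omega⟩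
                      · have := hk4 q (List.mem_cons_of_mem _ hq) (by omega)
                        by_cases h18 : j ≤ k
                        · omega
                        · have : j = k + 1 := by omega
                          subst this
                          rw [e3] at hj3
                          have h19 : s (p - 1) = s j0 := by omega
                          rw [hinj] at h19
                          exact h14 ⟨rfl, by omega⟩
                    · exact h14 ⟨rfl, h16⟩
                  · exact DC_self τ ((hle _ _).2 (by omega)) h9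
                · subst h7
                  have h10 : j = k + 2 := by omega
                  have h11 : j0 = p + e := hj4.2 h10
                  rw [e3, Nat.add_sub_cancel, h11, hD _ _ (by omega) (by omega)] at h9
                  omega
            · rintro ⟨_, h8, _⟩
              exact absurd h8 h6
    · -- the new value is at most the last one; the last one does not survive above
      have hch : chC (b, p, rest, e) z =
          (b, z + 1, rest.filter fun y => y ≤ z, nx p rest z - z) := by
        unfold chC
        simp only [if_pos hzp, if_neg hb]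
      rw [hch]
      simp only
      obtain ⟨hk1, hk2, hk3, hk4⟩ := nx_spec rest p z hpw hzp
      set k := nx p rest z with hk
      have hN : z + 1 + (k - z) = k + 1 := by omega
      rw [hN]
      obtain ⟨s', e0⟩ : ∃ s' : ℕ → ℕ, ∀ i, s' i = if i ≤ z then s i else if i ≤ k then
        s (i - 1) + 1 else s (i - (k + 1) + (p + e)) + 1 :=
        ⟨_, fun _ => rfl⟩
      have e1 : ∀ i, i ≤ z → s' i = s i := fun i hi => by rw [e0, if_pos hi]
      have e2 : ∀ i, z < i → i ≤ k → s' i = s (i - 1) + 1 :=
        fun i hi h => by rw [e0, if_neg (by omega), if_pos h]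
      have e4 : ∀ i, k + 1 ≤ i → s' i = s (i - (k + 1) + (p + e)) + 1 := fun i hi => by
        rw [e0, if_neg (by omega), if_neg (by omega)]
      have hbz : b = true → z + 1 = p := by
        intro hb3
        by_contra h
        exact hb ⟨hb3, by omega⟩
      refine ⟨s', ?_, ?_, ?_, ?_, ?_⟩
      · apply strictMono_nat_of_lt_succ
        intro i
        by_cases h5 : i + 1 ≤ z
        · rw [e1 _ h5, e1 _ (by omega)]
          exact hs (by omega)
        · by_cases h6 : i ≤ z
          · have : i = z := by omega
            rw [this, e1 z le_rfl, e2 (z + 1) (by omega) (by omega), Nat.add_sub_cancel]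
            omega
          · by_cases h7 : i + 1 ≤ k
            · rw [e2 _ (by omega) h7, e2 _ (by omega) (by omega), Nat.add_sub_cancel]
              have := hs (show i - 1 < i by omega)
              omega
            · by_cases h8 : i = k
              · rw [h8, e4 (k + 1) (by omega), e2 k (by omega) le_rfl]
                have := hs (show k - 1 < k + 1 - (k + 1) + (p + e) by omega)
                omega
              · rw [e4 i (by omega), e4 (i + 1) (by omega)]
                have := hs (show i - (k + 1) + (p + e) < i + 1 - (k + 1) + (p + e) by omega)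
                omega
      · intro w
        rw [mem_actC v τ hv w, ← hzv]
        constructor
        · rintro (⟨h5, h6, h7⟩ | h5 | ⟨h5, h6, h7⟩)
          · obtain ⟨j, hj, rfl⟩ := (hA w).1 h6
            rw [hlt] at h5
            exact ⟨j, by omega, e1 _ (by omega)⟩
          · exact ⟨z, by omega, by rw [e1 _ le_rfl]; exact h5.symm⟩
          · obtain ⟨j, hj, hjw⟩ := (hA (w - 1)).1 h6
            have hzj : z ≤ j := by
              rw [← hle, hjw]
              omega
            by_cases hjN : j = p + e
            · refine ⟨k + 1, by omega, ?_⟩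
              rw [e4 _ le_rfl, Nat.sub_self, Nat.zero_add, ← hjN]
              omega
            have hjk : j < k := by
              by_contra hjk
              apply h7
              rw [← hjw, hD z j (by omega) hj]
              refine ⟨by omega, ⟨k, hk3, by omega, by omega⟩, ?_⟩
              rintro ⟨h8, h9⟩
              have := hbz h8
              omega
            refine ⟨j + 1, by omega, ?_⟩
            rw [e2 _ (by omega) (by omega), Nat.add_sub_cancel]
            omega
        · rintro ⟨i, hi, rfl⟩
          by_cases h5 : i ≤ z
          · rw [e1 _ h5]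
            rcases Nat.eq_or_lt_of_le h5 with h6 | h6
            · subst h6
              exact Or.inr (Or.inl rfl)
            · refine Or.inl ⟨(hlt _ _).2 h6, (hA _).2 ⟨i, by omega, rfl⟩, ?_⟩
              rw [← hl, Ne, hinj]
              omega
          · right; right
            by_cases h6 : i ≤ k
            · rw [e2 _ (by omega) h6, Nat.add_sub_cancel]
              have h7 : s z ≤ s (i - 1) := (hle _ _).2 (by omega)
              refine ⟨by omega, (hA _).2 ⟨i - 1, by omega, rfl⟩, ?_⟩
              rcases Nat.eq_or_lt_of_le (show z ≤ i - 1 by omega) with h8 | h8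
              · rw [← h8]
                exact DC_self τ le_rfl
              · rw [hD z (i - 1) h8 (by omega)]
                rintro ⟨_, ⟨q, hq, h9, h10⟩, _⟩
                have := hk4 q hq h9
                omega
            · have h8 : i - (k + 1) + (p + e) = p + e := by omega
              rw [e4 _ (by omega), h8, Nat.add_sub_cancel]
              have h7 : s z ≤ s (p + e) := (hle _ _).2 (by omega)
              refine ⟨by omega, (hA _).2 ⟨p + e, by omega, rfl⟩, ?_⟩
              rw [hD z (p + e) (by omega) (by omega)]
              rintro ⟨h9, _⟩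
              omega
      · rw [Nat.add_sub_cancel, e1 _ le_rfl, hzv, sv_last]
      · rw [e4 _ le_rfl, Nat.sub_self, Nat.zero_add, ht]
      · intro i j hij hj
        by_cases hjz : j ≤ z
        · rw [e1 _ hjz, e1 _ (show i ≤ z by omega)]
          have h5 : s j ≤ v := by rw [← hzv, hle]; exact hjz
          rw [dc_snocP v τ _ _, hD i j hij (by omega)]
          constructor
          · rintro (⟨_, _, ⟨q, hq, h6, h7⟩, h8⟩ | ⟨h6, _⟩ | ⟨h6, _⟩)
            · rcases List.mem_cons.1 hq with h9 | hq
              · omega
              · refine ⟨by omega, ⟨q, List.mem_cons_of_mem _ (by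
                  simp only [List.mem_filter, decide_eq_true_eq]
                  exact ⟨hq, by omega⟩), h6, h7⟩, ?_⟩
                rintro ⟨h9, h10⟩
                have := hbz h9
                exact h8 ⟨h9, by omega⟩
            · omega
            · omega
          · rintro ⟨_, ⟨q, hq, h6, h7⟩, h9⟩
            rcases List.mem_cons.1 hq with h8 | hq
            · omega
            · simp only [List.mem_filter, decide_eq_true_eq] at hq
              refine Or.inl ⟨h5, by omega, ⟨q, List.mem_cons_of_mem _ hq.1, h6, h7⟩, ?_⟩
              rintro ⟨h10, h11⟩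
              have := hbz h10
              exact h9 ⟨h10, by omega⟩
        · -- the site `j` is above the new value
          have hj' : ∃ j0, z ≤ j0 ∧ j0 ≤ p + e ∧ s' j = s j0 + 1 ∧ (j0 = p + e ↔ j = k + 1) ∧
              (j < k + 1 → j0 + 1 = j) := by
            by_cases h6 : j ≤ k
            · exact ⟨j - 1, by omega, by omega, e2 _ (by omega) h6, by omega, by omega⟩
            · have h8 : j - (k + 1) + (p + e) = p + e := by omega
              exact ⟨p + e, by omega, le_rfl, by rw [e4 _ (by omega), h8], by omega, by omega⟩
          obtain ⟨j0, hj1, hj2, hj3, hj4, hj5⟩ := hj'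
          have h5 : s z ≤ s j0 := (hle _ _).2 hj1
          have h5' : s j0 ≤ m ↔ j0 < p + e := by
            rw [← hlt, ht]
            omega
          rw [hj3, dc_snocP v τ _ _, Nat.add_sub_cancel, ← hzv]
          by_cases hiz : i ≤ z
          · rw [e1 _ hiz]
            have h6 : s i ≤ s z := (hle _ _).2 hiz
            constructor
            · rintro (⟨h7, _⟩ | ⟨_, _, h7⟩ | ⟨_, h7, _⟩)
              · omega
              · exact ⟨by omega, ⟨z + 1, by simp, by omega, by omega⟩, by omega⟩
              · omega
            · rintro ⟨h7, _⟩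
              exact Or.inr (Or.inl ⟨by omega, h6, by omega⟩)
          · -- both are above
            have h6 : ¬ Bl ((z + 1) :: rest.filter fun y => y ≤ z) i j := by
              rintro ⟨q, hq, h7, h8⟩
              rcases List.mem_cons.1 hq with h9 | hq
              · omega
              · simp only [List.mem_filter, decide_eq_true_eq] at hq
                omega
            have h7 : i ≤ k := by omega
            constructor
            · rintro (⟨h8, _⟩ | ⟨_, h8, _⟩ | ⟨_, h8, h9⟩)
              · omega
              · exfalso
                rw [e2 _ (by omega) h7] at h8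
                have := (hle z (i - 1)).2 (by omega)
                omega
              · exfalso
                rw [e2 _ (by omega) h7, Nat.add_sub_cancel] at h9
                rw [hD _ _ (by omega) (by omega)] at h9
                obtain ⟨h11, ⟨q, hq, h12, h13⟩, h14⟩ := h9
                have := hk4 q hq (by omega)
                omega
            · rintro ⟨_, h8, _⟩
              exact absurd h8 h6
  · -- the new value is above the last one
    have hch : chC (b, p, rest, e) z =
        (decide (z = p + e), z, (p - 1) :: rest, p + e - z) := by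
      unfold chC
      simp only [if_neg hzp]
    rw [hch]
    simp only
    have hN : z + (p + e - z) = p + e := by omega
    rw [hN]
    have hno : ∀ i j, p ≤ i → ¬ Bl (p :: rest) i j := by
      rintro i j hi ⟨q, hq, h5, h6⟩
      rcases List.mem_cons.1 hq with rfl | hq
      · omega
      · have := h3 q hq
        omega
    obtain ⟨s', e0⟩ : ∃ s' : ℕ → ℕ, ∀ i, s' i = if i + 1 < p then s i else
        if i < z then s (i + 1) else s i + 1 := ⟨_, fun _ => rfl⟩
    have e1 : ∀ i, i + 1 < p → s' i = s i := fun i hi => by rw [e0, if_pos hi]
    have e2 : ∀ i, ¬ i + 1 < p → i < z → s' i = s (i + 1) :=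
      fun i hi h => by rw [e0, if_neg hi, if_pos h]
    have e3 : ∀ i, ¬ i < z → s' i = s i + 1 :=
      fun i h => by rw [e0, if_neg (by omega), if_neg h]
    refine ⟨s', ?_, ?_, ?_, ?_, ?_⟩
    · apply strictMono_nat_of_lt_succ
      intro i
      by_cases h5 : i + 1 + 1 < p
      · rw [e1 _ h5, e1 _ (by omega)]
        exact hs (by omega)
      · by_cases h6 : i + 1 < p
        · rw [e1 _ h6, e2 _ h5 (by omega)]
          exact hs (by omega)
        · by_cases h7 : i + 1 < z
          · rw [e2 _ h5 h7, e2 _ h6 (by omega)]
            exact hs (by omega)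
          · by_cases h8 : i < z
            · rw [e2 _ h6 h8, e3 _ h7]
              omega
            · rw [e3 _ h7, e3 _ h8]
              have := hs (show i < i + 1 by omega)
              omega
    · intro w
      rw [mem_actC v τ hv w, ← hzv]
      constructor
      · rintro (⟨h5, h6, h7⟩ | h5 | ⟨h5, h6, h7⟩)
        · obtain ⟨j, hj, rfl⟩ := (hA w).1 h6
          rw [hlt] at h5
          rw [← hl, Ne, hinj] at h7
          by_cases h8 : j + 1 < p
          · exact ⟨j, by omega, e1 _ h8⟩
          · exact ⟨j - 1, by omega, by
              rw [e2 _ (by omega) (by omega), Nat.sub_add_cancel (by omega)]⟩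
        · exact ⟨z - 1, by omega, by
            rw [e2 _ (by omega) (by omega), Nat.sub_add_cancel (by omega)]; exact h5.symm⟩
        · obtain ⟨j, hj, hjw⟩ := (hA (w - 1)).1 h6
          have hzj : z ≤ j := by
            rw [← hle, hjw]
            omega
          refine ⟨j, by omega, ?_⟩
          rw [e3 _ (by omega)]
          omega
      · rintro ⟨i, hi, rfl⟩
        by_cases h5 : i + 1 < p
        · rw [e1 _ h5]
          refine Or.inl ⟨(hlt _ _).2 (by omega), (hA _).2 ⟨i, by omega, rfl⟩, ?_⟩
          rw [← hl, Ne, hinj]
          omega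
        · by_cases h6 : i < z
          · rw [e2 _ h5 h6]
            rcases Nat.eq_or_lt_of_le (show i + 1 ≤ z by omega) with h7 | h7
            · rw [h7]
              exact Or.inr (Or.inl rfl)
            · refine Or.inl ⟨(hlt _ _).2 (by omega), (hA _).2 ⟨i + 1, by omega, rfl⟩, ?_⟩
              rw [← hl, Ne, hinj]
              omega
          · rw [e3 _ h6]
            have h7 : s z ≤ s i := (hle _ _).2 (by omega)
            refine Or.inr (Or.inr ⟨by omega, ?_, ?_⟩)
            · rw [Nat.add_sub_cancel]
              exact (hA _).2 ⟨i, by omega, rfl⟩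
            · rw [Nat.add_sub_cancel]
              rcases Nat.eq_or_lt_of_le (show z ≤ i by omega) with h8 | h8
              · rw [← h8]
                exact DC_self τ le_rfl
              · rw [hD z i h8 (by omega)]
                rintro ⟨_, h9, _⟩
                exact hno _ _ (by omega) h9
    · rw [e2 _ (by omega) (by omega), Nat.sub_add_cancel (by omega), hzv, sv_last]
    · rw [e3 _ (by omega), ht]
    · intro i j hij hj
      have hbt : ∀ i j, Bl (z :: (p - 1) :: rest) i j ↔
          (i < z ∧ z ≤ j) ∨ (i < p - 1 ∧ p - 1 ≤ j) ∨
          (∃ q ∈ rest, i < q ∧ q ≤ j) := by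
        intro i j
        constructor
        · rintro ⟨q, hq, h5, h6⟩
          rcases List.mem_cons.1 hq with h7 | hq
          · left
            omega
          · rcases List.mem_cons.1 hq with h7 | hq
            · right; left
              omega
            · exact Or.inr (Or.inr ⟨q, hq, h5, h6⟩)
        · rintro (⟨h5, h6⟩ | ⟨h5, h6⟩ | ⟨q, hq, h5, h6⟩)
          · exact ⟨z, by simp, by omega, h6⟩
          · exact ⟨p - 1, by simp, h5, h6⟩
          · exact ⟨q, by simp [hq], h5, h6⟩
      rw [hbt, decide_eq_true_eq]
      by_cases hjz : j < z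
      · -- `j` is below the new value
        by_cases hjp : j + 1 < p
        · rw [e1 _ hjp, e1 _ (show i + 1 < p by omega)]
          have h5 : s j ≤ v := by rw [← hzv, hle]; omega
          rw [dc_snocP v τ _ _, hD i j hij (by omega)]
          constructor
          · rintro (⟨_, _, ⟨q, hq, h6, h7⟩, _⟩ | ⟨h6, _⟩ | ⟨h6, _⟩)
            · rcases List.mem_cons.1 hq with h8 | hq
              · omega
              · exact ⟨by omega, Or.inr (Or.inr ⟨q, hq, h6, h7⟩), by omega⟩
            · omega
            · omega
          · rintro ⟨_, h6 | h6 | ⟨q, hq, h7, h8⟩, _⟩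
            · omega
            · omega
            · exact Or.inl ⟨h5, by omega, ⟨q, List.mem_cons_of_mem _ hq, h7, h8⟩, by omega⟩
        · rw [e2 _ hjp hjz]
          have h5 : s (j + 1) ≤ v := by rw [← hzv, hle]; omega
          by_cases hip : i + 1 < p
          · rw [e1 _ hip, dc_snocP v τ _ _, hD i (j + 1) (by omega) (by omega)]
            constructor
            · rintro (⟨_, h6, _⟩ | ⟨h6, _⟩ | ⟨h6, _⟩)
              · exact ⟨by omega, Or.inr (Or.inl ⟨by omega, by omega⟩), by omega⟩
              · omega
              · omega
            · rintro ⟨h6, _, h7⟩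
              exact Or.inl ⟨h5, by omega, ⟨p, by simp, by omega, by omega⟩, by omega⟩
          · rw [e2 _ hip (by omega), dc_snocP v τ _ _,
              hD (i + 1) (j + 1) (by omega) (by omega)]
            constructor
            · rintro (⟨_, _, h6, _⟩ | ⟨h6, _⟩ | ⟨h6, _⟩)
              · exact absurd h6 (hno _ _ (by omega))
              · omega
              · omega
            · rintro ⟨_, h6 | h6 | ⟨q, hq, h7, h8⟩, _⟩
              · omega
              · omega
              · have := h3 q hq
                omega
      · rw [e3 _ hjz]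
        have h5 : s z ≤ s j := (hle _ _).2 (by omega)
        have h5' : s j ≤ m ↔ j < p + e := by
          rw [← hlt, ht]
          omega
        rw [dc_snocP v τ _ _, Nat.add_sub_cancel, ← hzv]
        by_cases hiz : i < z
        · -- `i` is at most the new value
          have h6 : s' i ≤ s z := by
            by_cases hip : i + 1 < p
            · rw [e1 _ hip, hle]
              omega
            · rw [e2 _ hip hiz, hle]
              omega
          constructor
          · rintro (⟨h9, _⟩ | ⟨_, _, h9⟩ | ⟨_, h9, _⟩)
            · omega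
            · exact ⟨by omega, Or.inl ⟨hiz, by omega⟩, by omega⟩
            · omega
          · rintro ⟨h9, _, _⟩
            have h10 := h5'.2 h9
            exact Or.inr (Or.inl ⟨by omega, h6, by omega⟩)
        · rw [e3 _ hiz]
          have h6 : s z ≤ s i := (hle _ _).2 (by omega)
          rw [Nat.add_sub_cancel, hD i j hij (by omega)]
          constructor
          · rintro (⟨h9, _⟩ | ⟨_, h10, _⟩ | ⟨_, _, _, h11, _⟩)
            · omega
            · omega
            · exact absurd h11 (hno _ _ (by omega))
          · rintro ⟨_, h9 | h9 | ⟨q, hq, h9, h10⟩, _⟩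
            · omega
            · omega
            · have := h3 q hq
              omega

/-- transfer operator of the tree of `4213` -/
def TC (f : Bool × ℕ × List ℕ × ℕ → ℤ) (s : Bool × ℕ × List ℕ × ℕ) : ℤ :=
  ∑ z ∈ range (s.2.1 + s.2.2.2 + 1), f (chC s z)

theorem card4213 (n : ℕ) : cardV V4213 n = (TC^[n] fun _ => 1) (true, 1, [], 0) := by
  apply cardV_eq V4213 B4213 v4213_snocP TC RepC
  · intro m τ st hV hR
    obtain ⟨hg, s, hs, hA, hl, ht, hD⟩ := hR
    refine ⟨fun u => chC st (Function.invFun s u), ?_, ?_⟩
    · intro v hv
      obtain ⟨z, hz, hzv⟩ := (hA v).1 hv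
      simp only
      rw [← hzv, Function.leftInverse_invFun hs.injective z]
      exact repC_step τ st hg s hs hA hl ht hD v z hz hzv
    · intro f
      exact sum_enum s hs _ _ hA fun z => f (chC st z)
  · refine ⟨?_, ?_⟩
    · intro i j k _ h
      exact absurd h (fin1_lt _ _)
    · intro i j k l h
      exact absurd h (fin1_lt _ _)
  · have hB : ∀ u, ¬ B4213 1 1 u := by
      rintro u (⟨i, j, h1, _, _⟩ | ⟨i, j, k, h, _⟩)
      · have := i.2
        have := j.2
        omega
      · exact absurd h (fin1_lt _ _)
    refine ⟨⟨by simp, by simp, by simp, by simp, by simp⟩, id, strictMono_id, ?_, ?_, ?_, ?_⟩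
    · intro w
      rw [act_one B4213 hB]
      constructor
      · intro h
        exact ⟨w, h, rfl⟩
      · rintro ⟨i, h, rfl⟩
        exact h
    · rfl
    · rfl
    · intro i j hij hj
      constructor
      · rintro ⟨i, j, h, _⟩
        exact absurd h (fin1_lt _ _)
      · rintro ⟨h1, _⟩
        simp only at h1
        omega

end Pool.Agent.H25.Fish
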